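import Mathlib

/-!
Infinite words without long powers of exponent greater than three have complexity at least
`2 m - C`.
-/

set_option autoImplicit false

namespace Pool.Agent.Y906.LowComp

variable {A : Type*}

/-- the block of length `m` of the word `x` at the position `i` -/
def blk (x : ℕ → A) (m i : ℕ) : Fin m → A := fun j => x (i + j)

/-- the set of all blocks of length `m` of the word `x` -/
def Blks (x : ℕ → A) (m : ℕ) : Set (Fin m → A) := Set.range (blk x m)

/-- the blocks of length `m` at `i` and `j` agree -/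
def E (x : ℕ → A) (m i j : ℕ) : Prop := ∀ k, k < m → x (i + k) = x (j + k)

/-- the complexity of a word, as a natural number -/
noncomputable def P (x : ℕ → A) (m : ℕ) : ℕ := (Blks x m).ncard

lemma blk_eq_iff {x : ℕ → A} {m i j : ℕ} : blk x m i = blk x m j ↔ E x m i j := by
  constructor
  · intro h k hk
    exact congrFun h ⟨k, hk⟩
  · intro h
    funext k
    exact h k.1 k.2

lemma E.refl (x : ℕ → A) (m i : ℕ) : E x m i i := fun _ _ => rfl

lemma E.symm {x : ℕ → A} {m i j : ℕ} (h : E x m i j) : E x m j i := fun k hk => (h k hk).symm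

lemma E.trans {x : ℕ → A} {m i j l : ℕ} (h : E x m i j) (h' : E x m j l) : E x m i l :=
  fun k hk => (h k hk).trans (h' k hk)

lemma E.mono {x : ℕ → A} {m m' i j : ℕ} (h : E x m i j) (hm : m' ≤ m) : E x m' i j :=
  fun k hk => h k (by omega)

lemma E.shift {x : ℕ → A} {m m' i j : ℕ} (t : ℕ) (h : E x m i j) (hm : m' + t ≤ m) :
    E x m' (i + t) (j + t) := by
  intro k hk
  have := h (t + k) (by omega)
  rwa [← add_assoc, ← add_assoc] at this

lemma E.succ {x : ℕ → A} {m i j : ℕ} (h : E x m i j) (h' : x (i + m) = x (j + m)) :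
    E x (m + 1) i j := by
  intro k hk
  rcases Nat.lt_succ_iff_lt_or_eq.1 hk with h1 | rfl
  · exact h k h1
  · exact h'

lemma init_blk (x : ℕ → A) (m i : ℕ) : Fin.init (blk x (m + 1) i) = blk x m i := by
  funext k
  rfl

lemma Blks_init (x : ℕ → A) (m : ℕ) :
    Blks x m = (fun w : Fin (m + 1) → A => (Fin.init w : Fin m → A)) '' Blks x (m + 1) := by
  ext w
  constructor
  · rintro ⟨i, rfl⟩
    exact ⟨blk x (m + 1) i, ⟨i, rfl⟩, init_blk x m i⟩
  · rintro ⟨_, ⟨i, rfl⟩, rfl⟩
    exact ⟨i, (init_blk x m i).symm⟩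

lemma fin_pred {x : ℕ → A} {m : ℕ} (h : (Blks x (m + 1)).Finite) : (Blks x m).Finite := by
  rw [Blks_init]
  exact h.image _

lemma fin_le {x : ℕ → A} {m m' : ℕ} (h : (Blks x m).Finite) (hm : m' ≤ m) :
    (Blks x m').Finite := by
  induction m with
  | zero =>
    have : m' = 0 := by omega
    rwa [this]
  | succ m ih =>
    rcases Nat.lt_or_ge m' (m + 1) with h1 | h1
    · exact ih (fin_pred h) (by omega)
    · have : m' = m + 1 := by omega
      rwa [this]

/-- at most one new block if only one block of length `L + 1` has to be removed to make the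
restriction injective -/
lemma card_le_succ {x : ℕ → A} {L : ℕ} (p : ℕ) (hfin : (Blks x (L + 1)).Finite)
    (h : ∀ i j, E x L i j → ¬ E x (L + 1) i p → ¬ E x (L + 1) j p → E x (L + 1) i j) :
    P x (L + 1) ≤ P x L + 1 := by
  have h1 : (Blks x (L + 1) \ {blk x (L + 1) p}).ncard ≤ (Blks x L).ncard := by
    apply Set.ncard_le_ncard_of_injOn (ht := fin_pred hfin)
      (fun w : Fin (L + 1) → A => (Fin.init w : Fin L → A))
    · rintro _ ⟨⟨i, rfl⟩, _⟩
      exact ⟨i, (init_blk x L i).symm⟩
    · rintro _ ⟨⟨i, rfl⟩, hi⟩ _ ⟨⟨j, rfl⟩, hj⟩ hij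
      change Fin.init (blk x (L + 1) i) = Fin.init (blk x (L + 1) j) at hij
      rw [init_blk, init_blk, blk_eq_iff] at hij
      rw [blk_eq_iff]
      apply h i j hij
      · intro h2
        exact hi (blk_eq_iff.2 h2)
      · intro h2
        exact hj (blk_eq_iff.2 h2)
  have h2 := Set.ncard_sdiff_singleton_add_one (s := Blks x (L + 1)) (a := blk x (L + 1) p)
    ⟨p, rfl⟩ hfin
  unfold P
  omega

lemma card_le {x : ℕ → A} {L : ℕ} (hfin : (Blks x (L + 1)).Finite)
    (h : ∀ i j, E x L i j → E x (L + 1) i j) : P x (L + 1) ≤ P x L := by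
  apply Set.ncard_le_ncard_of_injOn (ht := fin_pred hfin)
    (fun w : Fin (L + 1) → A => (Fin.init w : Fin L → A))
  · rintro _ ⟨i, rfl⟩
    exact ⟨i, (init_blk x L i).symm⟩
  · rintro _ ⟨i, rfl⟩ _ ⟨j, rfl⟩ hij
    change Fin.init (blk x (L + 1) i) = Fin.init (blk x (L + 1) j) at hij
    rw [init_blk, init_blk, blk_eq_iff] at hij
    rw [blk_eq_iff]
    exact h i j hij

/-- if the complexity grows only by one then there is only one branching -/
lemma branch {x : ℕ → A} {L : ℕ} (hfin : (Blks x (L + 1)).Finite) (hP : P x (L + 1) ≤ P x L + 1)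
    {i₀ j₀ : ℕ} (h0 : E x L i₀ j₀) (h0' : ¬ E x (L + 1) i₀ j₀) {i j : ℕ} (h1 : E x L i j)
    (h1' : ¬ E x (L + 1) i j) :
    (E x (L + 1) i i₀ ∧ E x (L + 1) j j₀) ∨ (E x (L + 1) i j₀ ∧ E x (L + 1) j i₀) := by
  -- it suffices that both are in the set
  have key : ∀ i j : ℕ, E x L i j → ¬ E x (L + 1) i j →
      E x (L + 1) i i₀ ∨ E x (L + 1) i j₀ := by
    intro i j h1 h1'
    by_contra hcon
    push Not at hcon
    obtain ⟨h2, h3⟩ := hcon
    set T : Set (Fin (L + 1) → A) := Blks x (L + 1) \ {blk x (L + 1) j₀} with hT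
    set T' : Set (Fin (L + 1) → A) := T \ {blk x (L + 1) i} with hT'
    have hm1 : blk x (L + 1) j₀ ∈ Blks x (L + 1) := ⟨j₀, rfl⟩
    have hm2 : blk x (L + 1) i ∈ T := by
      refine ⟨⟨i, rfl⟩, ?_⟩
      intro h4
      exact h3 (blk_eq_iff.1 h4)
    have hTfin : T.Finite := hfin.subset Set.sdiff_subset
    have e1 : T.ncard + 1 = (Blks x (L + 1)).ncard :=
      Set.ncard_sdiff_singleton_add_one hm1 hfin
    have e2 : T'.ncard + 1 = T.ncard := Set.ncard_sdiff_singleton_add_one hm2 hTfin
    have hsurj : Blks x L ⊆ (fun w : Fin (L + 1) → A => (Fin.init w : Fin L → A)) '' T' := by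
      rintro _ ⟨l, rfl⟩
      have mk : ∀ l' : ℕ, E x L l' l → ¬ E x (L + 1) l' j₀ → ¬ E x (L + 1) l' i →
          blk x L l ∈ (fun w : Fin (L + 1) → A => (Fin.init w : Fin L → A)) '' T' := by
        intro l' h5 h6 h7
        refine ⟨blk x (L + 1) l', ⟨⟨⟨l', rfl⟩, ?_⟩, ?_⟩, ?_⟩
        · intro h8
          exact h6 (blk_eq_iff.1 h8)
        · intro h8
          exact h7 (blk_eq_iff.1 h8)
        · change Fin.init (blk x (L + 1) l') = blk x L l
          rw [init_blk, blk_eq_iff]
          exact h5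
      by_cases c1 : E x (L + 1) l j₀
      · apply mk i₀
        · exact h0.trans (c1.mono (by omega)).symm
        · exact h0'
        · intro h8
          exact h2 h8.symm
      · by_cases c2 : E x (L + 1) l i
        · by_cases c3 : E x (L + 1) j j₀
          · apply mk i₀
            · exact (h0.trans (c3.mono (by omega)).symm).trans
                (h1.symm.trans (c2.mono (by omega)).symm)
            · exact h0'
            · intro h8
              exact h2 h8.symm
          · apply mk j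
            · exact h1.symm.trans (c2.mono (by omega)).symm
            · exact c3
            · intro h8
              exact h1' h8.symm
        · exact mk l (E.refl _ _ _) c1 c2
    have hT'fin : T'.Finite := hTfin.subset Set.sdiff_subset
    have e3 : (Blks x L).ncard ≤ T'.ncard :=
      le_trans (Set.ncard_le_ncard hsurj (hT'fin.image _)) (Set.ncard_image_le hT'fin)
    unfold P at hP
    omega
  rcases key i j h1 h1' with h2 | h2
  · rcases key j i h1.symm (fun h => h1' h.symm) with h3 | h3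
    · exact absurd (h2.trans h3.symm) h1'
    · exact Or.inl ⟨h2, h3⟩
  · rcases key j i h1.symm (fun h => h1' h.symm) with h3 | h3
    · exact Or.inr ⟨h2, h3⟩
    · exact absurd (h2.trans h3.symm) h1'

/-- the situation of one branching block, with the two return times `a` and `b` -/
structure Ctx (x : ℕ → A) (M m i₀ j₀ a b : ℕ) : Prop where
  recur : ∀ i N : ℕ, ∃ j, N ≤ j ∧ E x M i j
  mM : m + 2 ≤ M
  e : E x m i₀ j₀
  ne : ¬ E x (m + 1) i₀ j₀
  br : ∀ i j, E x m i j → ¬ E x (m + 1) i j →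
    (E x (m + 1) i i₀ ∧ E x (m + 1) j j₀) ∨ (E x (m + 1) i j₀ ∧ E x (m + 1) j i₀)
  a1 : 1 ≤ a
  b1 : 1 ≤ b
  va : E x m (i₀ + a) i₀
  vb : E x m (j₀ + b) i₀
  na : ∀ t, 0 < t → t < a → ¬ E x m (i₀ + t) i₀
  nb : ∀ t, 0 < t → t < b → ¬ E x m (j₀ + t) i₀

namespace Ctx

variable {x : ℕ → A} {M m i₀ j₀ a b : ℕ}

lemma symm (h : Ctx x M m i₀ j₀ a b) : Ctx x M m j₀ i₀ b a where
  recur := h.recur
  mM := h.mM
  e := h.e.symm
  ne := fun h' => h.ne h'.symm
  br := fun i j h1 h2 => (h.br i j h1 h2).symm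
  a1 := h.b1
  b1 := h.a1
  va := h.vb.trans h.e
  vb := h.va.trans h.e
  na := fun t h1 h2 h3 => h.nb t h1 h2 (h3.trans h.e.symm)
  nb := fun t h1 h2 h3 => h.na t h1 h2 (h3.trans h.e.symm)

lemma fwd (h : Ctx x M m i₀ j₀ a b) {p q : ℕ} (hpq : E x (m + 1) p q) (g : ℕ)
    (hg : ∀ t, 0 < t → t < g + 1 → ¬ E x m (p + t) i₀) : E x (m + g + 1) p q := by
  induction g with
  | zero => exact hpq
  | succ g ih =>
    have h1 := ih (fun t h1 h2 => hg t h1 (by omega))
    have h2 : E x m (p + (g + 1)) (q + (g + 1)) := h1.shift (g + 1) (by omega)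
    have h3 : E x (m + 1) (p + (g + 1)) (q + (g + 1)) := by
      by_contra h4
      rcases h.br _ _ h2 h4 with h5 | h5
      · exact hg (g + 1) (by omega) (by omega) (h5.1.mono (by omega))
      · exact hg (g + 1) (by omega) (by omega) ((h5.1.mono (by omega)).trans h.e.symm)
    have h4 := h3 m (by omega)
    apply h1.succ
    rw [show p + (m + g + 1) = p + (g + 1) + m by ring,
      show q + (m + g + 1) = q + (g + 1) + m by ring]
    exact h4

lemma fwd_a (h : Ctx x M m i₀ j₀ a b) {q : ℕ} (hq : E x (m + 1) q i₀) : E x (m + a) q i₀ := by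
  have h1 := h.fwd hq.symm (a - 1) (fun t h1 h2 => h.na t h1 (by have := h.a1; omega))
  have h2 := h.a1
  rw [show m + (a - 1) + 1 = m + a by omega] at h1
  exact h1.symm

lemma fwd_b (h : Ctx x M m i₀ j₀ a b) {q : ℕ} (hq : E x (m + 1) q j₀) : E x (m + b) q j₀ :=
  h.symm.fwd_a hq

lemma typ (h : Ctx x M m i₀ j₀ a b) {i : ℕ} (hi : E x m i i₀) :
    E x (m + a) i i₀ ∨ E x (m + b) i j₀ := by
  by_cases h1 : E x (m + 1) i i₀
  · exact Or.inl (h.fwd_a h1)
  · rcases h.br i i₀ hi h1 with h2 | h2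
    · exact absurd h2.1 h1
    · exact Or.inr (h.fwd_b h2.1)

lemma next_a (h : Ctx x M m i₀ j₀ a b) {i : ℕ} (hi : E x (m + a) i i₀) : E x m (i + a) i₀ :=
  (hi.shift a le_rfl).trans h.va

lemma next_b (h : Ctx x M m i₀ j₀ a b) {i : ℕ} (hi : E x (m + b) i j₀) : E x m (i + b) i₀ :=
  (hi.shift b le_rfl).trans h.vb

lemma last (_h : Ctx x M m i₀ j₀ a b) (p : ℕ) : ∃ i, i₀ ≤ i ∧ i ≤ i₀ + p ∧ E x m i i₀ ∧
    ∀ t, i < t → t ≤ i₀ + p → ¬ E x m t i₀ := by
  induction p with
  | zero => exact ⟨i₀, le_rfl, by omega, E.refl _ _ _, fun t h1 h2 => by omega⟩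
  | succ p ih =>
    by_cases h1 : E x m (i₀ + (p + 1)) i₀
    · exact ⟨i₀ + (p + 1), by omega, le_rfl, h1, fun t h1 h2 => by omega⟩
    · obtain ⟨i, h2, h3, h4, h5⟩ := ih
      refine ⟨i, h2, by omega, h4, ?_⟩
      intro t h6 h7
      rcases Nat.lt_or_ge (i₀ + p) t with h8 | h8
      · have : t = i₀ + (p + 1) := by omega
        rwa [this]
      · exact h5 t h6 h8

lemma cover (h : Ctx x M m i₀ j₀ a b) {p : ℕ} (hp : i₀ ≤ p) : ∃ i t, i₀ ≤ i ∧ p = i + t ∧
    ((t < a ∧ E x (m + a) i i₀) ∨ (t < b ∧ E x (m + b) i j₀)) := by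
  obtain ⟨i, h1, h2, h3, h4⟩ := h.last (p - i₀)
  refine ⟨i, p - i, h1, by omega, ?_⟩
  rcases h.typ h3 with h5 | h5
  · left
    refine ⟨?_, h5⟩
    by_contra hcon
    have := h.a1
    exact h4 (i + a) (by omega) (by omega) (h.next_a h5)
  · right
    refine ⟨?_, h5⟩
    by_contra hcon
    have := h.b1
    exact h4 (i + b) (by omega) (by omega) (h.next_b h5)

lemma prevv (h : Ctx x M m i₀ j₀ a b) {j : ℕ} (hj : i₀ < j) (hv : E x m j i₀) :
    ∃ i, i₀ ≤ i ∧ ((j = i + a ∧ E x (m + a) i i₀) ∨ (j = i + b ∧ E x (m + b) i j₀)) := by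
  obtain ⟨i, t, h1, h2, h3⟩ := h.cover (p := j - 1) (by omega)
  refine ⟨i, h1, ?_⟩
  rcases h3 with ⟨h3, h4⟩ | ⟨h3, h4⟩
  · left
    refine ⟨?_, h4⟩
    by_contra hcon
    have h5 : E x m (i + (t + 1)) (i₀ + (t + 1)) := h4.shift (t + 1) (by omega)
    rw [show i + (t + 1) = j by omega] at h5
    exact h.na (t + 1) (by omega) (by omega) (h5.symm.trans hv)
  · right
    refine ⟨?_, h4⟩
    by_contra hcon
    have h5 : E x m (i + (t + 1)) (j₀ + (t + 1)) := h4.shift (t + 1) (by omega)
    rw [show i + (t + 1) = j by omega] at h5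
    exact h.nb (t + 1) (by omega) (by omega) (h5.symm.trans hv)

/-- upper bound of the complexity -/
lemma upper (h : Ctx x M m i₀ j₀ a b) : P x (m + 1) ≤ a + b := by
  classical
  have h1 : Blks x (m + 1) ⊆ ((Finset.range a).image (fun t => blk x (m + 1) (i₀ + t)) ∪
      (Finset.range b).image (fun t => blk x (m + 1) (j₀ + t)) : Finset (Fin (m + 1) → A)) := by
    rintro _ ⟨p, rfl⟩
    obtain ⟨p', hp1, hp2⟩ := h.recur p i₀
    have hp3 : E x (m + 1) p p' := hp2.mono (by have := h.mM; omega)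
    obtain ⟨i, t, h1, h2, h3⟩ := h.cover hp1
    rw [Finset.coe_union, Set.mem_union, Finset.mem_coe, Finset.mem_coe, Finset.mem_image,
      Finset.mem_image]
    rcases h3 with ⟨h3, h4⟩ | ⟨h3, h4⟩
    · left
      refine ⟨t, Finset.mem_range.2 h3, ?_⟩
      rw [blk_eq_iff]
      refine E.symm (hp3.trans ?_)
      rw [h2]
      exact h4.shift t (by omega)
    · right
      refine ⟨t, Finset.mem_range.2 h3, ?_⟩
      rw [blk_eq_iff]
      refine E.symm (hp3.trans ?_)
      rw [h2]
      exact h4.shift t (by omega)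
  calc P x (m + 1) ≤ ((Finset.range a).image (fun t => blk x (m + 1) (i₀ + t)) ∪
      (Finset.range b).image (fun t => blk x (m + 1) (j₀ + t)) : Finset (Fin (m + 1) → A)).card := by
        rw [← Set.ncard_coe_finset]
        exact Set.ncard_le_ncard h1 (Finset.finite_toSet _)
    _ ≤ ((Finset.range a).image (fun t => blk x (m + 1) (i₀ + t))).card +
      ((Finset.range b).image (fun t => blk x (m + 1) (j₀ + t))).card := Finset.card_union_le _ _
    _ ≤ a + b := by
        apply Nat.add_le_add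
        · exact le_trans Finset.card_image_le (by simp)
        · exact le_trans Finset.card_image_le (by simp)

/-- the number of common steps before a visit -/
lemma common (h : Ctx x M m i₀ j₀ a b) : ∃ c, c < a ∧ c < b ∧
    E x (m + c) (i₀ + a - c) (j₀ + b - c) ∧
    ∀ t, c < t → t ≤ a → t ≤ b → ¬ E x (m + t) (i₀ + a - t) (j₀ + b - t) := by
  classical
  have ha := h.a1
  have hb := h.b1
  have hex : ∃ t, t + 1 ≤ a ∧ t + 1 ≤ b ∧
      ¬ E x (m + (t + 1)) (i₀ + a - (t + 1)) (j₀ + b - (t + 1)) := by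
    rcases Nat.lt_trichotomy a b with hab | hab | hab
    · refine ⟨a - 1, by omega, by omega, ?_⟩
      intro h1
      rw [show a - 1 + 1 = a by omega, show i₀ + a - a = i₀ by omega,
        show j₀ + b - a = j₀ + (b - a) by omega] at h1
      exact h.nb (b - a) (by omega) (by omega) (h1.mono (by omega)).symm
    · refine ⟨a - 1, by omega, by omega, ?_⟩
      intro h1
      rw [show a - 1 + 1 = a by omega, show i₀ + a - a = i₀ by omega,
        show j₀ + b - a = j₀ by omega] at h1
      exact h.ne (h1.mono (by omega))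
    · refine ⟨b - 1, by omega, by omega, ?_⟩
      intro h1
      rw [show b - 1 + 1 = b by omega, show j₀ + b - b = j₀ by omega,
        show i₀ + a - b = i₀ + (a - b) by omega] at h1
      exact h.na (a - b) (by omega) (by omega) ((h1.mono (by omega)).trans h.e.symm)
  refine ⟨Nat.find hex, ?_, ?_, ?_, ?_⟩
  · have := (Nat.find_spec hex).1
    omega
  · have := (Nat.find_spec hex).2.1
    omega
  · have h2 := Nat.find_spec hex
    rcases Nat.eq_zero_or_pos (Nat.find hex) with h3 | h3
    · rw [h3]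
      exact h.va.trans h.vb.symm
    · have h4 := Nat.find_min hex (m := Nat.find hex - 1) (by omega)
      rw [show Nat.find hex - 1 + 1 = Nat.find hex by omega] at h4
      by_contra h5
      exact h4 ⟨by omega, by omega, h5⟩
  · intro t h1 h2 h3 h4
    have h5 := Nat.find_spec hex
    apply h5.2.2
    have h6 := h4.shift (m' := m + (Nat.find hex + 1)) (t - (Nat.find hex + 1)) (by omega)
    rwa [show i₀ + a - t + (t - (Nat.find hex + 1)) = i₀ + a - (Nat.find hex + 1) by omega,
      show j₀ + b - t + (t - (Nat.find hex + 1)) = j₀ + b - (Nat.find hex + 1) by omega] at h6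

lemma dist_a (h : Ctx x M m i₀ j₀ a b) {t t' : ℕ} (ht : t < a) (ht' : t' < a)
    (hE : E x (m + 1) (i₀ + t) (i₀ + t')) : t = t' := by
  -- forward to the next visit
  have key : ∀ t t' : ℕ, t < t' → t' < a → E x (m + 1) (i₀ + t') (i₀ + t) → False := by
    intro t t' h1 h2 h3
    have h4 := h.fwd h3 (a - t' - 1) (by
      intro u hu1 hu2 h5
      exact h.na (t' + u) (by omega) (by omega) (by rwa [← add_assoc]))
    have h5 : E x m (i₀ + t' + (a - t')) (i₀ + t + (a - t')) := h4.shift (a - t') (by omega)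
    rw [show i₀ + t' + (a - t') = i₀ + a by omega,
      show i₀ + t + (a - t') = i₀ + (t + a - t') by omega] at h5
    exact h.na (t + a - t') (by omega) (by omega) (h5.symm.trans h.va)
  rcases Nat.lt_trichotomy t t' with h1 | h1 | h1
  · exact (key t t' h1 ht' hE.symm).elim
  · exact h1
  · exact (key t' t h1 ht hE).elim

lemma dist_b (h : Ctx x M m i₀ j₀ a b) {t t' : ℕ} (ht : t < b) (ht' : t' < b)
    (hE : E x (m + 1) (j₀ + t) (j₀ + t')) : t = t' := h.symm.dist_a ht ht' hE

lemma dist_ab (h : Ctx x M m i₀ j₀ a b) {c : ℕ}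
    (hc : ∀ t, c < t → t ≤ a → t ≤ b → ¬ E x (m + t) (i₀ + a - t) (j₀ + b - t)) {t t' : ℕ}
    (ht : t < a) (ht' : t' + c < b) (hE : E x (m + 1) (i₀ + t) (j₀ + t')) : False := by
  rcases Nat.lt_trichotomy (a - t) (b - t') with h1 | h1 | h1
  · have h4 := h.fwd hE (a - t - 1) (by
      intro u hu1 hu2 h5
      exact h.na (t + u) (by omega) (by omega) (by rwa [← add_assoc]))
    have h5 : E x m (i₀ + t + (a - t)) (j₀ + t' + (a - t)) := h4.shift (a - t) (by omega)
    rw [show i₀ + t + (a - t) = i₀ + a by omega,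
      show j₀ + t' + (a - t) = j₀ + (t' + (a - t)) by omega] at h5
    exact h.nb (t' + (a - t)) (by omega) (by omega) (h5.symm.trans h.va)
  · have h4 := h.fwd hE (a - t - 1) (by
      intro u hu1 hu2 h5
      exact h.na (t + u) (by omega) (by omega) (by rwa [← add_assoc]))
    rw [show m + (a - t - 1) + 1 = m + (a - t) by omega] at h4
    apply hc (a - t) (by omega) (by omega) (by omega)
    rwa [show i₀ + a - (a - t) = i₀ + t by omega, show j₀ + b - (a - t) = j₀ + t' by omega]
  · have h4 := h.fwd hE.symm (b - t' - 1) (by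
      intro u hu1 hu2 h5
      exact h.nb (t' + u) (by omega) (by omega) (by rwa [← add_assoc]))
    have h5 : E x m (j₀ + t' + (b - t')) (i₀ + t + (b - t')) := h4.shift (b - t') (by omega)
    rw [show j₀ + t' + (b - t') = j₀ + b by omega,
      show i₀ + t + (b - t') = i₀ + (t + (b - t')) by omega] at h5
    exact h.na (t + (b - t')) (by omega) (by omega) (h5.symm.trans h.vb)

/-- lower bound of the complexity -/
lemma lower (h : Ctx x M m i₀ j₀ a b) (hfin : (Blks x (m + 1)).Finite) {c : ℕ} (hcb : c < b)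
    (hc : ∀ t, c < t → t ≤ a → t ≤ b → ¬ E x (m + t) (i₀ + a - t) (j₀ + b - t)) :
    a + b ≤ P x (m + 1) + c := by
  classical
  set f : ℕ → (Fin (m + 1) → A) := fun t =>
    if t < a then blk x (m + 1) (i₀ + t) else blk x (m + 1) (j₀ + (t - a)) with hf
  have hinj : Set.InjOn f (Finset.range (a + (b - c))) := by
    intro t ht t' ht' htt
    rw [Finset.mem_coe, Finset.mem_range] at ht ht'
    simp only [hf] at htt
    by_cases h1 : t < a
    · by_cases h2 : t' < a
      · rw [if_pos h1, if_pos h2, blk_eq_iff] at htt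
        exact h.dist_a h1 h2 htt
      · rw [if_pos h1, if_neg h2, blk_eq_iff] at htt
        exact (h.dist_ab hc h1 (by omega) htt).elim
    · by_cases h2 : t' < a
      · rw [if_neg h1, if_pos h2, blk_eq_iff] at htt
        exact (h.dist_ab hc h2 (by omega) htt.symm).elim
      · rw [if_neg h1, if_neg h2, blk_eq_iff] at htt
        have := h.dist_b (by omega) (by omega) htt
        omega
  have h1 : (((Finset.range (a + (b - c))).image f : Finset (Fin (m + 1) → A)) :
      Set (Fin (m + 1) → A)) ⊆ Blks x (m + 1) := by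
    intro w hw
    rw [Finset.mem_coe, Finset.mem_image] at hw
    obtain ⟨t, _, rfl⟩ := hw
    simp only [hf]
    split_ifs
    · exact ⟨_, rfl⟩
    · exact ⟨_, rfl⟩
  have h2 := Set.ncard_le_ncard h1 hfin
  rw [Set.ncard_coe_finset, Finset.card_image_of_injOn hinj, Finset.card_range] at h2
  change a + (b - c) ≤ P x (m + 1) at h2
  omega

/-- the common past of the visits -/
lemma back (h : Ctx x M m i₀ j₀ a b) {c : ℕ} (hca : c < a) (hcb : c < b)
    (hc : E x (m + c) (i₀ + a - c) (j₀ + b - c)) {j : ℕ} (hj : i₀ < j) (hv : E x m j i₀) :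
    c ≤ j ∧ E x (m + c) (j - c) (i₀ + a - c) := by
  obtain ⟨i, h1, h2⟩ := h.prevv hj hv
  rcases h2 with ⟨h2, h3⟩ | ⟨h2, h3⟩
  · refine ⟨by omega, ?_⟩
    have h4 := h3.shift (m' := m + c) (a - c) (by omega)
    rwa [show i + (a - c) = j - c by omega, show i₀ + (a - c) = i₀ + a - c by omega] at h4
  · refine ⟨by omega, ?_⟩
    have h4 := h3.shift (m' := m + c) (b - c) (by omega)
    rw [show i + (b - c) = j - c by omega, show j₀ + (b - c) = j₀ + b - c by omega] at h4
    exact h4.trans hc.symm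

lemma run_visit (h : Ctx x M m i₀ j₀ a b) {s : ℕ}
    (H : ∀ r u : ℕ, 1 ≤ r → ¬ E x (2 * r + s) u (u + r)) {c : ℕ} (hca : c < a) (hcb : c < b)
    (hc : E x (m + c) (i₀ + a - c) (j₀ + b - c)) : m + c < 2 * a + s := by
  by_contra hcon
  obtain ⟨j, h1, h2⟩ := h.recur i₀ (i₀ + 1)
  have hmM := h.mM
  have ha := h.a1
  have h3 : E x (m + a) j i₀ := h.fwd_a (h2.symm.mono (by omega))
  obtain ⟨h4, h5⟩ := h.back hca hcb hc (j := j) (by omega) (h3.mono (by omega))
  obtain ⟨_, h6⟩ := h.back hca hcb hc (j := j + a) (by omega) (h.next_a h3)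
  have h7 := h5.trans h6.symm
  rw [show j + a - c = j - c + a by omega] at h7
  exact H a (j - c) ha (h7.mono (by omega))

lemma run_double (h : Ctx x M m i₀ j₀ a b) {s : ℕ}
    (H : ∀ r u : ℕ, 1 ≤ r → ¬ E x (2 * r + s) u (u + r)) {c : ℕ} (hca : c < a) (hcb : c < b)
    (hc : E x (m + c) (i₀ + a - c) (j₀ + b - c)) {j : ℕ} (hj : i₀ < j) (h1 : E x (m + a) j i₀)
    (h2 : E x (m + a) (j + a) i₀) : m + c < a + s := by
  by_contra hcon
  have ha := h.a1
  obtain ⟨h4, h5⟩ := h.back hca hcb hc (j := j) (by omega) (h1.mono (by omega))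
  obtain ⟨_, h6⟩ := h.back hca hcb hc (j := j + a) (by omega) (h.next_a h1)
  have h7 := h5.trans h6.symm
  rw [show j + a - c = j - c + a by omega] at h7
  have h8 := h1.trans h2.symm
  apply H a (j - c) ha
  intro k hk
  rcases Nat.lt_or_ge k c with h9 | h9
  · exact h7 k (by omega)
  · have := h8 (k - c) (by omega)
    rw [show j + (k - c) = j - c + k by omega, show j + a + (k - c) = j - c + a + k by omega]
      at this
    exact this

/-- Two consecutive returns of the same type occur. -/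
lemma double (h : Ctx x M m i₀ j₀ a b) {s : ℕ}
    (H : ∀ r u : ℕ, 1 ≤ r → ¬ E x (2 * r + s) u (u + r)) :
    (∃ j, i₀ + j₀ + a + b < j ∧ E x (m + a) j i₀ ∧ E x (m + a) (j + a) i₀) ∨
    (∃ j, i₀ + j₀ + a + b < j ∧ E x (m + b) j j₀ ∧ E x (m + b) (j + b) j₀) := by
  by_contra hcon
  push Not at hcon
  obtain ⟨c1, c2⟩ := hcon
  have hmM := h.mM
  have ha := h.a1
  have hb := h.b1
  obtain ⟨i, h1, h2⟩ := h.recur i₀ (i₀ + j₀ + a + b + 1)
  have h3 : E x (m + a) i i₀ := h.fwd_a (h2.symm.mono (by omega))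
  have step : ∀ n : ℕ, E x (m + a) (i + n * (a + b)) i₀ ∧
      E x (m + b) (i + n * (a + b) + a) j₀ := by
    intro n
    induction n with
    | zero =>
      rw [Nat.zero_mul, add_zero]
      refine ⟨h3, ?_⟩
      rcases h.typ (h.next_a h3) with h4 | h4
      · exact absurd h4 (c1 i (by omega) h3)
      · exact h4
    | succ n ih =>
      obtain ⟨i1, i2⟩ := ih
      have e1 : i + (n + 1) * (a + b) = i + n * (a + b) + a + b := by ring
      rw [e1]
      have h5 : E x (m + a) (i + n * (a + b) + a + b) i₀ := by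
        rcases h.typ (h.next_b i2) with h4 | h4
        · exact h4
        · exact absurd h4 (c2 _ (by omega) i2)
      refine ⟨h5, ?_⟩
      rcases h.typ (h.next_a h5) with h4 | h4
      · exact absurd h4 (c1 _ (by omega) h5)
      · exact h4
  apply H (a + b) i (by omega)
  intro k _
  obtain ⟨n, t, ht, rfl⟩ : ∃ n t, t < a + b ∧ k = n * (a + b) + t :=
    ⟨k / (a + b), k % (a + b), Nat.mod_lt _ (by omega), by
      rw [mul_comm]
      exact (Nat.div_add_mod k (a + b)).symm⟩
  obtain ⟨s1, s2⟩ := step n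
  obtain ⟨s3, s4⟩ := step (n + 1)
  have e1 : i + (n + 1) * (a + b) = i + n * (a + b) + a + b := by ring
  rw [e1] at s3 s4
  rcases Nat.lt_or_ge t a with h6 | h6
  · have h7 := (s1.trans s3.symm) t (by omega)
    rw [show i + (n * (a + b) + t) = i + n * (a + b) + t by ring,
      show i + (a + b) + (n * (a + b) + t) = i + n * (a + b) + a + b + t by ring]
    exact h7
  · have h7 := (s2.trans s4.symm) (t - a) (by omega)
    rw [show i + (n * (a + b) + t) = i + n * (a + b) + a + (t - a) by omega,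
      show i + (a + b) + (n * (a + b) + t) = i + n * (a + b) + a + b + a + (t - a) by omega]
    exact h7

/-- If one type is never repeated, then there is only one branching block of length `m + 1`. -/
lemma slope_of_not (h : Ctx x M m i₀ j₀ a b) (hfin : (Blks x (m + 2)).Finite)
    (hn : ¬ ∃ j, i₀ + j₀ + a + b < j ∧ E x (m + b) j j₀ ∧ E x (m + b) (j + b) j₀) :
    P x (m + 2) ≤ P x (m + 1) + 1 := by
  have hmM := h.mM
  have ha := h.a1
  have hb := h.b1
  -- a block of type `b` at `z + 1`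
  have hz : ∀ z : ℕ, i₀ + j₀ + a + b + b < z → E x (m + 1) (z + 1) j₀ →
      E x (m + 1) z (i₀ + (a - 1)) := by
    intro z h1 h2
    obtain ⟨i, h3, h4⟩ := h.prevv (j := z + 1) (by omega)
      ((h2.mono (by omega)).trans h.e.symm)
    rcases h4 with ⟨h4, h5⟩ | ⟨h4, h5⟩
    · have h6 := h5.shift (m' := m + 1) (a - 1) (by omega)
      rwa [show i + (a - 1) = z by omega] at h6
    · exfalso
      apply hn
      refine ⟨i, by omega, h5, ?_⟩
      rw [← h4]
      exact h.fwd_b h2
  have claim : ∀ p q : ℕ, E x (m + 1) p q → ¬ E x (m + 2) p q →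
      ∃ z, (E x (m + 2) p z ∨ E x (m + 2) q z) ∧ i₀ + j₀ + a + b + b < z ∧
        E x (m + 1) (z + 1) j₀ := by
    intro p q h1 h2
    obtain ⟨p', hp1, hp2⟩ := h.recur p (i₀ + j₀ + a + b + b + 1)
    obtain ⟨q', hq1, hq2⟩ := h.recur q (i₀ + j₀ + a + b + b + 1)
    have hp3 : E x (m + 2) p p' := hp2.mono hmM
    have hq3 : E x (m + 2) q q' := hq2.mono hmM
    have h3 : E x m (p' + 1) (q' + 1) := by
      have h4 : E x (m + 1) p' q' :=
        ((hp3.mono (by omega)).symm.trans h1).trans (hq3.mono (by omega))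
      exact h4.shift 1 le_rfl
    have h4 : ¬ E x (m + 1) (p' + 1) (q' + 1) := by
      intro h5
      apply h2
      refine (hp3.trans ?_).trans hq3.symm
      have h4 : E x (m + 1) p' q' :=
        ((hp3.mono (by omega)).symm.trans h1).trans (hq3.mono (by omega))
      apply h4.succ
      have := h5 m (by omega)
      rwa [show p' + 1 + m = p' + (m + 1) by ring, show q' + 1 + m = q' + (m + 1) by ring] at this
    rcases h.br _ _ h3 h4 with h5 | h5
    · exact ⟨q', Or.inr hq3, by omega, h5.2⟩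
    · exact ⟨p', Or.inl hp3, by omega, h5.1⟩
  by_cases hex : ∃ p q, E x (m + 1) p q ∧ ¬ E x (m + 2) p q
  · obtain ⟨p, q, h1, h2⟩ := hex
    obtain ⟨z, _, h3, h4⟩ := claim p q h1 h2
    apply card_le_succ z hfin
    intro i j h5 h6 h7
    by_contra h8
    obtain ⟨z', h9, h10, h11⟩ := claim i j h5 h8
    have h12 : E x (m + 2) z' z := by
      have e1 : E x (m + 1) z' z := (hz z' h10 h11).trans (hz z h3 h4).symm
      apply e1.succ
      have := (h11.trans h4.symm) m (by omega)
      rwa [show z' + 1 + m = z' + (m + 1) by ring, show z + 1 + m = z + (m + 1) by ring] at this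
    rcases h9 with h9 | h9
    · exact h6 (h9.trans h12)
    · exact h7 (h9.trans h12)
  · push Not at hex
    have h9 : P x (m + 2) ≤ P x (m + 1) := card_le hfin hex
    omega

/-- the two inequalities -/
lemma ineq (h : Ctx x M m i₀ j₀ a b) (hfin : (Blks x (m + 2)).Finite) {s : ℕ}
    (H : ∀ r u : ℕ, 1 ≤ r → ¬ E x (2 * r + s) u (u + r)) :
    3 * m < 2 * P x (m + 1) + 3 * s ∧
      (P x (m + 1) + 2 ≤ P x (m + 2) → 2 * m + 2 ≤ P x (m + 1) + 2 * s) := by
  obtain ⟨c, hca, hcb, hc1, hc2⟩ := h.common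
  have hc1' : E x (m + c) (j₀ + b - c) (i₀ + a - c) := hc1.symm
  have i1 := h.upper
  have i2 := h.lower (fin_pred hfin) hcb hc2
  have i3 := h.run_visit H hca hcb hc1
  have i4 := h.symm.run_visit H hcb hca hc1'
  have d1 : (∃ j, i₀ + j₀ + a + b < j ∧ E x (m + a) j i₀ ∧ E x (m + a) (j + a) i₀) →
      m + c < a + s := by
    rintro ⟨j, h1, h2, h3⟩
    exact h.run_double H hca hcb hc1 (by omega) h2 h3
  have d2 : (∃ j, i₀ + j₀ + a + b < j ∧ E x (m + b) j j₀ ∧ E x (m + b) (j + b) j₀) →
      m + c < b + s := by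
    rintro ⟨j, h1, h2, h3⟩
    exact h.symm.run_double H hcb hca hc1' (by omega) h2 h3
  constructor
  · rcases h.double H with h1 | h1
    · have := d1 h1
      omega
    · have := d2 h1
      omega
  · intro h2
    have e1 : m + c < b + s := by
      apply d2
      by_contra h3
      have := h.slope_of_not hfin h3
      omega
    have e2 : m + c < a + s := by
      apply d1
      by_contra h3
      have := h.symm.slope_of_not hfin (by
        rintro ⟨j, h4, h5, h6⟩
        exact h3 ⟨j, by omega, h5, h6⟩)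
      omega
    omega

end Ctx

/-- the complexity is strictly increasing -/
lemma strict {x : ℕ → A} {m s : ℕ} (hfin : (Blks x (m + 1)).Finite)
    (H : ∀ r u : ℕ, 1 ≤ r → ¬ E x (2 * r + s) u (u + r)) : P x m + 1 ≤ P x (m + 1) := by
  by_contra hcon
  -- no branching
  have hnb : ∀ i j, E x m i j → E x (m + 1) i j := by
    intro i j hij
    have h1 : Set.InjOn (fun w : Fin (m + 1) → A => (Fin.init w : Fin m → A))
        (Blks x (m + 1)) := by
      apply Set.injOn_of_ncard_image_eq _ hfin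
      rw [← Blks_init]
      apply le_antisymm _ (by unfold P at hcon; omega)
      rw [Blks_init]
      exact Set.ncard_image_le hfin
    have h2 : blk x (m + 1) i = blk x (m + 1) j := by
      apply h1 ⟨i, rfl⟩ ⟨j, rfl⟩
      change Fin.init (blk x (m + 1) i) = Fin.init (blk x (m + 1) j)
      rw [init_blk, init_blk, blk_eq_iff]
      exact hij
    exact blk_eq_iff.1 h2
  -- two equal blocks
  obtain ⟨i, j, hij, hE⟩ : ∃ i j, i < j ∧ E x m i j := by
    have hf := fin_pred hfin
    by_contra hno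
    push Not at hno
    have hinj : Function.Injective (blk x m) := by
      intro i j hij
      rw [blk_eq_iff] at hij
      rcases Nat.lt_trichotomy i j with h1 | h1 | h1
      · exact absurd hij (hno i j h1)
      · exact h1
      · exact absurd hij.symm (hno j i h1)
    exact Set.infinite_range_of_injective hinj hf
  have hall : ∀ k, E x m (i + k) (j + k) := by
    intro k
    induction k with
    | zero => exact hE
    | succ k ih => exact (hnb _ _ ih).shift 1 le_rfl
  apply H (j - i) (i + m) (by omega)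
  intro k _
  have h1 := hnb _ _ (hall k)
  have h2 := h1 m (by omega)
  rwa [show i + m + k = i + k + m by ring, show i + m + (j - i) + k = j + k + m by omega]

/-- existence of the data of `Ctx` -/
lemma exists_ctx {x : ℕ → A} {M m s : ℕ} (hrec : ∀ i N : ℕ, ∃ j, N ≤ j ∧ E x M i j)
    (hM : m + 2 ≤ M) (hfin : (Blks x (m + 2)).Finite)
    (H : ∀ r u : ℕ, 1 ≤ r → ¬ E x (2 * r + s) u (u + r)) (hs : P x (m + 1) ≤ P x m + 1) :
    ∃ i₀ j₀ a b, Ctx x M m i₀ j₀ a b := by
  classical
  have hf1 : (Blks x (m + 1)).Finite := fin_pred hfin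
  have hst := strict hf1 H
  obtain ⟨i₀, j₀, h1, h2⟩ : ∃ i j, E x m i j ∧ ¬ E x (m + 1) i j := by
    by_contra hcon
    push Not at hcon
    have := card_le hf1 hcon
    omega
  have hret : ∀ i : ℕ, E x m i i₀ → ∃ t, 1 ≤ t ∧ E x m (i + t) i₀ := by
    intro i _
    obtain ⟨j, hj1, hj2⟩ := hrec i₀ (i + 1)
    refine ⟨j - i, by omega, ?_⟩
    rw [show i + (j - i) = j by omega]
    exact (hj2.mono (by omega)).symm
  have ra := hret i₀ (E.refl _ _ _)
  have rb := hret j₀ h1.symm
  refine ⟨i₀, j₀, Nat.find ra, Nat.find rb, ?_⟩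
  exact
    { recur := hrec
      mM := hM
      e := h1
      ne := h2
      br := fun i j h3 h4 => branch hf1 hs h1 h2 h3 h4
      a1 := (Nat.find_spec ra).1
      b1 := (Nat.find_spec rb).1
      va := (Nat.find_spec ra).2
      vb := (Nat.find_spec rb).2
      na := fun t h3 h4 h5 => Nat.find_min ra h4 ⟨h3, h5⟩
      nb := fun t h3 h4 h5 => Nat.find_min rb h4 ⟨h3, h5⟩ }

/-- the theorem for words in which the long blocks recur -/
lemma main_rec {x : ℕ → A} {M n s : ℕ} (hrec : ∀ i N : ℕ, ∃ j, N ≤ j ∧ E x M i j)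
    (hM : 2 * n + 4 ≤ M) (hfin : (Blks x M).Finite)
    (H : ∀ r u : ℕ, 1 ≤ r → ¬ E x (2 * r + s) u (u + r)) : 2 * n ≤ P x n + 2 * s := by
  classical
  by_contra hcon
  have hex : ∃ k, P x k + 2 * s < 2 * k := ⟨n, by omega⟩
  obtain ⟨hk1, hk2⟩ : P x (Nat.find hex) + 2 * s < 2 * Nat.find hex ∧
      ∀ k < Nat.find hex, ¬ P x k + 2 * s < 2 * k :=
    ⟨Nat.find_spec hex, fun k hk => Nat.find_min hex hk⟩
  have hkn : Nat.find hex ≤ n := Nat.find_min' hex (by omega)
  obtain ⟨k, hk⟩ : ∃ k, Nat.find hex = k + 1 := ⟨Nat.find hex - 1, by omega⟩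
  rw [hk] at hk1 hk2 hkn
  have hk3 := hk2 k (by omega)
  have hst0 := strict (fin_le hfin (by omega)) H (m := k)
  -- the run of slopes one
  have run : ∀ l, k + l ≤ 2 * n + 1 → P x (k + l + 1) = P x (k + l) + 1 ∧
      P x (k + l + 1) = P x (k + 1) + l := by
    intro l
    induction l with
    | zero => intro _; exact ⟨by rw [add_zero]; omega, by rw [add_zero]; omega⟩
    | succ l ih =>
      intro hl
      obtain ⟨ih1, ih2⟩ := ih (by omega)
      have hf : (Blks x (k + l + 2)).Finite := fin_le hfin (by omega)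
      obtain ⟨i₀, j₀, a, b, hc⟩ := exists_ctx (m := k + l) hrec (by omega) hf H (by omega)
      obtain ⟨_, h2⟩ := hc.ineq hf H
      have hst := strict hf H (m := k + l + 1)
      have e1 : P x (k + l + 1 + 1) = P x (k + l + 2) := rfl
      have e2 : k + (l + 1) = k + l + 1 := rfl
      rw [e2]
      have h3 : ¬ P x (k + l + 1) + 2 ≤ P x (k + l + 2) := by
        intro h4
        have := h2 h4
        omega
      constructor
      · omega
      · omega
  obtain ⟨r1, r2⟩ := run (2 * n - k) (by omega)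
  rw [show k + (2 * n - k) = 2 * n by omega] at r1 r2
  have hf : (Blks x (2 * n + 2)).Finite := fin_le hfin (by omega)
  obtain ⟨i₀, j₀, a, b, hc⟩ := exists_ctx (m := 2 * n) hrec (by omega) hf H (by omega)
  obtain ⟨h1, _⟩ := hc.ineq hf H
  omega

/-- **The combinatorial theorem.** An infinite word with finitely many blocks of each length
which contains no block of period `r` and length `3 r + s`, has complexity at least
`2 n - 2 s`. -/
theorem main {x : ℕ → A} {s : ℕ} (n : ℕ) (hfin : (Blks x (2 * n + 4)).Finite)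
    (H : ∀ r u : ℕ, 1 ≤ r → ¬ E x (2 * r + s) u (u + r)) : 2 * n ≤ P x n + 2 * s := by
  -- pass to a tail in which the blocks recur
  have h1 : ∀ᶠ i in Filter.atTop, ∀ w ∈ Blks x (2 * n + 4), blk x (2 * n + 4) i = w →
      ∃ᶠ j in Filter.atTop, blk x (2 * n + 4) j = w := by
    rw [Filter.eventually_all_finite hfin]
    intro w _
    by_cases hw : ∃ᶠ j in Filter.atTop, blk x (2 * n + 4) j = w
    · exact Filter.Eventually.of_forall fun _ _ => hw
    · rw [Filter.not_frequently] at hw
      exact hw.mono fun i hi hi' => absurd hi' hi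
  obtain ⟨N₀, hN₀⟩ := Filter.eventually_atTop.1 h1
  set y : ℕ → A := fun i => x (i + N₀) with hy
  have hEy : ∀ m i j, E y m i j ↔ E x m (i + N₀) (j + N₀) := by
    intro m i j
    constructor
    · intro h k hk
      have := h k hk
      simp only [hy] at this
      rwa [show i + N₀ + k = i + k + N₀ by ring, show j + N₀ + k = j + k + N₀ by ring]
    · intro h k hk
      have := h k hk
      simp only [hy]
      rwa [show i + N₀ + k = i + k + N₀ by ring, show j + N₀ + k = j + k + N₀ by ring] at this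
  have hsub : ∀ m, Blks y m ⊆ Blks x m := by
    rintro m _ ⟨i, rfl⟩
    refine ⟨i + N₀, ?_⟩
    funext k
    simp only [blk, hy]
    congr 1
    ring
  have hrec : ∀ i N : ℕ, ∃ j, N ≤ j ∧ E y (2 * n + 4) i j := by
    intro i N
    have h2 := hN₀ (i + N₀) (by omega) _ ⟨i + N₀, rfl⟩ rfl
    obtain ⟨j, hj1, hj2⟩ := (Filter.frequently_atTop.1 h2) (N + N₀)
    refine ⟨j - N₀, by omega, ?_⟩
    rw [hEy, show j - N₀ + N₀ = j by omega]
    exact (blk_eq_iff.1 hj2).symm
  have hPle : P y n ≤ P x n := Set.ncard_le_ncard (hsub n) (fin_le hfin (by omega))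
  have h3 := main_rec (x := y) (n := n) (s := s) hrec le_rfl (hfin.subset (hsub _)) (by
    intro r u hr h4
    rw [hEy] at h4
    apply H r (u + N₀) hr
    rwa [show u + N₀ + r = u + r + N₀ by ring])
  omega

end Pool.Agent.Y906.LowComp
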