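import Pool.Agent.Y906.GF3

open Matrix Polynomial H715R2 Filter Topology

namespace Pool.Agent.Y906.GF

open Pool.Agent.Y906

/-- **Return-free boxes on all long paths.** -/
theorem return_free (ε : ℝ) (hε : 0 < ε) : ∃ κ : ℝ, 0 < κ ∧
    ∀ g : Matrix (Fin 3) (Fin 3) ℝ, |g.det| = 1 → HasNu g ε → ¬ PropInt g →
    ∀ δ : ℝ, 0 < δ → δ < 1 → ∃ D : ℝ, ∀ (s t : ℕ → ℝ) (n : ℕ),
      (∀ k, k < n → |s (k + 1) - s k| ≤ 1 ∧ |t (k + 1) - t k| ≤ 1) →
      D ≤ max |s n - s 0| |t n - t 0| →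
      ∃ k ≤ n, ∀ x y x' y' : ℝ, (s k ≤ x ∧ x ≤ s k + κ * Real.log (1 / δ)) →
        (t k ≤ y ∧ y ≤ t k + κ * Real.log (1 / δ)) →
        (s k ≤ x' ∧ x' ≤ s k + κ * Real.log (1 / δ)) →
        (t k ≤ y' ∧ y' ≤ t k + κ * Real.log (1 / δ)) →
        (1 ≤ |x - x'| ∨ 1 ≤ |y - y'|) → ¬ Nr δ (Lt g x y) (Lt g x' y') := by
  obtain ⟨ρ, R₀, hρ, hR₀⟩ := exists_bound_loc (d := 3) (by norm_num) 1 ε one_pos hε
  set R : ℝ := |R₀| with hRdef
  have hR0 : 0 ≤ R := abs_nonneg _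
  have hR : ∀ h : Matrix (Fin 3) (Fin 3) ℝ, |h.det| = 1 → HasNu h ε →
      ∃ γ : Matrix (Fin 3) (Fin 3) ℤ, IsUnit γ.det ∧ ∀ i j, |(h * zR γ) i j| ≤ R := by
    intro h h1 h2
    obtain ⟨γ, hγ, hb⟩ := hR₀ h h1 (fun m hm _ => h2 m hm)
    exact ⟨γ, hγ, fun i j => (hb i j).trans (le_abs_self _)⟩
  set η : ℝ := min (ε / 2) 1 with hη
  have hη0 : 0 < η := lt_min (by linarith) one_pos
  set L0 : ℝ := 2 * (8 + 36 * R / η) + 99 with hL0
  have hRη : 0 ≤ 36 * R / η := by positivity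
  have hL0' : 99 ≤ L0 := by rw [hL0]; linarith
  refine ⟨min (1 / 12) (1 / (2 * L0)), lt_min (by norm_num) (by positivity), ?_⟩
  set κ : ℝ := min (1 / 12) (1 / (2 * L0)) with hκ
  have hκ0 : 0 < κ := lt_min (by norm_num) (by positivity)
  have hκ1 : κ ≤ 1 / 12 := min_le_left _ _
  have hκ2 : κ ≤ 1 / (2 * L0) := min_le_right _ _
  intro g hg hnu hP δ hδ0 hδ1
  set L : ℝ := Real.log (1 / δ) with hL
  have hLpos : 0 < L := Real.log_pos (by rw [lt_div_iff₀ hδ0]; linarith)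
  have hδL : δ = Real.exp (-L) := by
    rw [hL, one_div, Real.log_inv, neg_neg, Real.exp_log hδ0]
  set T : ℝ := κ * L with hTdef
  have hT : 0 ≤ T := by positivity
  -- the case of large `δ`
  by_cases hLL : L < L0
  · refine ⟨0, fun s t n _ _ => ⟨0, Nat.zero_le _, fun x y x' y' hx hy hx' hy' hne => ?_⟩⟩
    exfalso
    have hT1 : T < 1 := by
      have h1 : κ * L ≤ 1 / (2 * L0) * L := mul_le_mul_of_nonneg_right hκ2 hLpos.le
      have h2 : 1 / (2 * L0) * L < 1 := by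
        rw [one_div, inv_mul_lt_iff₀ (by positivity)]
        linarith
      linarith
    rcases hne with hne | hne
    · have : |x - x'| ≤ T := abs_le.2 ⟨by linarith [hx.1, hx'.2], by linarith [hx.2, hx'.1]⟩
      linarith
    · have : |y - y'| ≤ T := abs_le.2 ⟨by linarith [hy.1, hy'.2], by linarith [hy.2, hy'.1]⟩
      linarith
  push Not at hLL
  have hδ100 : δ ≤ 1 / 100 := by
    rw [hδL, Real.exp_neg, one_div]
    refine inv_anti₀ (by norm_num) ?_
    linarith [Real.add_one_le_exp L]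
  have hXη : 36 * δ * Real.exp (6 * T + 8) * R ≤ η := by
    have h1 : δ * Real.exp (6 * T + 8) ≤ Real.exp (-(36 * R / η)) := by
      rw [hδL, ← Real.exp_add]
      apply Real.exp_le_exp.2
      have h2 : T ≤ 1 / 12 * L := mul_le_mul_of_nonneg_right hκ1 hLpos.le
      linarith
    have h2 : Real.exp (-(36 * R / η)) * (36 * R / η) ≤ 1 := by
      have h3 := Real.add_one_le_exp (36 * R / η)
      rw [Real.exp_neg, inv_mul_le_iff₀ (Real.exp_pos _)]
      linarith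
    calc 36 * δ * Real.exp (6 * T + 8) * R = (δ * Real.exp (6 * T + 8)) * (36 * R) := by ring
      _ ≤ Real.exp (-(36 * R / η)) * (36 * R) :=
          mul_le_mul_of_nonneg_right h1 (by positivity)
      _ = (Real.exp (-(36 * R / η)) * (36 * R / η)) * η := by field_simp
      _ ≤ 1 * η := mul_le_mul_of_nonneg_right h2 hη0.le
      _ = η := one_mul _
  have hX0 : 0 ≤ 36 * δ * Real.exp (6 * T + 8) * R := by positivity
  have hX2 : (36 * δ * Real.exp (6 * T + 8) * R) ^ 3 < ε := by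
    have h1 : 36 * δ * Real.exp (6 * T + 8) * R ≤ 1 := hXη.trans (min_le_right _ _)
    have h2 : 36 * δ * Real.exp (6 * T + 8) * R ≤ ε / 2 := hXη.trans (min_le_left _ _)
    have h3 := pow_le_of_le_one hX0 h1 (n := 3) (by norm_num)
    linarith
  by_contra hcon
  push Not at hcon
  choose s t N hstep hfar hret using fun j : ℕ => hcon (j : ℝ)
  refine core hg hε le_rfl hnu hP hT hδ0.le hδ100 hR0 hR hX2 s t N hstep hfar ?_
  intro j k hk
  obtain ⟨x, y, x', y', h1, h2, h3, h4, h5, h6⟩ := hret j k hk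
  exact ⟨x, y, x', y', h1, h2, h3, h4, h5, h6⟩

end Pool.Agent.Y906.GF
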