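import Pool.Agent.Y906.NR5

/-! Near returns of the diagonal orbit of a general matrix of three linear forms. -/

open Matrix Polynomial H715R2 Filter Topology

namespace Pool.Agent.Y906.GF

open Pool.Agent.Y906

/-- the matrix at time `(x, y)` -/
noncomputable def Lt (g : Matrix (Fin 3) (Fin 3) ℝ) (x y : ℝ) : Matrix (Fin 3) (Fin 3) ℝ :=
  diagonal (fun i => Real.exp (wt x y i)) * g

lemma unit_of {g : Matrix (Fin 3) (Fin 3) ℝ} (hg : |g.det| = 1) : IsUnit g.det := by
  rw [isUnit_iff_ne_zero]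
  intro h0
  rw [h0, abs_zero] at hg
  exact zero_ne_one hg

lemma det_Lt {g : Matrix (Fin 3) (Fin 3) ℝ} (hg : |g.det| = 1) (x y : ℝ) : |(Lt g x y).det| = 1 := by
  unfold Lt
  rw [det_mul, det_diagonal, Fin.prod_univ_three, abs_mul, hg, mul_one, ← Real.exp_add,
    ← Real.exp_add]
  simp

/-- **From a near return to an integer matrix.** -/
theorem ret_of_near {g : Matrix (Fin 3) (Fin 3) ℝ} (hg : |g.det| = 1) {δ x y x' y' : ℝ}
    (h0 : 0 ≤ δ) (hδ : δ ≤ 1 / 100)
    (h : Nr δ (Lt g x y) (Lt g x' y')) (hne : 1 ≤ |x - x'| ∨ 1 ≤ |y - y'|) :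
    ∃ (G : Matrix (Fin 3) (Fin 3) ℤ) (u : Matrix (Fin 3) (Fin 3) ℝ), G.det = 1 ∧ 4 ≤ G.trace ∧
      g * zR G = (Matrix.of fun i j => u i j * Real.exp (wt x y j - wt x' y' i)) * g ∧
      (∀ i j, i ≠ j → |u i j| ≤ δ) ∧ ∀ i, 1 / 2 ≤ u i i ∧ u i i ≤ 2 := by
  have hgu := unit_of hg
  have hgg : g * g⁻¹ = 1 := Matrix.mul_nonsing_inv _ hgu
  have hgg' : g⁻¹ * g = 1 := Matrix.nonsing_inv_mul _ hgu
  obtain ⟨u, γ, hγ, hh, hoff, hdiag⟩ := h
  have hγu : IsUnit γ.det := by
    rw [Int.isUnit_iff]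
    rcases (abs_eq (by norm_num)).1 hγ with h | h
    · exact Or.inl h
    · exact Or.inr h
  have hudet : |u.det| = 1 := by
    have h1 := congrArg Matrix.det hh
    rw [det_mul, det_mul, det_zR] at h1
    have h2 := congrArg abs h1
    rw [abs_mul, abs_mul, det_Lt hg, det_Lt hg, mul_one, ← Int.cast_abs, hγ, Int.cast_one,
      mul_one] at h2
    exact h2.symm
  obtain ⟨hu1, hup⟩ := det_near h0 hδ hoff hdiag hudet
  set G : Matrix (Fin 3) (Fin 3) ℤ := γ⁻¹ with hG
  set B : Matrix (Fin 3) (Fin 3) ℝ := Matrix.of fun i j => u i j * Real.exp (wt x y j - wt x' y' i)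
    with hB
  have hBeq : diagonal (fun i => Real.exp (wt x' y' i)) * B
      = u * diagonal (fun i => Real.exp (wt x y i)) := by
    ext i j
    rw [Matrix.diagonal_mul, Matrix.mul_diagonal, hB, Matrix.of_apply, Real.exp_sub]
    have := Real.exp_pos (wt x' y' i)
    field_simp
  have hrel : g * zR G = B * g := by
    have h1 : Lt g x' y' * zR G = u * Lt g x y := by
      rw [hh, Matrix.mul_assoc, hG, zR_inv hγu, Matrix.mul_one]
    have h2 : diagonal (fun i => Real.exp (wt x' y' i)) * (g * zR G)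
        = diagonal (fun i => Real.exp (wt x' y' i)) * (B * g) := by
      rw [← Matrix.mul_assoc, ← Matrix.mul_assoc, hBeq]
      exact h1.trans (by unfold Lt; rw [Matrix.mul_assoc])
    ext i j
    have h3 := congrFun (congrFun h2 i) j
    rw [Matrix.diagonal_mul, Matrix.diagonal_mul] at h3
    exact mul_left_cancel₀ (Real.exp_pos _).ne' h3
  have hBG : B = g * zR G * g⁻¹ := by
    rw [hrel, Matrix.mul_assoc, hgg, Matrix.mul_one]
  have hdetB : B.det = 1 := by
    have h1 := congrArg Matrix.det hBeq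
    rw [det_mul, det_mul, det_diagonal, det_diagonal, hu1, Fin.prod_univ_three, Fin.prod_univ_three,
      ← Real.exp_add, ← Real.exp_add, ← Real.exp_add, ← Real.exp_add] at h1
    simpa using h1
  have hdetG : G.det = 1 := by
    have h1 := congrArg Matrix.det hrel
    rw [det_mul, det_mul, hdetB, det_zR, one_mul] at h1
    have h3 : ((G.det : ℤ) : ℝ) = 1 := by
      have h4 : g.det * ((G.det : ℤ) : ℝ) = g.det * 1 := by rw [h1, mul_one]
      exact mul_left_cancel₀ (isUnit_iff_ne_zero.1 hgu) h4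
    exact_mod_cast h3
  have htr : ((G.trace : ℤ) : ℝ) = B.trace := by
    rw [hBG, Matrix.mul_assoc, Matrix.trace_mul_comm, Matrix.mul_assoc, hgg', Matrix.mul_one]
    simp [Matrix.trace_fin_three, zR]
  have hBtr : B.trace = u 0 0 * Real.exp (-(x + y) + (x' + y')) + u 1 1 * Real.exp (x - x')
      + u 2 2 * Real.exp (y - y') := by
    rw [Matrix.trace_fin_three, hB]
    simp only [Matrix.of_apply, wt0, wt1, wt2]
    congr 3
    ring_nf
  have hpos : ∀ i, 0 < u i i := fun i => by linarith [(hdiag i).1]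
  have e1 := Real.exp_one_gt_d9
  have hcase : ∀ (v : ℝ) (i : Fin 3), 1 ≤ |v| → u i i * Real.exp v ≤ 0.74 ∨
      1.35 ≤ u i i * Real.exp v := by
    intro v i hv
    rcases le_abs.1 hv with h | h
    · right
      have : Real.exp 1 ≤ Real.exp v := Real.exp_le_exp.2 h
      nlinarith [(hdiag i).1, Real.exp_pos v]
    · left
      have h1 : Real.exp v ≤ Real.exp (-1) := Real.exp_le_exp.2 (by linarith)
      have h2 : Real.exp (-1) ≤ 0.37 := by
        rw [Real.exp_neg, inv_le_comm₀ (Real.exp_pos _) (by norm_num)]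
        refine le_trans ?_ e1.le
        norm_num
      have h3 : Real.exp v ≤ 0.37 := h1.trans h2
      nlinarith [(hdiag i).2, hpos i, Real.exp_pos v]
  have hprod : 0.999 ≤ (u 1 1 * Real.exp (x - x')) * (u 0 0 * Real.exp (-(x + y) + (x' + y')))
      * (u 2 2 * Real.exp (y - y')) := by
    have h1 : Real.exp (x - x') * Real.exp (-(x + y) + (x' + y')) * Real.exp (y - y') = 1 := by
      rw [← Real.exp_add, ← Real.exp_add, ← Real.exp_zero]
      congr 1; ring
    calc (0.999 : ℝ) ≤ u 0 0 * u 1 1 * u 2 2 := hup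
      _ = u 0 0 * u 1 1 * u 2 2 *
          (Real.exp (x - x') * Real.exp (-(x + y) + (x' + y')) * Real.exp (y - y')) := by
          rw [h1, mul_one]
      _ = _ := by ring
  have htr3 : 3 < B.trace := by
    rw [hBtr]
    rcases hne with hne | hne
    · have := sum_gt (a := u 1 1 * Real.exp (x - x'))
        (b := u 0 0 * Real.exp (-(x + y) + (x' + y'))) (c := u 2 2 * Real.exp (y - y'))
        (mul_pos (hpos 1) (Real.exp_pos _)) (mul_pos (hpos 0) (Real.exp_pos _))
        (mul_pos (hpos 2) (Real.exp_pos _)) hprod (hcase _ 1 hne)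
      linarith
    · have := sum_gt (a := u 2 2 * Real.exp (y - y'))
        (b := u 0 0 * Real.exp (-(x + y) + (x' + y'))) (c := u 1 1 * Real.exp (x - x'))
        (mul_pos (hpos 2) (Real.exp_pos _)) (mul_pos (hpos 0) (Real.exp_pos _))
        (mul_pos (hpos 1) (Real.exp_pos _)) (hprod.trans (le_of_eq (by ring))) (hcase _ 2 hne)
      linarith
  refine ⟨G, u, hdetG, ?_, hrel, hoff, hdiag⟩
  rw [← htr] at htr3
  have : (3 : ℤ) < G.trace := by exact_mod_cast htr3
  omega

/-- data of a near return inside the box at `(s, t)` -/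
def RD (g : Matrix (Fin 3) (Fin 3) ℝ) (δ T s t : ℝ) (G : Matrix (Fin 3) (Fin 3) ℤ) : Prop :=
  ∃ (u : Matrix (Fin 3) (Fin 3) ℝ) (x y x' y' : ℝ), InB T s t x y ∧ InB T s t x' y' ∧
    g * zR G = (Matrix.of fun i j => u i j * Real.exp (wt x y j - wt x' y' i)) * g ∧
    (∀ i j, i ≠ j → |u i j| ≤ δ) ∧ ∀ i, 1 / 2 ≤ u i i ∧ u i i ≤ 2

/-- in the frame of `(s, t)` the matrix of a near return is nearly diagonal -/
lemma RD.frame {g : Matrix (Fin 3) (Fin 3) ℝ} {δ T s t : ℝ} (hT : 0 ≤ T)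
    {G : Matrix (Fin 3) (Fin 3) ℤ} (h : RD g δ T s t G) :
    ∃ B : Matrix (Fin 3) (Fin 3) ℝ, g * zR G = B * g ∧
      (∀ i j, i ≠ j → |Real.exp (wt s t i - wt s t j) * B i j| ≤ δ * Real.exp (3 * T + 4)) ∧
      ∀ i, |Real.exp (wt s t i - wt s t i) * B i i| ≤ 2 * Real.exp (3 * T + 4) := by
  obtain ⟨u, x, y, x', y', hB1, hB2, hrel, hoff, hdiag⟩ := h
  refine ⟨_, hrel, ?_, ?_⟩
  · intro i j hij
    have h1 := Real.exp_le_exp.2 (wt_bound hT hB1 hB2 i j)
    rw [Matrix.of_apply]
    have h2 : Real.exp (wt s t i - wt s t j) * (u i j * Real.exp (wt x y j - wt x' y' i)) =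
        u i j * Real.exp ((wt s t i - wt s t j) + (wt x y j - wt x' y' i)) := by
      rw [Real.exp_add]; ring
    rw [h2, abs_mul, abs_of_pos (Real.exp_pos _)]
    exact mul_le_mul (hoff i j hij) h1 (Real.exp_pos _).le ((abs_nonneg _).trans (hoff i j hij))
  · intro i
    have h1 := Real.exp_le_exp.2 (wt_bound hT hB1 hB2 i i)
    rw [Matrix.of_apply]
    have h2 : Real.exp (wt s t i - wt s t i) * (u i i * Real.exp (wt x y i - wt x' y' i)) =
        u i i * Real.exp ((wt s t i - wt s t i) + (wt x y i - wt x' y' i)) := by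
      rw [Real.exp_add]; ring
    rw [h2, abs_mul, abs_of_pos (Real.exp_pos _)]
    refine mul_le_mul ?_ h1 (Real.exp_pos _).le (by norm_num)
    rw [abs_le]
    constructor <;> linarith [(hdiag i).1, (hdiag i).2]

/-- **Two near returns in the same box commute.** -/
theorem comm_of_RD {g : Matrix (Fin 3) (Fin 3) ℝ} {δ R ε T s t : ℝ} (hT : 0 ≤ T) (h0 : 0 ≤ δ)
    (hδ : δ ≤ 1) (hR : 0 ≤ R)
    (hred : ∃ σ : Matrix (Fin 3) (Fin 3) ℤ, IsUnit σ.det ∧ ∀ i j, |(Lt g s t * zR σ) i j| ≤ R)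
    (hlow : ∀ m : Fin 3 → ℤ, m ≠ 0 → ε ≤ |FF (Lt g s t) (iR m)|)
    (hX2 : (36 * δ * Real.exp (6 * T + 8) * R) ^ 3 < ε)
    {G G' : Matrix (Fin 3) (Fin 3) ℤ} (h : RD g δ T s t G) (h' : RD g δ T s t G') :
    G * G' = G' * G := by
  obtain ⟨B, hB, hB1, hB2⟩ := h.frame hT
  obtain ⟨B', hB', hB1', hB2'⟩ := h'.frame hT
  obtain ⟨σ, hσ, hσR⟩ := hred
  set E := Real.exp (3 * T + 4) with hE
  have hEE : E * E = Real.exp (6 * T + 8) := by
    rw [hE, ← Real.exp_add]; congr 1; ring
  have hE0 : 0 < E := Real.exp_pos _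
  set X : ℝ := 36 * δ * Real.exp (6 * T + 8) * R with hX
  set W : Matrix (Fin 3) (Fin 3) ℝ := Matrix.of fun i j => Real.exp (wt s t i - wt s t j) * B i j
    with hW
  set W' : Matrix (Fin 3) (Fin 3) ℝ :=
    Matrix.of fun i j => Real.exp (wt s t i - wt s t j) * B' i j with hW'
  have hprod : ∀ (A A' : Matrix (Fin 3) (Fin 3) ℝ) (i j : Fin 3),
      ((Matrix.of fun i j => Real.exp (wt s t i - wt s t j) * A i j) *
        (Matrix.of fun i j => Real.exp (wt s t i - wt s t j) * A' i j) :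
          Matrix (Fin 3) (Fin 3) ℝ) i j = Real.exp (wt s t i - wt s t j) * (A * A') i j := by
    intro A A' i j
    rw [Matrix.mul_apply, Matrix.mul_apply, Finset.mul_sum]
    refine Finset.sum_congr rfl fun l _ => ?_
    rw [Matrix.of_apply, Matrix.of_apply,
      show wt s t i - wt s t j = (wt s t i - wt s t l) + (wt s t l - wt s t j) by ring,
      Real.exp_add]
    ring
  have hcb := comm_bound (W := W) (W' := W') (a := δ * E) (b := 2 * E) (by positivity)
    (by nlinarith) hB1 hB2 hB1' hB2'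
  have hC : ∀ i j, (W * W' - W' * W) i j =
      Real.exp (wt s t i - wt s t j) * (B * B' - B' * B) i j := by
    intro i j
    rw [Matrix.sub_apply, Matrix.sub_apply, hW, hW', hprod, hprod]
    ring
  set Z : Matrix (Fin 3) (Fin 3) ℤ := G * G' - G' * G with hZ
  have hZrel : g * zR Z = (B * B' - B' * B) * g := by
    rw [hZ, zR_sub, zR_mul, zR_mul, Matrix.mul_sub, Matrix.sub_mul, ← Matrix.mul_assoc,
      ← Matrix.mul_assoc, hB, hB', Matrix.mul_assoc, Matrix.mul_assoc, hB, hB']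
    simp only [Matrix.mul_assoc]
  have hM1 : Lt g s t * zR (Z * σ) = (W * W' - W' * W) * (Lt g s t * zR σ) := by
    have e1 : Lt g s t * zR (Z * σ) =
        diagonal (fun i => Real.exp (wt s t i)) * ((B * B' - B' * B) * (g * zR σ)) := by
      unfold Lt
      rw [zR_mul, Matrix.mul_assoc, ← Matrix.mul_assoc g, hZrel]
      simp only [Matrix.mul_assoc]
    have e2 : Lt g s t * zR σ =
        diagonal (fun i => Real.exp (wt s t i)) * (g * zR σ) := by
      unfold Lt; simp only [Matrix.mul_assoc]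
    rw [e1, e2]
    ext i j
    rw [Matrix.diagonal_mul, Matrix.mul_apply, Matrix.mul_apply, Finset.mul_sum]
    refine Finset.sum_congr rfl fun l _ => ?_
    rw [hC, Matrix.diagonal_mul, Real.exp_sub]
    have := Real.exp_pos (wt s t l)
    field_simp
  have hM1b : ∀ i j, |(Lt g s t * zR (Z * σ)) i j| ≤ X := by
    intro i j
    rw [hM1, Matrix.mul_apply]
    refine (Finset.abs_sum_le_sum_abs _ _).trans ?_
    have h1 : ∀ l ∈ (Finset.univ : Finset (Fin 3)),
        |(W * W' - W' * W) i l * (Lt g s t * zR σ) l j| ≤ 6 * (δ * E * (2 * E)) * R := by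
      intro l _
      rw [abs_mul]
      exact mul_le_mul (hcb i l) (hσR l j) (abs_nonneg _) (by positivity)
    refine (Finset.sum_le_sum h1).trans (le_of_eq ?_)
    rw [hX, ← hEE]
    simp
    ring
  have hcol : ∀ j, (fun i => (Z * σ) i j) = (0 : Fin 3 → ℤ) := by
    intro j
    by_contra hne
    have hent : ∀ i, (Lt g s t *ᵥ iR (fun i => (Z * σ) i j)) i
        = (Lt g s t * zR (Z * σ)) i j := by
      intro i
      rw [Matrix.mul_apply]
      rfl
    have h1 := hlow _ hne
    rw [FF_eq, Finset.abs_prod, Fin.prod_univ_three, hent, hent, hent] at h1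
    have hX0 : 0 ≤ X := (abs_nonneg _).trans (hM1b 0 0)
    have h2 : |(Lt g s t * zR (Z * σ)) 0 j| * |(Lt g s t * zR (Z * σ)) 1 j| *
        |(Lt g s t * zR (Z * σ)) 2 j| ≤ X * X * X :=
      mul_le_mul (mul_le_mul (hM1b 0 j) (hM1b 1 j) (abs_nonneg _) hX0) (hM1b 2 j) (abs_nonneg _)
        (by positivity)
    have h3 : X * X * X = X ^ 3 := by ring
    linarith
  have hZσ : Z * σ = 0 := by
    ext i j
    exact congrFun (hcol j) i
  have hZ0 : Z = 0 := by
    have : Z * σ * σ⁻¹ = 0 := by rw [hZσ, Matrix.zero_mul]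
    rwa [Matrix.mul_assoc, Matrix.mul_nonsing_inv _ hσ, Matrix.mul_one] at this
  exact sub_eq_zero.1 hZ0

/-- the eigenvalues of near returns are bounded -/
theorem eig_bound {g : Matrix (Fin 3) (Fin 3) ℝ} (hg : |g.det| = 1) {δ T s t : ℝ} (hT : 0 ≤ T)
    (h0 : 0 ≤ δ) (hδ : δ ≤ 1)
    {G : Matrix (Fin 3) (Fin 3) ℤ} (h : RD g δ T s t G) (μ : ℂ) (v : Fin 3 → ℂ) (hv : v ≠ 0)
    (hG : toC G *ᵥ v = μ • v) : ‖μ‖ ≤ 6 * Real.exp (3 * T + 4) := by
  obtain ⟨B, hB, hB1, hB2⟩ := h.frame hT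
  set E := Real.exp (3 * T + 4) with hE
  have hE0 : 0 < E := Real.exp_pos _
  have hall : ∀ i j, |Real.exp (wt s t i - wt s t j) * B i j| ≤ 2 * E := by
    intro i j
    by_cases hij : i = j
    · subst hij; exact hB2 i
    · exact (hB1 i j hij).trans (by nlinarith)
  set gC : Matrix (Fin 3) (Fin 3) ℂ := g.map (Complex.ofReal) with hgC
  set BC : Matrix (Fin 3) (Fin 3) ℂ := B.map (Complex.ofReal) with hBC
  have hmap : ∀ M N : Matrix (Fin 3) (Fin 3) ℝ,
      (M * N).map Complex.ofReal = M.map Complex.ofReal * N.map Complex.ofReal := fun M N =>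
    Matrix.map_mul (f := Complex.ofRealHom)
  have hrel : gC * toC G = BC * gC := by
    have h1 := congrArg (fun M : Matrix (Fin 3) (Fin 3) ℝ => M.map Complex.ofReal) hB
    simp only [hmap] at h1
    have h2 : (zR G).map Complex.ofReal = toC G := by
      ext i j; simp [zR, toC]
    rw [h2] at h1
    exact h1
  set z : Fin 3 → ℂ := gC *ᵥ v with hz
  have hz0 : z ≠ 0 := by
    intro h0'
    apply hv
    have h1 : (g⁻¹).map Complex.ofReal * gC = 1 := by
      have h3 := congrArg (fun M : Matrix (Fin 3) (Fin 3) ℝ => M.map Complex.ofReal)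
        (Matrix.nonsing_inv_mul _ (unit_of hg))
      simp only [hmap] at h3
      rw [hgC, h3]
      ext i j
      by_cases hij : i = j
      · subst hij; simp
      · simp [Matrix.one_apply_ne hij]
    have h2 : (g⁻¹).map Complex.ofReal *ᵥ z = v := by
      rw [hz, Matrix.mulVec_mulVec, h1, Matrix.one_mulVec]
    rw [← h2, h0', Matrix.mulVec_zero]
  have hBz : BC *ᵥ z = μ • z := by
    rw [hz, Matrix.mulVec_mulVec, ← hrel, ← Matrix.mulVec_mulVec, hG, Matrix.mulVec_smul]
  obtain ⟨i, hi⟩ := Finite.exists_max (fun i => Real.exp (wt s t i) * ‖z i‖)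
  have hpos : 0 < Real.exp (wt s t i) * ‖z i‖ := by
    obtain ⟨j, hj⟩ := Function.ne_iff.1 hz0
    have h1 : 0 < Real.exp (wt s t j) * ‖z j‖ :=
      mul_pos (Real.exp_pos _) (norm_pos_iff.2 hj)
    exact h1.trans_le (hi j)
  have h1 := congrFun hBz i
  simp only [Matrix.mulVec, dotProduct, Pi.smul_apply, smul_eq_mul] at h1
  have h2 : ‖μ‖ * (Real.exp (wt s t i) * ‖z i‖) ≤ 6 * E * (Real.exp (wt s t i) * ‖z i‖) := by
    calc ‖μ‖ * (Real.exp (wt s t i) * ‖z i‖) = Real.exp (wt s t i) * ‖μ * z i‖ := by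
          rw [norm_mul]; ring
      _ = Real.exp (wt s t i) * ‖∑ j, BC i j * z j‖ := by rw [h1]
      _ ≤ Real.exp (wt s t i) * ∑ j, ‖BC i j * z j‖ :=
          mul_le_mul_of_nonneg_left (norm_sum_le _ _) (Real.exp_pos _).le
      _ = ∑ j, |Real.exp (wt s t i - wt s t j) * B i j| * (Real.exp (wt s t j) * ‖z j‖) := by
          rw [Finset.mul_sum]
          refine Finset.sum_congr rfl fun j _ => ?_
          have e1 : ‖BC i j‖ = |B i j| := by
            simp [hBC]
          rw [norm_mul, e1, abs_mul, abs_of_pos (Real.exp_pos _), Real.exp_sub]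
          have := Real.exp_pos (wt s t j)
          field_simp
      _ ≤ ∑ j : Fin 3, 2 * E * (Real.exp (wt s t i) * ‖z i‖) := by
          refine Finset.sum_le_sum fun j _ => ?_
          exact mul_le_mul (hall i j) (hi j) (by positivity) (by positivity)
      _ = _ := by simp; ring
  exact le_of_mul_le_mul_right h2 hpos

end Pool.Agent.Y906.GF
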