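import Pool.Agent.Y906.GF1
import Pool.Agent.H715R2.LimitAlg
import Pool.Agent.H715R2.CountableValues

/-! No fixed matrix is a bounded return at times tending to infinity. -/

open Matrix Polynomial H715R2 Filter Topology

namespace Pool.Agent.Y906.GF

open Pool.Agent.Y906

/-- no algebraic row in the closure of the orbit of a counterexample -/
theorem no_alg {g h : Matrix (Fin 3) (Fin 3) ℝ} (hg : |g.det| = 1) {ν : ℝ} (hν : 0 < ν)
    (hnu : HasNu g ν) (hP : ¬ PropInt g) (hh : h ∈ closure (Orb g)) (i₀ : Fin 3)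
    (s : ℝ) (hs : s ≠ 0) (K : IntermediateField ℚ ℝ)
    [FiniteDimensional ℚ K] (hK : Module.finrank ℚ K ≤ 3) (hmem : ∀ j, s * h i₀ j ∈ K) : False := by
  have hg0 : g.det ≠ 0 := isUnit_iff_ne_zero.1 (unit_of hg)
  rcases limit_alg (le_refl 3) hg0 hh i₀ s hs K hK hmem with ⟨x, hx, hx0⟩ | hint | hdense
  · have h1 := hasNu_closure hnu hh x hx
    have h2 : FF h (iR x) = 0 := by
      rw [FF]
      exact Finset.prod_eq_zero (Finset.mem_univ i₀) hx0
    rw [h2, abs_zero] at h1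
    exact absurd h1 (not_le.2 hν)
  · exact hP hint
  · obtain ⟨x, hx, hx2⟩ := dense_ne (by norm_num) hdense 0 ν hν
    rw [sub_zero] at hx2
    exact absurd (hnu x hx) (not_le.2 hx2)

/-- the conjugate of `G` in the frame of time `(x, y)` is bounded by `E` -/
def FB (E : ℝ) (g : Matrix (Fin 3) (Fin 3) ℝ) (x y : ℝ) (G : Matrix (Fin 3) (Fin 3) ℤ) : Prop :=
  ∀ i j, |Real.exp (wt x y i - wt x y j) * (g * zR G * g⁻¹) i j| ≤ E

lemma RD.fb {g : Matrix (Fin 3) (Fin 3) ℝ} (hg : |g.det| = 1) {δ T s t : ℝ} (hT : 0 ≤ T)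
    (hδ : δ ≤ 1) {G : Matrix (Fin 3) (Fin 3) ℤ} (h : RD g δ T s t G) :
    FB (2 * Real.exp (3 * T + 4)) g s t G := by
  intro i j
  obtain ⟨B', hB', h1, h2⟩ := h.frame hT
  have : B' = g * zR G * g⁻¹ := by
    rw [hB', Matrix.mul_assoc, Matrix.mul_nonsing_inv _ (unit_of hg), Matrix.mul_one]
  rw [← this]
  have hE0 : 0 < Real.exp (3 * T + 4) := Real.exp_pos _
  by_cases hij : i = j
  · subst hij; exact h2 i
  · exact (h1 i j hij).trans (by nlinarith)

/-- conjugates by reduced bases are bounded -/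
lemma FB.conj {E R : ℝ} {g : Matrix (Fin 3) (Fin 3) ℝ} (hg : |g.det| = 1) {x y : ℝ}
    {G : Matrix (Fin 3) (Fin 3) ℤ} (h : FB E g x y G) {σ : Matrix (Fin 3) (Fin 3) ℤ}
    (hσ : IsUnit σ.det) (hR : ∀ i j, |(Lt g x y * zR σ) i j| ≤ R) (hE : 0 ≤ E) :
    (∀ i j, (Lt g x y * zR σ * zR (σ⁻¹ * G * σ)) i j =
      ∑ l, Real.exp (wt x y i - wt x y l) * (g * zR G * g⁻¹) i l * (Lt g x y * zR σ) l j) ∧
    ∀ i j, |(σ⁻¹ * G * σ) i j| ≤ ⌈6 * R ^ 2 * (3 * E * R)⌉ := by
  have hrel : ∀ i j, (Lt g x y * zR σ * zR (σ⁻¹ * G * σ)) i j =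
      ∑ l, Real.exp (wt x y i - wt x y l) * (g * zR G * g⁻¹) i l * (Lt g x y * zR σ) l j := by
    intro i j
    have e1 : σ * (σ⁻¹ * G * σ) = G * σ := by
      rw [← Matrix.mul_assoc, ← Matrix.mul_assoc, Matrix.mul_nonsing_inv _ hσ, Matrix.one_mul]
    have e2 : Lt g x y * zR σ * zR (σ⁻¹ * G * σ) =
        diagonal (fun i => Real.exp (wt x y i)) * ((g * zR G * g⁻¹) * (g * zR σ)) := by
      rw [Matrix.mul_assoc, ← zR_mul, e1, zR_mul]
      unfold Lt
      have e4 : g * zR G * g⁻¹ * (g * zR σ) = g * (zR G * zR σ) := by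
        rw [Matrix.mul_assoc, ← Matrix.mul_assoc g⁻¹, Matrix.nonsing_inv_mul _ (unit_of hg),
          Matrix.one_mul, Matrix.mul_assoc]
      rw [e4, Matrix.mul_assoc]
    rw [e2, Matrix.diagonal_mul, Matrix.mul_apply, Finset.mul_sum]
    refine Finset.sum_congr rfl fun l _ => ?_
    have e3 : (Lt g x y * zR σ) l j = Real.exp (wt x y l) * (g * zR σ) l j := by
      unfold Lt
      rw [Matrix.mul_assoc, Matrix.diagonal_mul]
    rw [e3, Real.exp_sub]
    have := Real.exp_pos (wt x y l)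
    field_simp
  refine ⟨hrel, fun i j => ?_⟩
  have hR0 : 0 ≤ R := (abs_nonneg _).trans (hR 0 0)
  have hdet : |(Lt g x y * zR σ).det| = 1 := by
    rw [det_mul, det_zR, abs_mul, det_Lt hg, one_mul]
    rcases Int.isUnit_iff.1 hσ with h1 | h1 <;> rw [h1] <;> norm_num
  have h1 : ∀ i j, |(Lt g x y * zR σ * zR (σ⁻¹ * G * σ)) i j| ≤ 3 * E * R := by
    intro i j
    rw [hrel]
    refine (Finset.abs_sum_le_sum_abs _ _).trans ?_
    have h2 : ∀ l ∈ (Finset.univ : Finset (Fin 3)),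
        |Real.exp (wt x y i - wt x y l) * (g * zR G * g⁻¹) i l * (Lt g x y * zR σ) l j| ≤
          E * R := by
      intro l _
      rw [abs_mul]
      exact mul_le_mul (h i l) (hR l j) (abs_nonneg _) hE
    refine (Finset.sum_le_sum h2).trans (le_of_eq ?_)
    simp
    ring
  have h2 := conj_bound hR hdet h1 i j
  have h3 : |(zR (σ⁻¹ * G * σ)) i j| = ((|(σ⁻¹ * G * σ) i j| : ℤ) : ℝ) := by
    rw [Int.cast_abs]; rfl
  rw [h3] at h2
  have h4 := h2.trans (Int.le_ceil _)
  exact_mod_cast h4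

/-- a real sequence along an ultrafilter -/
lemma trich (U : Ultrafilter ℕ) (f : ℕ → ℝ) :
    (Tendsto f U atTop ∨ Tendsto f U atBot) ∨ ∃ c, Tendsto f U (𝓝 c) := by
  by_cases h : ∃ C, ∀ᶠ n in (U : Filter ℕ), |f n| ≤ C
  · right
    obtain ⟨C, hC⟩ := h
    have hcpt : IsCompact (Set.Icc (-C) C) := isCompact_Icc
    have h1 : (↑(U.map f) : Filter ℝ) ≤ 𝓟 (Set.Icc (-C) C) := by
      rw [le_principal_iff, Ultrafilter.mem_coe, Ultrafilter.mem_map]
      filter_upwards [hC] with n hn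
      exact ⟨(abs_le.1 hn).1, (abs_le.1 hn).2⟩
    obtain ⟨c, -, hc⟩ := hcpt.ultrafilter_le_nhds (U.map f) h1
    exact ⟨c, hc⟩
  · left
    push Not at h
    have hpos : (∀ᶠ n in (U : Filter ℕ), 0 ≤ f n) ∨ ∀ᶠ n in (U : Filter ℕ), f n ≤ 0 := by
      have := U.em fun n => 0 ≤ f n
      rcases this with h1 | h1
      · exact Or.inl h1
      · exact Or.inr (h1.mono fun n hn => (not_le.1 hn).le)
    rcases hpos with hp | hp
    · left
      refine tendsto_atTop.2 fun C => ?_
      filter_upwards [h C, hp] with n hn hn'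
      rw [abs_of_nonneg hn'] at hn
      exact hn.le
    · right
      refine tendsto_atBot.2 fun C => ?_
      filter_upwards [h (-C), hp] with n hn hn'
      rw [abs_of_nonpos hn'] at hn
      linarith

/-- infinite along the ultrafilter -/
def Big (U : Ultrafilter ℕ) (f : ℕ → ℝ) : Prop := Tendsto f U atTop ∨ Tendsto f U atBot

lemma Big.neg {U : Ultrafilter ℕ} {f : ℕ → ℝ} (h : Big U f) : Big U (fun n => - f n) := by
  rcases h with h | h
  · exact Or.inr (tendsto_neg_atTop_atBot.comp h)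
  · exact Or.inl (tendsto_neg_atBot_atTop.comp h)

lemma Big.add {U : Ultrafilter ℕ} {f k : ℕ → ℝ} (h : Big U f) {c : ℝ}
    (hk : Tendsto k U (𝓝 c)) : Big U (fun n => f n + k n) := by
  rcases h with h | h
  · exact Or.inl (h.atTop_add hk)
  · exact Or.inr (h.atBot_add hk)

/-- an isolated weight -/
lemma isolated (U : Ultrafilter ℕ) (x y : ℕ → ℝ)
    (hxy : Tendsto (fun n => max |x n| |y n|) U atTop) :
    ∃ i : Fin 3, ∀ j, j ≠ i → Big U (fun n => wt (x n) (y n) i - wt (x n) (y n) j) := by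
  have hnot : ¬ ((∃ c, Tendsto (fun n => wt (x n) (y n) 0 - wt (x n) (y n) 1) U (𝓝 c)) ∧
      ∃ c, Tendsto (fun n => wt (x n) (y n) 0 - wt (x n) (y n) 2) U (𝓝 c)) := by
    rintro ⟨⟨c, hc⟩, ⟨c', hc'⟩⟩
    simp only [wt0, wt1, wt2] at hc hc'
    have hx : Tendsto x U (𝓝 ((c' - 2 * c) / 3)) := by
      have h1 := (hc'.sub (hc.const_mul 2)).div_const 3
      refine h1.congr fun n => ?_
      ring
    have hy : Tendsto y U (𝓝 ((c - 2 * c') / 3)) := by
      have h1 := (hc.sub (hc'.const_mul 2)).div_const 3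
      refine h1.congr fun n => ?_
      ring
    have h2 := hx.abs.max hy.abs
    exact not_tendsto_nhds_of_tendsto_atTop hxy _ h2
  have e12 : ∀ n, wt (x n) (y n) 1 - wt (x n) (y n) 2 =
      (wt (x n) (y n) 0 - wt (x n) (y n) 2) + -(wt (x n) (y n) 0 - wt (x n) (y n) 1) := fun n => by
    ring
  rcases trich U (fun n => wt (x n) (y n) 0 - wt (x n) (y n) 1) with h01 | ⟨c, hc⟩
  · rcases trich U (fun n => wt (x n) (y n) 0 - wt (x n) (y n) 2) with h02 | ⟨c', hc'⟩
    · refine ⟨0, fun j hj => ?_⟩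
      fin_cases j
      · exact absurd rfl hj
      · exact h01
      · exact h02
    · refine ⟨1, fun j hj => ?_⟩
      have h10 : Big U (fun n => wt (x n) (y n) 1 - wt (x n) (y n) 0) := by
        have := Big.neg h01
        simpa using this
      fin_cases j
      · exact h10
      · exact absurd rfl hj
      · have h1 := Big.add h10 hc'
        simpa using h1
  · have h02 : Big U (fun n => wt (x n) (y n) 0 - wt (x n) (y n) 2) := by
      rcases trich U (fun n => wt (x n) (y n) 0 - wt (x n) (y n) 2) with h02 | h02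
      · exact h02
      · exact absurd ⟨⟨c, hc⟩, h02⟩ hnot
    have h20 : Big U (fun n => wt (x n) (y n) 2 - wt (x n) (y n) 0) := by
      have := Big.neg h02
      simpa using this
    refine ⟨2, fun j hj => ?_⟩
    fin_cases j
    · exact h20
    · have h1 := Big.add h20 hc
      simpa using h1
    · exact absurd rfl hj

/-- **No repeated bounded return.** -/
theorem no_repeat {g h : Matrix (Fin 3) (Fin 3) ℝ} (hg : |g.det| = 1) {ν E R : ℝ} (hν : 0 < ν)
    (hE : 0 ≤ E) (hnu : HasNu g ν) (hP : ¬ PropInt g) (hh : h ∈ closure (Orb g))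
    (hred : ∀ x y : ℝ, ∃ σ : Matrix (Fin 3) (Fin 3) ℤ, IsUnit σ.det ∧
      ∀ i j, |(Lt h x y * zR σ) i j| ≤ R)
    {G : Matrix (Fin 3) (Fin 3) ℤ} (hdet : G.det = 1) (htr : 4 ≤ G.trace) (x y : ℕ → ℝ)
    (hxy : Tendsto (fun n => max |x n| |y n|) atTop atTop)
    (hFB : ∀ n, FB E h (x n) (y n) G) : False := by
  have hh1 : |h.det| = 1 := by rw [abs_det_closure hh, hg]
  obtain ⟨U, hU⟩ : ∃ U : Ultrafilter ℕ, (U : Filter ℕ) ≤ atTop := ⟨Ultrafilter.of atTop,
    Ultrafilter.of_le _⟩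
  choose σ hσ hσR using fun n => hred (x n) (y n)
  obtain ⟨i, hi⟩ := isolated U x y (hxy.mono_left hU)
  set B : Matrix (Fin 3) (Fin 3) ℝ := h * zR G * h⁻¹ with hB
  have hrel := fun n => (FB.conj hh1 (hFB n) (hσ n) (hσR n) hE).1
  have hbd := fun n => (FB.conj hh1 (hFB n) (hσ n) (hσR n) hE).2
  -- the integer matrices are constant along the ultrafilter
  obtain ⟨H₀, hH₀⟩ : ∃ H₀, ∀ᶠ n in (U : Filter ℕ), (σ n)⁻¹ * G * σ n = H₀ := by
    have hfin := finite_bounded ⌈6 * R ^ 2 * (3 * E * R)⌉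
    have h1 : ∀ᶠ n in (U : Filter ℕ), ∃ H ∈ {M : Matrix (Fin 3) (Fin 3) ℤ |
        ∀ i j, |M i j| ≤ ⌈6 * R ^ 2 * (3 * E * R)⌉}, (σ n)⁻¹ * G * σ n = H :=
      Eventually.of_forall fun n => ⟨_, hbd n, rfl⟩
    obtain ⟨H₀, -, h2⟩ := (Ultrafilter.eventually_exists_mem_iff hfin).1 h1
    exact ⟨H₀, h2⟩
  -- the limit
  obtain ⟨h₀, -, hlim⟩ : ∃ h₀ ∈ {M : Matrix (Fin 3) (Fin 3) ℝ | ∀ i j, |M i j| ≤ R},
      Tendsto (fun n => Lt h (x n) (y n) * zR (σ n)) U (𝓝 h₀) := by
    have h1 : (↑(U.map (fun n => Lt h (x n) (y n) * zR (σ n))) :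
        Filter (Matrix (Fin 3) (Fin 3) ℝ)) ≤
        𝓟 {M : Matrix (Fin 3) (Fin 3) ℝ | ∀ i j, |M i j| ≤ R} := by
      rw [le_principal_iff, Ultrafilter.mem_coe, Ultrafilter.mem_map]
      exact Filter.univ_mem' fun n => hσR n
    exact (isCompact_box (d := 3) R).ultrafilter_le_nhds _ h1
  have hmem : h₀ ∈ closure (Orb g) := by
    refine isClosed_closure.mem_of_tendsto hlim (Eventually.of_forall fun n => ?_)
    refine closure_mul hh (fun i => Real.exp_pos _) ?_ (hσ n)
    rw [Fin.prod_univ_three, ← Real.exp_add, ← Real.exp_add, ← Real.exp_zero]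
    congr 1
    simp
  have hdet0 : |h₀.det| = 1 := by rw [abs_det_closure hmem, hg]
  obtain ⟨n₀, hn₀⟩ := hH₀.exists
  have hH0det : H₀.det = 1 := by
    rw [← hn₀, det_mul, det_mul, hdet, mul_one, ← det_mul, Matrix.nonsing_inv_mul _ (hσ _), det_one]
  have hH0tr : 4 ≤ H₀.trace := by
    rw [← hn₀, Matrix.trace_mul_comm, ← Matrix.mul_assoc, Matrix.mul_nonsing_inv _ (hσ _),
      Matrix.one_mul]
    exact htr
  have hent : ∀ i j, Tendsto (fun n => (Lt h (x n) (y n) * zR (σ n)) i j) U (𝓝 (h₀ i j)) := by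
    intro i j
    exact ((continuous_apply_apply i j).tendsto h₀).comp hlim
  have hexp : ∀ l, l ≠ i → Tendsto (fun n => Real.exp (wt (x n) (y n) i - wt (x n) (y n) l) *
      B i l) U (𝓝 0) := by
    intro l hl
    rcases hi l hl with h1 | h1
    · have hz : B i l = 0 := by
        by_contra hb
        have hb' : 0 < |B i l| := abs_pos.2 hb
        obtain ⟨n, hn⟩ := (h1.eventually_ge_atTop (E / |B i l|)).exists
        have h2 := hFB n i l
        rw [← hB, abs_mul, abs_of_pos (Real.exp_pos _)] at h2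
        rw [div_le_iff₀ hb'] at hn
        have h3 := Real.add_one_le_exp (wt (x n) (y n) i - wt (x n) (y n) l)
        nlinarith
      simp only [hz, mul_zero]
      exact tendsto_const_nhds
    · have h2 := (Real.tendsto_exp_atBot.comp h1).mul_const (B i l)
      rw [zero_mul] at h2
      exact h2
  have hw : (h₀ i) ᵥ* zR H₀ = B i i • (h₀ i) := by
    funext j
    have h1 : Tendsto (fun n => (Lt h (x n) (y n) * zR (σ n) * zR H₀) i j) U
        (𝓝 ((h₀ * zR H₀) i j)) := by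
      simp only [Matrix.mul_apply (M := _) (N := zR H₀)]
      exact tendsto_finsetSum _ fun l _ => (hent i l).mul_const _
    have h2 : Tendsto (fun n => ∑ l, Real.exp (wt (x n) (y n) i - wt (x n) (y n) l) * B i l *
        (Lt h (x n) (y n) * zR (σ n)) l j) U
        (𝓝 (∑ l, (if l = i then B i i else 0) * h₀ l j)) := by
      refine tendsto_finsetSum _ fun l _ => ?_
      by_cases hl : l = i
      · subst hl
        simp only [sub_self, Real.exp_zero, one_mul, if_true]
        exact (hent l j).const_mul _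
      · rw [if_neg hl]
        exact (hexp l hl).mul (hent l j)
    have h3 : Tendsto (fun n => (Lt h (x n) (y n) * zR (σ n) * zR H₀) i j) U
        (𝓝 (∑ l, (if l = i then B i i else 0) * h₀ l j)) := by
      refine h2.congr' ?_
      filter_upwards [hH₀] with n hn
      rw [← hn, hrel n i j]
    have h4 := tendsto_nhds_unique h1 h3
    rw [Pi.smul_apply, smul_eq_mul]
    have h5 : ∑ l, (if l = i then B i i else 0) * h₀ l j = B i i * h₀ i j := by
      rw [Finset.sum_eq_single i]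
      · rw [if_pos rfl]
      · intro l _ hl
        rw [if_neg hl, zero_mul]
      · intro hni
        exact absurd (Finset.mem_univ i) hni
    rw [← h5, ← h4]
    rfl
  have hw0 : h₀ i ≠ 0 := by
    intro h0
    have h1 : h₀.det = 0 := Matrix.det_eq_zero_of_row_eq_zero i fun j => congrFun h0 j
    rw [h1, abs_zero] at hdet0
    exact zero_ne_one hdet0
  obtain ⟨c, K, hc, hfin, hrank, hmem'⟩ := alg_row hH0det hH0tr hw0 hw
  exact no_alg hg hν hnu hP hmem i c hc K hrank hmem'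

end Pool.Agent.Y906.GF
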