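import Pool.Agent.Y906.GF2

/-! Return-free boxes on all long paths, for all products of three linear forms. -/

open Matrix Polynomial H715R2 Filter Topology

namespace Pool.Agent.Y906.GF

open Pool.Agent.Y906

lemma FF_Lt (g : Matrix (Fin 3) (Fin 3) ℝ) (x y : ℝ) (m : Fin 3 → ℝ) :
    FF (Lt g x y) m = FF g m := by
  unfold Lt
  rw [FF_diag_mul, Fin.prod_univ_three, ← Real.exp_add, ← Real.exp_add]
  simp

lemma conj_rel {g : Matrix (Fin 3) (Fin 3) ℝ} (hg : |g.det| = 1) (x y : ℝ)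
    (G : Matrix (Fin 3) (Fin 3) ℤ) {σ : Matrix (Fin 3) (Fin 3) ℤ} (hσ : IsUnit σ.det) :
    Lt g x y * zR σ * zR (σ⁻¹ * G * σ) =
      (Matrix.of fun i l => Real.exp (wt x y i - wt x y l) * (g * zR G * g⁻¹) i l) *
        (Lt g x y * zR σ) := by
  ext i j
  have e1 : σ * (σ⁻¹ * G * σ) = G * σ := by
    rw [← Matrix.mul_assoc, ← Matrix.mul_assoc, Matrix.mul_nonsing_inv _ hσ, Matrix.one_mul]
  have e2 : Lt g x y * zR σ * zR (σ⁻¹ * G * σ) =
      diagonal (fun i => Real.exp (wt x y i)) * ((g * zR G * g⁻¹) * (g * zR σ)) := by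
    rw [Matrix.mul_assoc, ← zR_mul, e1, zR_mul]
    unfold Lt
    have e4 : g * zR G * g⁻¹ * (g * zR σ) = g * (zR G * zR σ) := by
      rw [Matrix.mul_assoc, ← Matrix.mul_assoc g⁻¹, Matrix.nonsing_inv_mul _ (unit_of hg),
        Matrix.one_mul, Matrix.mul_assoc]
    rw [e4, Matrix.mul_assoc]
  rw [e2, Matrix.diagonal_mul, Matrix.mul_apply, Matrix.mul_apply, Finset.mul_sum]
  refine Finset.sum_congr rfl fun l _ => ?_
  have e3 : (Lt g x y * zR σ) l j = Real.exp (wt x y l) * (g * zR σ) l j := by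
    unfold Lt
    rw [Matrix.mul_assoc, Matrix.diagonal_mul]
  rw [e3, Matrix.of_apply, Real.exp_sub]
  have := Real.exp_pos (wt x y l)
  field_simp

lemma det_red {g : Matrix (Fin 3) (Fin 3) ℝ} (hg : |g.det| = 1) (x y : ℝ)
    {σ : Matrix (Fin 3) (Fin 3) ℤ} (hσ : IsUnit σ.det) : |(Lt g x y * zR σ).det| = 1 := by
  rw [det_mul, det_zR, abs_mul, det_Lt hg, one_mul]
  rcases Int.isUnit_iff.1 hσ with h1 | h1 <;> rw [h1] <;> norm_num

lemma wt_add (a b x y : ℝ) (i : Fin 3) : wt (a + x) (b + y) i = wt a b i + wt x y i := by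
  fin_cases i
  · show -(a + x + (b + y)) = -(a + b) + -(x + y)
    ring
  · rfl
  · rfl

/-- changing the base point and the basis -/
lemma FB.shift {E : ℝ} {g : Matrix (Fin 3) (Fin 3) ℝ} (hg : |g.det| = 1) {a b x y : ℝ}
    {G : Matrix (Fin 3) (Fin 3) ℤ} (h : FB E g x y G) {σ : Matrix (Fin 3) (Fin 3) ℤ}
    (hσ : IsUnit σ.det) :
    FB E (Lt g a b * zR σ) (x - a) (y - b) (σ⁻¹ * G * σ) := by
  intro i j
  have h1 : Lt g a b * zR σ * zR (σ⁻¹ * G * σ) * (Lt g a b * zR σ)⁻¹ =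
      Matrix.of fun i l => Real.exp (wt a b i - wt a b l) * (g * zR G * g⁻¹) i l := by
    rw [conj_rel hg a b G hσ, Matrix.mul_assoc,
      Matrix.mul_nonsing_inv _ (unit_of (det_red hg a b hσ)), Matrix.mul_one]
  rw [h1, Matrix.of_apply, ← mul_assoc, ← Real.exp_add]
  have h2 : wt (x - a) (y - b) i - wt (x - a) (y - b) j + (wt a b i - wt a b j) =
      wt x y i - wt x y j := by
    have e1 := wt_add a b (x - a) (y - b) i
    have e2 := wt_add a b (x - a) (y - b) j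
    rw [add_sub_cancel, add_sub_cancel] at e1 e2
    linarith
  rw [h2]
  exact h i j

/-- the eigenvalues are bounded -/
theorem FB.eig {g : Matrix (Fin 3) (Fin 3) ℝ} (hg : |g.det| = 1) {E x y : ℝ} (hE : 0 ≤ E)
    {G : Matrix (Fin 3) (Fin 3) ℤ} (h : FB E g x y G) (μ : ℂ) (v : Fin 3 → ℂ) (hv : v ≠ 0)
    (hG : toC G *ᵥ v = μ • v) : ‖μ‖ ≤ 3 * E := by
  set B : Matrix (Fin 3) (Fin 3) ℝ := g * zR G * g⁻¹ with hB'
  have hB : g * zR G = B * g := by
    rw [hB', Matrix.mul_assoc, Matrix.nonsing_inv_mul _ (unit_of hg), Matrix.mul_one]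
  set gC : Matrix (Fin 3) (Fin 3) ℂ := g.map (Complex.ofReal) with hgC
  set BC : Matrix (Fin 3) (Fin 3) ℂ := B.map (Complex.ofReal) with hBC
  have hmap : ∀ M N : Matrix (Fin 3) (Fin 3) ℝ,
      (M * N).map Complex.ofReal = M.map Complex.ofReal * N.map Complex.ofReal := fun M N =>
    Matrix.map_mul (f := Complex.ofRealHom)
  have hrel : gC * toC G = BC * gC := by
    have h1 := congrArg (fun M : Matrix (Fin 3) (Fin 3) ℝ => M.map Complex.ofReal) hB
    simp only [hmap] at h1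
    have h2 : (zR G).map Complex.ofReal = toC G := by
      ext i j; simp [zR, toC]
    rw [h2] at h1
    exact h1
  set z : Fin 3 → ℂ := gC *ᵥ v with hz
  have hz0 : z ≠ 0 := by
    intro h0'
    apply hv
    have h1 : (g⁻¹).map Complex.ofReal * gC = 1 := by
      have h3 := congrArg (fun M : Matrix (Fin 3) (Fin 3) ℝ => M.map Complex.ofReal)
        (Matrix.nonsing_inv_mul _ (unit_of hg))
      simp only [hmap] at h3
      rw [hgC, h3]
      ext i j
      by_cases hij : i = j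
      · subst hij; simp
      · simp [Matrix.one_apply_ne hij]
    have h2 : (g⁻¹).map Complex.ofReal *ᵥ z = v := by
      rw [hz, Matrix.mulVec_mulVec, h1, Matrix.one_mulVec]
    rw [← h2, h0', Matrix.mulVec_zero]
  have hBz : BC *ᵥ z = μ • z := by
    rw [hz, Matrix.mulVec_mulVec, ← hrel, ← Matrix.mulVec_mulVec, hG, Matrix.mulVec_smul]
  obtain ⟨i, hi⟩ := Finite.exists_max (fun i => Real.exp (wt x y i) * ‖z i‖)
  have hpos : 0 < Real.exp (wt x y i) * ‖z i‖ := by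
    obtain ⟨j, hj⟩ := Function.ne_iff.1 hz0
    have h1 : 0 < Real.exp (wt x y j) * ‖z j‖ :=
      mul_pos (Real.exp_pos _) (norm_pos_iff.2 hj)
    exact h1.trans_le (hi j)
  have h1 := congrFun hBz i
  simp only [Matrix.mulVec, dotProduct, Pi.smul_apply, smul_eq_mul] at h1
  have h2 : ‖μ‖ * (Real.exp (wt x y i) * ‖z i‖) ≤ 3 * E * (Real.exp (wt x y i) * ‖z i‖) := by
    calc ‖μ‖ * (Real.exp (wt x y i) * ‖z i‖) = Real.exp (wt x y i) * ‖μ * z i‖ := by
          rw [norm_mul]; ring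
      _ = Real.exp (wt x y i) * ‖∑ j, BC i j * z j‖ := by rw [h1]
      _ ≤ Real.exp (wt x y i) * ∑ j, ‖BC i j * z j‖ :=
          mul_le_mul_of_nonneg_left (norm_sum_le _ _) (Real.exp_pos _).le
      _ = ∑ j, |Real.exp (wt x y i - wt x y j) * B i j| * (Real.exp (wt x y j) * ‖z j‖) := by
          rw [Finset.mul_sum]
          refine Finset.sum_congr rfl fun j _ => ?_
          have e1 : ‖BC i j‖ = |B i j| := by
            simp [hBC]
          rw [norm_mul, e1, abs_mul, abs_of_pos (Real.exp_pos _), Real.exp_sub]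
          have := Real.exp_pos (wt x y j)
          field_simp
      _ ≤ ∑ j : Fin 3, E * (Real.exp (wt x y i) * ‖z i‖) := by
          refine Finset.sum_le_sum fun j _ => ?_
          exact mul_le_mul (h i j) (hi j) (by positivity) hE
      _ = _ := by simp; ring
  exact le_of_mul_le_mul_right h2 hpos

lemma tendsto_inv {U : Filter ℕ} {h : ℕ → Matrix (Fin 3) (Fin 3) ℝ} {h₀ : Matrix (Fin 3) (Fin 3) ℝ}
    (hlim : Tendsto h U (𝓝 h₀)) (h0 : h₀.det ≠ 0) : Tendsto (fun n => (h n)⁻¹) U (𝓝 h₀⁻¹) := by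
  simp only [Matrix.inv_def, Ring.inverse_eq_inv']
  have h1 : Tendsto (fun n => (h n).det) U (𝓝 h₀.det) :=
    (continuous_det'.tendsto h₀).comp hlim
  have h2 : Tendsto (fun n => (h n).adjugate) U (𝓝 h₀.adjugate) :=
    ((continuous_id.matrix_adjugate).tendsto h₀).comp hlim
  exact (h1.inv₀ h0).smul h2

/-- `FB` is a closed condition -/
lemma FB.closed {U : Filter ℕ} [U.NeBot] {h : ℕ → Matrix (Fin 3) (Fin 3) ℝ}
    {h₀ : Matrix (Fin 3) (Fin 3) ℝ} (hlim : Tendsto h U (𝓝 h₀)) (h0 : h₀.det ≠ 0)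
    {x y : ℕ → ℝ} {x₀ y₀ : ℝ} (hx : Tendsto x U (𝓝 x₀)) (hy : Tendsto y U (𝓝 y₀)) {E : ℝ}
    {G : Matrix (Fin 3) (Fin 3) ℤ} (hFB : ∀ᶠ n in U, FB E (h n) (x n) (y n) G) :
    FB E h₀ x₀ y₀ G := by
  intro i j
  have hw : ∀ i, Tendsto (fun n => wt (x n) (y n) i) U (𝓝 (wt x₀ y₀ i)) := by
    intro i
    fin_cases i
    · exact (hx.add hy).neg
    · exact hx
    · exact hy
  have h1 : Tendsto (fun n => Real.exp (wt (x n) (y n) i - wt (x n) (y n) j)) U
      (𝓝 (Real.exp (wt x₀ y₀ i - wt x₀ y₀ j))) :=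
    (Real.continuous_exp.tendsto _).comp ((hw i).sub (hw j))
  have h2 : Tendsto (fun n => h n * zR G * (h n)⁻¹) U (𝓝 (h₀ * zR G * h₀⁻¹)) :=
    (hlim.mul_const (zR G)).mul (tendsto_inv hlim h0)
  have h3 : Tendsto (fun n => (h n * zR G * (h n)⁻¹) i j) U (𝓝 ((h₀ * zR G * h₀⁻¹) i j)) :=
    ((continuous_apply_apply i j).tendsto _).comp h2
  refine le_of_tendsto (h1.mul h3).abs ?_
  filter_upwards [hFB] with n hn
  exact hn i j

/-- the first exit of a path from a square -/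
lemma exit {f : ℕ → ℝ} {N : ℕ} (h0 : f 0 = 0) (hstep : ∀ k, k < N → f (k + 1) ≤ f k + 1) {r : ℝ}
    (hr : 0 ≤ r) (hN : r ≤ f N) : ∃ k ≤ N, r ≤ f k ∧ f k ≤ r + 1 := by
  induction N with
  | zero => exact ⟨0, le_rfl, hN, by rw [h0]; linarith⟩
  | succ N ih =>
    by_cases h : r ≤ f N
    · obtain ⟨k, hk, h1⟩ := ih (fun k hk => hstep k (by omega)) h
      exact ⟨k, by omega, h1⟩
    · push Not at h
      exact ⟨N + 1, le_rfl, hN, by linarith [hstep N (by omega)]⟩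

/-- **The core of the proof.** -/
theorem core {g : Matrix (Fin 3) (Fin 3) ℝ} (hg : |g.det| = 1) {ν ε δ T R : ℝ} (hν : 0 < ν)
    (hεν : ε ≤ ν) (hnu : HasNu g ν) (hP : ¬ PropInt g) (hT : 0 ≤ T) (h0 : 0 ≤ δ) (hδ : δ ≤ 1 / 100)
    (hR : 0 ≤ R)
    (hred : ∀ h : Matrix (Fin 3) (Fin 3) ℝ, |h.det| = 1 → HasNu h ν →
      ∃ σ : Matrix (Fin 3) (Fin 3) ℤ, IsUnit σ.det ∧ ∀ i j, |(h * zR σ) i j| ≤ R)
    (hX2 : (36 * δ * Real.exp (6 * T + 8) * R) ^ 3 < ε)
    (s t : ℕ → ℕ → ℝ) (N : ℕ → ℕ)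
    (hstep : ∀ j k, k < N j → |s j (k + 1) - s j k| ≤ 1 ∧ |t j (k + 1) - t j k| ≤ 1)
    (hfar : ∀ j : ℕ, (j : ℝ) ≤ max |s j (N j) - s j 0| |t j (N j) - t j 0|)
    (hret : ∀ j k, k ≤ N j → ∃ x y x' y' : ℝ, (s j k ≤ x ∧ x ≤ s j k + T) ∧
      (t j k ≤ y ∧ y ≤ t j k + T) ∧ (s j k ≤ x' ∧ x' ≤ s j k + T) ∧
      (t j k ≤ y' ∧ y' ≤ t j k + T) ∧ (1 ≤ |x - x'| ∨ 1 ≤ |y - y'|) ∧
      Nr δ (Lt g x y) (Lt g x' y')) : False := by
  have hδ1 : δ ≤ 1 := hδ.trans (by norm_num)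
  have hnuL : ∀ x y, HasNu (Lt g x y) ν := fun x y m hm => by
    rw [FF_Lt]; exact hnu m hm
  -- the near returns
  have hpair : ∀ j k, k ≤ N j → ∃ G : Matrix (Fin 3) (Fin 3) ℤ, G.det = 1 ∧ 4 ≤ G.trace ∧
      ∀ s' t', |s j k - s'| ≤ 1 → |t j k - t'| ≤ 1 → RD g δ T s' t' G := by
    intro j k hk
    obtain ⟨x, y, x', y', hx, hy, hx', hy', hne, hnr⟩ := hret j k hk
    obtain ⟨G, u, hdet, htr, hrel, hoff, hdiag⟩ := ret_of_near hg h0 hδ hnr hne
    refine ⟨G, hdet, htr, fun s' t' hs' ht' => ?_⟩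
    rw [abs_le] at hs' ht'
    refine ⟨u, x, y, x', y', ⟨?_, ?_, ?_, ?_⟩, ⟨?_, ?_, ?_, ?_⟩, hrel, hoff, hdiag⟩ <;>
      linarith [hs'.1, hs'.2, ht'.1, ht'.2, hx.1, hx.2, hy.1, hy.2, hx'.1, hx'.2, hy'.1, hy'.2]
  choose! G hGdet hGtr hGRD using hpair
  have hself : ∀ j k, k ≤ N j → RD g δ T (s j k) (t j k) (G j k) := fun j k hk =>
    hGRD j k hk _ _ (by simp) (by simp)
  have hcomm1 : ∀ j k, k < N j → G j k * G j (k + 1) = G j (k + 1) * G j k := by
    intro j k hk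
    refine comm_of_RD hT h0 hδ1 hR (hred _ (det_Lt hg (s j k) (t j k)) (hnuL _ _))
      (fun m hm => hεν.trans (hnuL _ _ m hm)) hX2 (hself j k hk.le) ?_
    have h1 := hstep j k hk
    exact hGRD j (k + 1) hk _ _ h1.1 h1.2
  have hcomm : ∀ j k, k ≤ N j → G j k * G j 0 = G j 0 * G j k := by
    intro j k
    induction k with
    | zero => intro _; rfl
    | succ k ih =>
      intro hk
      exact (comm_of_comm (hGdet j k (by omega)) (hGtr j k (by omega)) (ih (by omega)).symm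
        (hcomm1 j k (by omega)).symm).symm
  set E : ℝ := 2 * Real.exp (3 * T + 4) with hE
  have hE0 : 0 ≤ E := by positivity
  -- reduced bases at the starting points
  choose σ hσ hσR using fun j => hred _ (det_Lt hg (s j 0) (t j 0)) (hnuL (s j 0) (t j 0))
  set h : ℕ → Matrix (Fin 3) (Fin 3) ℝ := fun j => Lt g (s j 0) (t j 0) * zR (σ j) with hh
  set H : ℕ → ℕ → Matrix (Fin 3) (Fin 3) ℤ := fun j k => (σ j)⁻¹ * G j k * σ j with hH
  have hdeth : ∀ j, |(h j).det| = 1 := fun j => det_red hg _ _ (hσ j)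
  have hHFB : ∀ j k, k ≤ N j → FB E (h j) (s j k - s j 0) (t j k - t j 0) (H j k) := by
    intro j k hk
    exact FB.shift hg ((hself j k hk).fb hg hT hδ1) (hσ j)
  have hHdet : ∀ j k, k ≤ N j → (H j k).det = 1 := by
    intro j k hk
    simp only [hH]
    rw [det_mul, det_mul, hGdet j k hk, mul_one, ← det_mul, Matrix.nonsing_inv_mul _ (hσ _),
      det_one]
  have hHtr : ∀ j k, k ≤ N j → 4 ≤ (H j k).trace := by
    intro j k hk
    simp only [hH]
    rw [Matrix.trace_mul_comm, ← Matrix.mul_assoc, Matrix.mul_nonsing_inv _ (hσ _),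
      Matrix.one_mul]
    exact hGtr j k hk
  have hHcomm : ∀ j k, k ≤ N j → H j k * H j 0 = H j 0 * H j k := by
    intro j k hk
    simp only [hH]
    have e : ∀ A B : Matrix (Fin 3) (Fin 3) ℤ, (σ j)⁻¹ * A * σ j * ((σ j)⁻¹ * B * σ j) =
        (σ j)⁻¹ * (A * B) * σ j := by
      intro A B
      rw [Matrix.mul_assoc ((σ j)⁻¹ * A), ← Matrix.mul_assoc (σ j), ← Matrix.mul_assoc (σ j),
        Matrix.mul_nonsing_inv _ (hσ j), Matrix.one_mul]
      simp only [Matrix.mul_assoc]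
    rw [e, e, hcomm j k hk]
  obtain ⟨U, hU⟩ : ∃ U : Ultrafilter ℕ, (U : Filter ℕ) ≤ atTop := ⟨Ultrafilter.of atTop,
    Ultrafilter.of_le _⟩
  obtain ⟨H₁, hH₁⟩ : ∃ H₁, ∀ᶠ j in (U : Filter ℕ), H j 0 = H₁ := by
    have hfin := finite_bounded ⌈6 * R ^ 2 * (3 * E * R)⌉
    have h1 : ∀ᶠ j in (U : Filter ℕ), ∃ H' ∈ {M : Matrix (Fin 3) (Fin 3) ℤ |
        ∀ i j, |M i j| ≤ ⌈6 * R ^ 2 * (3 * E * R)⌉}, H j 0 = H' := by
      refine Eventually.of_forall fun j => ⟨_, ?_, rfl⟩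
      exact (FB.conj hg ((hself j 0 (Nat.zero_le _)).fb hg hT hδ1) (hσ j) (hσR j) hE0).2
    obtain ⟨H₀, -, h2⟩ := (Ultrafilter.eventually_exists_mem_iff hfin).1 h1
    exact ⟨H₀, h2⟩
  obtain ⟨j₀, hj₀⟩ := hH₁.exists
  obtain ⟨b, hb⟩ := bound_comm H₁ (by rw [← hj₀]; exact hHdet _ _ (Nat.zero_le _))
    (by rw [← hj₀]; exact hHtr _ _ (Nat.zero_le _)) (3 * E)
  have hHb : ∀ᶠ j in (U : Filter ℕ), ∀ k ≤ N j, ∀ i l, |H j k i l| ≤ b := by
    filter_upwards [hH₁] with j hj k hk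
    refine hb (H j k) ?_ (fun μ v hv hv' => FB.eig (hdeth j) hE0 (hHFB j k hk) μ v hv hv')
    rw [← hj]
    exact hHcomm j k hk
  -- the limit of the starting points
  obtain ⟨h₀, -, hlim⟩ : ∃ h₀ ∈ {M : Matrix (Fin 3) (Fin 3) ℝ | ∀ i j, |M i j| ≤ R},
      Tendsto h U (𝓝 h₀) := by
    have h1 : (↑(U.map h) : Filter (Matrix (Fin 3) (Fin 3) ℝ)) ≤
        𝓟 {M : Matrix (Fin 3) (Fin 3) ℝ | ∀ i j, |M i j| ≤ R} := by
      rw [le_principal_iff, Ultrafilter.mem_coe, Ultrafilter.mem_map]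
      exact Filter.univ_mem' fun n => hσR n
    exact (isCompact_box (d := 3) R).ultrafilter_le_nhds _ h1
  have hmem : h₀ ∈ closure (Orb g) := by
    refine isClosed_closure.mem_of_tendsto hlim (Eventually.of_forall fun n => ?_)
    refine closure_mul (subset_closure (mem_orb_self g)) (fun i => Real.exp_pos _) ?_ (hσ n)
    rw [Fin.prod_univ_three, ← Real.exp_add, ← Real.exp_add, ← Real.exp_zero]
    congr 1
    simp
  have hdet₀ : |h₀.det| = 1 := by rw [abs_det_closure hmem, hg]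
  have hdet₀' : h₀.det ≠ 0 := isUnit_iff_ne_zero.1 (unit_of hdet₀)
  have hnu₀ := hasNu_closure hnu hmem
  -- for each radius a return of the limit
  have hrad : ∀ r : ℕ, ∃ (x y : ℝ) (H' : Matrix (Fin 3) (Fin 3) ℤ), (r : ℝ) ≤ max |x| |y| ∧
      (∀ i l, |H' i l| ≤ b) ∧ H'.det = 1 ∧ 4 ≤ H'.trace ∧ FB E h₀ x y H' := by
    intro r
    have hex : ∀ᶠ j in (U : Filter ℕ), ∃ k ≤ N j,
        (r : ℝ) ≤ max |s j k - s j 0| |t j k - t j 0| ∧
        max |s j k - s j 0| |t j k - t j 0| ≤ r + 1 := by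
      have h1 : ∀ᶠ j in (U : Filter ℕ), r ≤ j := hU (eventually_ge_atTop r)
      filter_upwards [h1] with j hj
      refine exit (f := fun k => max |s j k - s j 0| |t j k - t j 0|) (N := N j) ?_ ?_
        (Nat.cast_nonneg r) ?_
      · simp
      · intro k hk
        obtain ⟨h2, h3⟩ := hstep j k hk
        have e1 : |s j (k + 1) - s j 0| ≤ |s j k - s j 0| + 1 := by
          have := abs_sub_le (s j (k + 1)) (s j k) (s j 0)
          linarith
        have e2 : |t j (k + 1) - t j 0| ≤ |t j k - t j 0| + 1 := by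
          have := abs_sub_le (t j (k + 1)) (t j k) (t j 0)
          linarith
        refine max_le (e1.trans ?_) (e2.trans ?_)
        · linarith [le_max_left |s j k - s j 0| |t j k - t j 0|]
        · linarith [le_max_right |s j k - s j 0| |t j k - t j 0|]
      · have h2 : (r : ℝ) ≤ j := by exact_mod_cast hj
        exact h2.trans (hfar j)
    have hex' : ∀ᶠ j in (U : Filter ℕ), ∃ (x y : ℝ) (H' : Matrix (Fin 3) (Fin 3) ℤ),
        (r : ℝ) ≤ max |x| |y| ∧ max |x| |y| ≤ r + 1 ∧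
        (∀ i l, |H' i l| ≤ b) ∧ H'.det = 1 ∧ 4 ≤ H'.trace ∧ FB E (h j) x y H' := by
      filter_upwards [hex, hHb] with j hj1 hj2
      obtain ⟨k, hk, h1, h2⟩ := hj1
      exact ⟨_, _, H j k, h1, h2, hj2 k hk, hHdet j k hk, hHtr j k hk, hHFB j k hk⟩
    obtain ⟨x, hx⟩ := hex'.choice
    obtain ⟨y, hy⟩ := hx.choice
    obtain ⟨H', hH'⟩ := hy.choice
    obtain ⟨H'', hH''⟩ : ∃ H'', ∀ᶠ j in (U : Filter ℕ), H' j = H'' := by
      have h1 : ∀ᶠ j in (U : Filter ℕ), ∃ M ∈ {M : Matrix (Fin 3) (Fin 3) ℤ |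
          ∀ i j, |M i j| ≤ b}, H' j = M := by
        filter_upwards [hH'] with j hj
        exact ⟨_, hj.2.2.1, rfl⟩
      obtain ⟨H₀, -, h2⟩ := (Ultrafilter.eventually_exists_mem_iff (finite_bounded b)).1 h1
      exact ⟨H₀, h2⟩
    have hcpt : IsCompact (Set.Icc (-((r : ℝ) + 1)) ((r : ℝ) + 1)) := isCompact_Icc
    obtain ⟨x₀, -, hx₀⟩ : ∃ x₀ ∈ Set.Icc (-((r : ℝ) + 1)) ((r : ℝ) + 1),
        Tendsto x U (𝓝 x₀) := by
      refine hcpt.ultrafilter_le_nhds (U.map x) ?_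
      rw [le_principal_iff, Ultrafilter.mem_coe, Ultrafilter.mem_map]
      filter_upwards [hH'] with j hj
      exact abs_le.1 ((le_max_left _ _).trans hj.2.1)
    obtain ⟨y₀, -, hy₀⟩ : ∃ y₀ ∈ Set.Icc (-((r : ℝ) + 1)) ((r : ℝ) + 1),
        Tendsto y U (𝓝 y₀) := by
      refine hcpt.ultrafilter_le_nhds (U.map y) ?_
      rw [le_principal_iff, Ultrafilter.mem_coe, Ultrafilter.mem_map]
      filter_upwards [hH'] with j hj
      exact abs_le.1 ((le_max_right _ _).trans hj.2.1)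
    obtain ⟨j₁, hj₁, hj₂⟩ := (hH'.and hH'').exists
    rw [hj₂] at hj₁
    refine ⟨x₀, y₀, H'', ?_, hj₁.2.2.1, hj₁.2.2.2.1, hj₁.2.2.2.2.1, ?_⟩
    · refine ge_of_tendsto (hx₀.abs.max hy₀.abs) ?_
      filter_upwards [hH'] with j hj
      exact hj.1
    · refine FB.closed hlim hdet₀' hx₀ hy₀ ?_
      filter_upwards [hH', hH''] with j hj hj'
      rw [← hj']
      exact hj.2.2.2.2.2
  choose x y H' hr hHb' hHdet' hHtr' hFB using hrad
  obtain ⟨G₀, hfreq⟩ : ∃ G₀, ∃ᶠ n in atTop, H' n = G₀ := by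
    by_contra hcon'
    push Not at hcon'
    have h2 := (Filter.eventually_all_finite (finite_bounded b)).2
      (fun (M : Matrix (Fin 3) (Fin 3) ℤ) _ => hcon' M)
    obtain ⟨n, hn⟩ := h2.exists
    exact hn (H' n) (hHb' n) rfl
  obtain ⟨φ, hφ, hφG⟩ := extraction_of_frequently_atTop hfreq
  refine no_repeat hg hν hE0 hnu hP hmem (fun x y => hred _ (det_Lt hdet₀ x y) (fun m hm => by
    rw [FF_Lt]; exact hnu₀ m hm)) (G := G₀) (by rw [← hφG 0]; exact hHdet' _)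
    (by rw [← hφG 0]; exact hHtr' _) (fun n => x (φ n)) (fun n => y (φ n)) ?_
    (fun n => by rw [← hφG n]; exact hFB _)
  refine tendsto_atTop_mono (fun n => hr (φ n)) ?_
  exact tendsto_natCast_atTop_atTop.comp hφ.tendsto_atTop

end Pool.Agent.Y906.GF
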