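import Mathlib

/-! Regular elements of `SL_3(ℤ)`: no double eigenvalue when the trace is at least `4`, and the
centralizer of such an element. -/

open Matrix Polynomial

namespace Pool.Agent.Y906

/-- a double root of `x^3 - a x^2 + b x - 1` forces `a ≤ 3` -/
theorem no_double {a b : ℤ} (ha : 4 ≤ a) {r : ℂ} (h1 : r ^ 3 - a * r ^ 2 + b * r - 1 = 0)
    (h2 : 3 * r ^ 2 - 2 * a * r + b = 0) : False := by
  have h3 : ((6 * b - 2 * a ^ 2 : ℤ) : ℂ) * r + ((a * b - 9 : ℤ) : ℂ) = 0 := by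
    push_cast
    linear_combination 9 * h1 - (3 * r - a) * h2
  by_cases h0 : 6 * b - 2 * a ^ 2 = 0
  · rw [h0] at h3
    have h4 : a * b - 9 = 0 := by
      have : ((a * b - 9 : ℤ) : ℂ) = 0 := by simpa using h3
      exact_mod_cast this
    have h5 : a ^ 3 = 27 := by nlinarith
    have h6 : (64 : ℤ) ≤ a ^ 3 := by
      have : (4 : ℤ) ^ 3 ≤ a ^ 3 := pow_le_pow_left₀ (by norm_num) ha 3
      linarith
    omega
  · set x : ℚ := ((9 - a * b : ℤ) : ℚ) / ((6 * b - 2 * a ^ 2 : ℤ) : ℚ) with hx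
    have h0' : ((6 * b - 2 * a ^ 2 : ℤ) : ℂ) ≠ 0 := by exact_mod_cast h0
    have hr : r = (x : ℂ) := by
      rw [hx]
      push_cast at h0' h3 ⊢
      rw [eq_div_iff h0']
      linear_combination h3
    rw [hr] at h1 h2
    have h1' : x ^ 3 - a * x ^ 2 + b * x - 1 = 0 := by exact_mod_cast h1
    have h2' : 3 * x ^ 2 - 2 * a * x + b = 0 := by exact_mod_cast h2
    have hint : IsIntegral ℤ x := by
      refine ⟨X ^ 3 - C a * X ^ 2 + C b * X - 1, ?_, ?_⟩
      · monicity!
      · simp only [eval₂_sub, eval₂_add, eval₂_mul, eval₂_pow, eval₂_X, eval₂_C, eval₂_one]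
        simpa using h1'
    obtain ⟨n, hn⟩ := IsIntegrallyClosed.isIntegral_iff.1 hint
    have hn' : (n : ℚ) = x := hn
    rw [← hn'] at h1' h2'
    have e1 : n ^ 3 - a * n ^ 2 + b * n - 1 = 0 := by exact_mod_cast h1'
    have e2 : 3 * n ^ 2 - 2 * a * n + b = 0 := by exact_mod_cast h2'
    have hdvd : n ∣ 1 := ⟨n ^ 2 - a * n + b, by linarith [e1]⟩
    rcases Int.isUnit_iff.1 (isUnit_of_dvd_one hdvd) with h | h
    · subst h; omega
    · subst h; omega

/-- the entries as complex numbers -/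
def toC (γ : Matrix (Fin 3) (Fin 3) ℤ) : Matrix (Fin 3) (Fin 3) ℂ := γ.map (Int.cast : ℤ → ℂ)

lemma toC_mul (γ δ : Matrix (Fin 3) (Fin 3) ℤ) : toC (γ * δ) = toC γ * toC δ := by
  unfold toC
  exact Matrix.map_mul (f := Int.castRingHom ℂ)

lemma toC_inj {γ δ : Matrix (Fin 3) (Fin 3) ℤ} (h : toC γ = toC δ) : γ = δ := by
  ext i j
  have := congrFun (congrFun h i) j
  simpa [toC] using this

theorem exists_roots {a b : ℤ} (ha : 4 ≤ a) : ∃ lam : Fin 3 → ℂ, Function.Injective lam ∧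
    ∀ i, lam i ^ 3 - a * lam i ^ 2 + b * lam i - 1 = 0 := by
  obtain ⟨x, hx⟩ : ∃ x : ℂ, x ^ 3 - a * x ^ 2 + b * x - 1 = 0 := by
    have hdeg : (X ^ 3 - C (a : ℂ) * X ^ 2 + C (b : ℂ) * X - 1 : ℂ[X]).degree ≠ 0 := by
      have : (X ^ 3 - C (a : ℂ) * X ^ 2 + C (b : ℂ) * X - 1 : ℂ[X]).degree = 3 := by
        compute_degree!
      rw [this]; norm_num
    obtain ⟨x, hx⟩ := IsAlgClosed.exists_root _ hdeg
    refine ⟨x, ?_⟩
    simpa [IsRoot] using hx
  obtain ⟨s, hs⟩ : ∃ s : ℂ, s ^ 2 = (a - x) ^ 2 - 4 * (x ^ 2 - a * x + b) :=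
    IsAlgClosed.exists_pow_nat_eq _ (by norm_num)
  set y : ℂ := (a - x + s) / 2 with hy
  set z : ℂ := (a - x - s) / 2 with hz
  have hyz1 : y + z = a - x := by rw [hy, hz]; ring
  have hyz2 : y * z = x ^ 2 - a * x + b := by
    rw [hy, hz]; linear_combination (-1 / 4) * hs
  have hroot : ∀ w : ℂ, w ^ 3 - a * w ^ 2 + b * w - 1 = (w - x) * (w - y) * (w - z) := by
    intro w
    linear_combination hx + (w ^ 2 - w * x) * hyz1 - (w - x) * hyz2
  have hder : ∀ w : ℂ, 3 * w ^ 2 - 2 * a * w + b =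
      (w - y) * (w - z) + (w - x) * (w - z) + (w - x) * (w - y) := by
    intro w
    linear_combination (2 * w - x) * hyz1 - hyz2
  have hxy : x ≠ y := by
    intro h
    refine no_double ha (r := x) hx ?_
    rw [hder, h]; ring
  have hxz : x ≠ z := by
    intro h
    refine no_double ha (r := x) hx ?_
    rw [hder, h]; ring
  have hyz : y ≠ z := by
    intro h
    refine no_double ha (r := y) (by rw [hroot]; ring) ?_
    rw [hder, h]; ring
  refine ⟨![x, y, z], ?_, ?_⟩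
  · intro i j hij
    fin_cases i <;> fin_cases j <;> simp_all
  · intro i
    rw [hroot]
    fin_cases i <;> simp

/-- **Diagonalization** of integer matrices of determinant one and trace at least `4`. -/
theorem exists_diag (γ : Matrix (Fin 3) (Fin 3) ℤ) (hdet : γ.det = 1) (htr : 4 ≤ γ.trace) :
    ∃ P Q : Matrix (Fin 3) (Fin 3) ℂ, P * Q = 1 ∧ Q * P = 1 ∧
      ∀ M : Matrix (Fin 3) (Fin 3) ℂ, M * toC γ = toC γ * M → ∃ d : Fin 3 → ℂ,
        Q * M * P = diagonal d := by
  set b : ℤ := γ 0 0 * γ 1 1 - γ 0 1 * γ 1 0 + (γ 0 0 * γ 2 2 - γ 0 2 * γ 2 0)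
    + (γ 1 1 * γ 2 2 - γ 1 2 * γ 2 1) with hb
  obtain ⟨lam, hinj, hlam⟩ := exists_roots (a := γ.trace) (b := b) htr
  have hdetC : ((γ.det : ℤ) : ℂ) = 1 := by rw [hdet]; norm_num
  have hz : ∀ i, (toC γ - lam i • (1 : Matrix (Fin 3) (Fin 3) ℂ)).det = 0 := by
    intro i
    have h1 := hlam i
    rw [Matrix.trace_fin_three, hb] at h1
    rw [Matrix.det_fin_three] at hdetC
    push_cast at h1 hdetC
    rw [Matrix.det_fin_three]
    simp [toC]
    linear_combination (-1 : ℂ) * h1 + hdetC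
  have hev : ∀ i, ∃ v : Fin 3 → ℂ, v ≠ 0 ∧ toC γ *ᵥ v = lam i • v := by
    intro i
    obtain ⟨v, hv, hv'⟩ := Matrix.exists_mulVec_eq_zero_iff.2 (hz i)
    refine ⟨v, hv, ?_⟩
    rw [Matrix.sub_mulVec, Matrix.smul_mulVec, Matrix.one_mulVec, sub_eq_zero] at hv'
    exact hv'
  choose v hv0 hv using hev
  have hli : LinearIndependent ℂ v := by
    refine Module.End.eigenvectors_linearIndependent' (Matrix.toLin' (toC γ)) lam hinj v ?_
    intro i
    refine ⟨?_, hv0 i⟩
    rw [Module.End.mem_eigenspace_iff, Matrix.toLin'_apply]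
    exact hv i
  have hu : IsUnit (Matrix.of v) := Matrix.linearIndependent_rows_iff_isUnit.1 hli
  set P : Matrix (Fin 3) (Fin 3) ℂ := (Matrix.of v)ᵀ with hP
  have hPu : IsUnit P.det := by
    rw [hP, Matrix.det_transpose]
    exact (Matrix.isUnit_iff_isUnit_det _).1 hu
  have hAP : toC γ * P = P * diagonal lam := by
    ext i j
    rw [Matrix.mul_diagonal]
    have := congrFun (hv j) i
    simp only [Matrix.mulVec, dotProduct, Pi.smul_apply, smul_eq_mul] at this
    rw [Matrix.mul_apply, hP]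
    simp only [Matrix.transpose_apply, Matrix.of_apply]
    rw [this]; ring
  refine ⟨P, P⁻¹, Matrix.mul_nonsing_inv _ hPu, Matrix.nonsing_inv_mul _ hPu, ?_⟩
  intro M hM
  set Y := P⁻¹ * M * P with hY
  have hcomm : Y * diagonal lam = diagonal lam * Y := by
    have h1 : P⁻¹ * (toC γ * P) = diagonal lam := by
      rw [hAP, ← Matrix.mul_assoc, Matrix.nonsing_inv_mul _ hPu, Matrix.one_mul]
    calc Y * diagonal lam = P⁻¹ * M * (P * diagonal lam) := by
          rw [hY]; simp only [Matrix.mul_assoc]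
      _ = P⁻¹ * M * (toC γ * P) := by rw [hAP]
      _ = P⁻¹ * (M * toC γ) * P := by simp only [Matrix.mul_assoc]
      _ = P⁻¹ * (toC γ * M) * P := by rw [hM]
      _ = P⁻¹ * toC γ * (P * P⁻¹) * M * P := by
          rw [Matrix.mul_nonsing_inv _ hPu, Matrix.mul_one]; simp only [Matrix.mul_assoc]
      _ = P⁻¹ * (toC γ * P) * (P⁻¹ * M * P) := by simp only [Matrix.mul_assoc]
      _ = diagonal lam * Y := by rw [h1]
  refine ⟨fun i => Y i i, ?_⟩
  ext i j
  by_cases hij : i = j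
  · subst hij; rw [Matrix.diagonal_apply_eq]
  · rw [Matrix.diagonal_apply_ne _ hij]
    have h2 := congrFun (congrFun hcomm i) j
    rw [Matrix.mul_diagonal, Matrix.diagonal_mul] at h2
    have h3 : Y i j * (lam j - lam i) = 0 := by linear_combination h2
    rcases mul_eq_zero.1 h3 with h4 | h4
    · exact h4
    · exact absurd (hinj (sub_eq_zero.1 h4)).symm hij

/-- the centralizer of a regular element is commutative -/
theorem comm_of_comm {γ M N : Matrix (Fin 3) (Fin 3) ℤ} (hdet : γ.det = 1) (htr : 4 ≤ γ.trace)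
    (hM : M * γ = γ * M) (hN : N * γ = γ * N) : M * N = N * M := by
  obtain ⟨P, Q, hPQ, hQP, H⟩ := exists_diag γ hdet htr
  obtain ⟨d, hd⟩ := H (toC M) (by rw [← toC_mul, ← toC_mul, hM])
  obtain ⟨e, he⟩ := H (toC N) (by rw [← toC_mul, ← toC_mul, hN])
  have hM' : toC M = P * diagonal d * Q := by
    rw [← hd]
    calc toC M = (P * Q) * toC M * (P * Q) := by rw [hPQ, Matrix.one_mul, Matrix.mul_one]
      _ = _ := by simp only [Matrix.mul_assoc]
  have hN' : toC N = P * diagonal e * Q := by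
    rw [← he]
    calc toC N = (P * Q) * toC N * (P * Q) := by rw [hPQ, Matrix.one_mul, Matrix.mul_one]
      _ = _ := by simp only [Matrix.mul_assoc]
  apply toC_inj
  rw [toC_mul, toC_mul, hM', hN']
  have key : ∀ d e : Fin 3 → ℂ, P * diagonal d * Q * (P * diagonal e * Q) =
      P * diagonal (fun i => d i * e i) * Q := by
    intro d e
    calc P * diagonal d * Q * (P * diagonal e * Q)
        = P * diagonal d * (Q * P) * diagonal e * Q := by simp only [Matrix.mul_assoc]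
      _ = P * (diagonal d * diagonal e) * Q := by
          rw [hQP, Matrix.mul_one]; simp only [Matrix.mul_assoc]
      _ = _ := by rw [Matrix.diagonal_mul_diagonal]
  rw [key, key]
  congr 3
  funext i
  exact mul_comm _ _

/-- integer matrices commuting with a regular element, with bounded eigenvalues, have bounded
entries -/
theorem bound_comm (γ : Matrix (Fin 3) (Fin 3) ℤ) (hdet : γ.det = 1) (htr : 4 ≤ γ.trace)
    (L : ℝ) : ∃ n : ℤ, ∀ M : Matrix (Fin 3) (Fin 3) ℤ, M * γ = γ * M →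
      (∀ (μ : ℂ) (v : Fin 3 → ℂ), v ≠ 0 → toC M *ᵥ v = μ • v → ‖μ‖ ≤ L) →
      ∀ i j, |M i j| ≤ n := by
  obtain ⟨P, Q, hPQ, hQP, H⟩ := exists_diag γ hdet htr
  set n : ℤ := ⌈∑ i : Fin 3, ∑ j : Fin 3, ∑ l : Fin 3, ‖P i l‖ * |L| * ‖Q l j‖⌉ with hn
  refine ⟨n, ?_⟩
  intro M hM hev i j
  obtain ⟨d, hd⟩ := H (toC M) (by rw [← toC_mul, ← toC_mul, hM])
  have hMP : toC M * P = P * diagonal d := by
    rw [← hd]
    calc toC M * P = (P * Q) * toC M * P := by rw [hPQ, Matrix.one_mul]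
      _ = _ := by simp only [Matrix.mul_assoc]
  have hM' : toC M = P * diagonal d * Q := by
    rw [← hMP]
    calc toC M = toC M * (P * Q) := by rw [hPQ, Matrix.mul_one]
      _ = _ := by simp only [Matrix.mul_assoc]
  have hdl : ∀ l, ‖d l‖ ≤ |L| := by
    intro l
    refine (hev (d l) (fun i => P i l) ?_ ?_).trans (le_abs_self _)
    · intro h0
      have h1 : (Q * P) l l = 0 := by
        rw [Matrix.mul_apply]
        refine Finset.sum_eq_zero fun k _ => ?_
        have : P k l = 0 := congrFun h0 k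
        rw [this, mul_zero]
      rw [hQP, Matrix.one_apply_eq] at h1
      exact one_ne_zero h1
    · funext k
      have h2 := congrFun (congrFun hMP k) l
      rw [Matrix.mul_apply, Matrix.mul_diagonal] at h2
      simp only [Matrix.mulVec, dotProduct, Pi.smul_apply, smul_eq_mul]
      rw [h2]; ring
  have hent : ‖(toC M) i j‖ ≤ ∑ l, ‖P i l‖ * |L| * ‖Q l j‖ := by
    rw [hM', Matrix.mul_apply]
    refine (norm_sum_le _ _).trans (Finset.sum_le_sum fun l _ => ?_)
    rw [Matrix.mul_diagonal, norm_mul, norm_mul]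
    gcongr
    exact hdl l
  have hnn : ∀ i j l, 0 ≤ ‖P i l‖ * |L| * ‖Q l j‖ := fun i j l => by positivity
  have hle : ∑ l, ‖P i l‖ * |L| * ‖Q l j‖ ≤ (n : ℝ) := by
    refine le_trans ?_ (Int.le_ceil _)
    refine (Finset.single_le_sum (f := fun j => ∑ l, ‖P i l‖ * |L| * ‖Q l j‖)
      (fun j _ => Finset.sum_nonneg fun l _ => hnn i j l) (Finset.mem_univ j)).trans ?_
    exact Finset.single_le_sum (f := fun i => ∑ j, ∑ l, ‖P i l‖ * |L| * ‖Q l j‖)
      (fun i _ => Finset.sum_nonneg fun j _ => Finset.sum_nonneg fun l _ => hnn i j l)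
      (Finset.mem_univ i)
  have hfin := hent.trans hle
  have h3 : ‖(toC M) i j‖ = ((|M i j| : ℤ) : ℝ) := by
    have : (toC M) i j = ((M i j : ℤ) : ℂ) := rfl
    rw [this, Complex.norm_intCast, Int.cast_abs]
  rw [h3] at hfin
  exact_mod_cast hfin

lemma finite_bounded (n : ℤ) : {M : Matrix (Fin 3) (Fin 3) ℤ | ∀ i j, |M i j| ≤ n}.Finite := by
  have h : {M : Fin 3 → Fin 3 → ℤ | ∀ i, M i ∈ {v : Fin 3 → ℤ | ∀ j, v j ∈ Set.Icc (-n) n}}.Finite :=
    Set.Finite.pi' fun _ => Set.Finite.pi' fun _ => Set.finite_Icc _ _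
  refine h.subset ?_
  intro M hM i j
  exact abs_le.1 (hM i j)

end Pool.Agent.Y906
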