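import Pool.Agent.H715R2.Littlewood
import Pool.Agent.Y906.Reg3

/-! Near returns of the diagonal orbit of the Littlewood lattice and integer matrices. -/

open Matrix Polynomial H715R2

namespace Pool.Agent.Y906

/-- weights -/
def wt (x y : ℝ) : Fin 3 → ℝ := ![-(x + y), x, y]

@[simp] lemma wt0 (x y : ℝ) : wt x y 0 = -(x + y) := rfl
@[simp] lemma wt1 (x y : ℝ) : wt x y 1 = x := rfl
@[simp] lemma wt2 (x y : ℝ) : wt x y 2 = y := rfl

/-- the lattice at time `(x, y)` -/
noncomputable def lt (α β x y : ℝ) : Matrix (Fin 3) (Fin 3) ℝ :=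
  diagonal (fun i => Real.exp (wt x y i)) * LLm α β

/-- the second matrix is obtained from the first by a nearly diagonal matrix and a change of
basis -/
def Nr (δ : ℝ) (h h' : Matrix (Fin 3) (Fin 3) ℝ) : Prop :=
  ∃ (u : Matrix (Fin 3) (Fin 3) ℝ) (γ : Matrix (Fin 3) (Fin 3) ℤ), |γ.det| = 1 ∧
    h' = u * h * zR γ ∧ (∀ i j, i ≠ j → |u i j| ≤ δ) ∧ ∀ i, 1 / 2 ≤ u i i ∧ u i i ≤ 2

lemma LL_sq (α β : ℝ) : LLm α β * LLm α β = 1 := by
  ext i j
  fin_cases i <;> fin_cases j <;> simp [LLm, Matrix.mul_apply, Fin.sum_univ_three]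

lemma sum_gt {a b c : ℝ} (ha : 0 < a) (hb : 0 < b) (hc : 0 < c) (hp : 0.999 ≤ a * b * c)
    (h : a ≤ 0.74 ∨ 1.35 ≤ a) : 3 < a + b + c := by
  by_contra hcon
  push Not at hcon
  have h1 : a * (4 * (b * c)) ≤ a * (b + c) ^ 2 :=
    mul_le_mul_of_nonneg_left (by nlinarith [sq_nonneg (b - c)]) ha.le
  have h2 : a * (b + c) ^ 2 ≤ a * (3 - a) ^ 2 := by
    apply mul_le_mul_of_nonneg_left _ ha.le
    apply pow_le_pow_left₀ (by positivity)
    linarith
  have h3 : 3.996 ≤ a * (3 - a) ^ 2 := by nlinarith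
  rcases h with h | h
  · have h4 : 0 ≤ (0.74 - a) * (a ^ 2 - 5.26 * a + 5.1076) :=
      mul_nonneg (by linarith) (by nlinarith)
    nlinarith
  · have h5 : a ≤ 3 := by linarith
    have h4 : 0 ≤ (a - 1.35) * (-(a ^ 2 - 4.65 * a + 2.7225)) :=
      mul_nonneg (by linarith) (by nlinarith)
    nlinarith

lemma det_near {u : Matrix (Fin 3) (Fin 3) ℝ} {δ : ℝ} (h0 : 0 ≤ δ) (hδ : δ ≤ 1 / 100)
    (hoff : ∀ i j, i ≠ j → |u i j| ≤ δ) (hdiag : ∀ i, 1 / 2 ≤ u i i ∧ u i i ≤ 2)
    (hdet : |u.det| = 1) : u.det = 1 ∧ 0.999 ≤ u 0 0 * u 1 1 * u 2 2 := by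
  have hb : ∀ i j k l : Fin 3, i ≠ j → k ≠ l → |u i j * u k l| ≤ δ ^ 2 := by
    intro i j k l hij hkl
    rw [abs_mul, sq]
    exact mul_le_mul (hoff i j hij) (hoff k l hkl) (abs_nonneg _) h0
  have hb2 : ∀ m i j k l : Fin 3, i ≠ j → k ≠ l → |u m m * (u i j * u k l)| ≤ 2 * δ ^ 2 := by
    intro m i j k l hij hkl
    rw [abs_mul]
    refine mul_le_mul ?_ (hb i j k l hij hkl) (abs_nonneg _) (by norm_num)
    rw [abs_le]
    constructor <;> linarith [(hdiag m).1, (hdiag m).2]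
  have hb3 : ∀ m n i j k l : Fin 3, m ≠ n → i ≠ j → k ≠ l →
      |u m n * (u i j * u k l)| ≤ δ * δ ^ 2 := by
    intro m n i j k l hmn hij hkl
    rw [abs_mul]
    exact mul_le_mul (hoff m n hmn) (hb i j k l hij hkl) (abs_nonneg _) h0
  have e := Matrix.det_fin_three u
  have t1 := abs_le.1 (hb2 0 1 2 2 1 (by decide) (by decide))
  have t2 := abs_le.1 (hb2 2 0 1 1 0 (by decide) (by decide))
  have t3 := abs_le.1 (hb3 0 1 1 2 2 0 (by decide) (by decide) (by decide))
  have t4 := abs_le.1 (hb3 0 2 1 0 2 1 (by decide) (by decide) (by decide))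
  have t5 := abs_le.1 (hb2 1 0 2 2 0 (by decide) (by decide))
  have hδ2 : δ ^ 2 ≤ 1 / 10000 := by nlinarith
  have hδ3 : δ * δ ^ 2 ≤ 1 / 1000000 := by
    have : 0 ≤ δ ^ 2 := sq_nonneg δ
    nlinarith
  have hp : 1 / 8 ≤ u 0 0 * u 1 1 * u 2 2 := by
    have h1 : (1 / 2) * (1 / 2) ≤ u 0 0 * u 1 1 :=
      mul_le_mul (hdiag 0).1 (hdiag 1).1 (by norm_num) (by linarith [(hdiag 0).1])
    have h2 : (1 / 2) * (1 / 2) * (1 / 2) ≤ u 0 0 * u 1 1 * u 2 2 :=
      mul_le_mul h1 (hdiag 2).1 (by norm_num) (by linarith)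
    linarith
  have e' : |u.det - u 0 0 * u 1 1 * u 2 2| ≤ 0.001 := by
    rw [abs_le]
    constructor <;> nlinarith
  have e'' := abs_le.1 e'
  have hdet' : u.det = 1 := by
    rcases (abs_eq one_pos.le).1 hdet with h | h
    · exact h
    · rw [h] at e''
      linarith [e''.1, e''.2]
  refine ⟨hdet', ?_⟩
  rw [hdet'] at e''
  linarith [e''.1, e''.2]

lemma det_lt (α β x y : ℝ) : |(lt α β x y).det| = 1 := by
  unfold lt
  rw [det_mul, det_diagonal, Fin.prod_univ_three, abs_mul, LLm_det, mul_one, ← Real.exp_add,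
    ← Real.exp_add]
  simp

/-- **From a near return to an integer matrix.** -/
theorem ret_of_near {α β δ x y x' y' : ℝ} (h0 : 0 ≤ δ) (hδ : δ ≤ 1 / 100)
    (h : Nr δ (lt α β x y) (lt α β x' y')) (hne : 1 ≤ |x - x'| ∨ 1 ≤ |y - y'|) :
    ∃ (G : Matrix (Fin 3) (Fin 3) ℤ) (u : Matrix (Fin 3) (Fin 3) ℝ), G.det = 1 ∧ 4 ≤ G.trace ∧
      LLm α β * zR G = (Matrix.of fun i j => u i j * Real.exp (wt x y j - wt x' y' i)) * LLm α β ∧
      (∀ i j, i ≠ j → |u i j| ≤ δ) ∧ ∀ i, 1 / 2 ≤ u i i ∧ u i i ≤ 2 := by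
  obtain ⟨u, γ, hγ, hh, hoff, hdiag⟩ := h
  have hγu : IsUnit γ.det := by
    rw [Int.isUnit_iff]
    rcases (abs_eq (by norm_num)).1 hγ with h | h
    · exact Or.inl h
    · exact Or.inr h
  have hudet : |u.det| = 1 := by
    have h1 := congrArg Matrix.det hh
    rw [det_mul, det_mul, det_zR] at h1
    have h2 := congrArg abs h1
    rw [abs_mul, abs_mul, det_lt, det_lt, mul_one, ← Int.cast_abs, hγ, Int.cast_one, mul_one] at h2
    exact h2.symm
  obtain ⟨hu1, hup⟩ := det_near h0 hδ hoff hdiag hudet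
  set G : Matrix (Fin 3) (Fin 3) ℤ := γ⁻¹ with hG
  set B : Matrix (Fin 3) (Fin 3) ℝ := Matrix.of fun i j => u i j * Real.exp (wt x y j - wt x' y' i)
    with hB
  have hBeq : diagonal (fun i => Real.exp (wt x' y' i)) * B
      = u * diagonal (fun i => Real.exp (wt x y i)) := by
    ext i j
    rw [Matrix.diagonal_mul, Matrix.mul_diagonal, hB, Matrix.of_apply, Real.exp_sub]
    have := Real.exp_pos (wt x' y' i)
    field_simp
  have hrel : LLm α β * zR G = B * LLm α β := by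
    have h1 : lt α β x' y' * zR G = u * lt α β x y := by
      rw [hh, Matrix.mul_assoc, hG, zR_inv hγu, Matrix.mul_one]
    have h2 : diagonal (fun i => Real.exp (wt x' y' i)) * (LLm α β * zR G)
        = diagonal (fun i => Real.exp (wt x' y' i)) * (B * LLm α β) := by
      rw [← Matrix.mul_assoc, ← Matrix.mul_assoc, hBeq]
      exact h1.trans (by unfold lt; rw [Matrix.mul_assoc])
    ext i j
    have h3 := congrFun (congrFun h2 i) j
    rw [Matrix.diagonal_mul, Matrix.diagonal_mul] at h3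
    exact mul_left_cancel₀ (Real.exp_pos _).ne' h3
  have hBG : B = LLm α β * zR G * LLm α β := by
    rw [hrel, Matrix.mul_assoc, LL_sq, Matrix.mul_one]
  have hdetB : B.det = 1 := by
    have h1 := congrArg Matrix.det hBeq
    rw [det_mul, det_mul, det_diagonal, det_diagonal, hu1, Fin.prod_univ_three, Fin.prod_univ_three,
      ← Real.exp_add, ← Real.exp_add, ← Real.exp_add, ← Real.exp_add] at h1
    simpa using h1
  have hdetG : G.det = 1 := by
    have h1 := congrArg Matrix.det hBG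
    have h2 := congrArg Matrix.det (LL_sq α β)
    rw [det_mul, det_one] at h2
    rw [det_mul, det_mul, hdetB, det_zR] at h1
    have h3 : ((G.det : ℤ) : ℝ) = 1 := by linear_combination (-1 : ℝ) * h1 - (G.det : ℝ) * h2
    exact_mod_cast h3
  have htr : ((G.trace : ℤ) : ℝ) = B.trace := by
    rw [hBG, Matrix.mul_assoc, Matrix.trace_mul_comm, Matrix.mul_assoc, LL_sq, Matrix.mul_one]
    simp [Matrix.trace_fin_three, zR]
  have hBtr : B.trace = u 0 0 * Real.exp (-(x + y) + (x' + y')) + u 1 1 * Real.exp (x - x')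
      + u 2 2 * Real.exp (y - y') := by
    rw [Matrix.trace_fin_three, hB]
    simp only [Matrix.of_apply, wt0, wt1, wt2]
    congr 3
    ring_nf
  have hpos : ∀ i, 0 < u i i := fun i => by linarith [(hdiag i).1]
  have e1 := Real.exp_one_gt_d9
  have hcase : ∀ (v : ℝ) (i : Fin 3), 1 ≤ |v| → u i i * Real.exp v ≤ 0.74 ∨
      1.35 ≤ u i i * Real.exp v := by
    intro v i hv
    rcases le_abs.1 hv with h | h
    · right
      have : Real.exp 1 ≤ Real.exp v := Real.exp_le_exp.2 h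
      nlinarith [(hdiag i).1, Real.exp_pos v]
    · left
      have h1 : Real.exp v ≤ Real.exp (-1) := Real.exp_le_exp.2 (by linarith)
      have h2 : Real.exp (-1) ≤ 0.37 := by
        rw [Real.exp_neg, inv_le_comm₀ (Real.exp_pos _) (by norm_num)]
        refine le_trans ?_ e1.le
        norm_num
      have h3 : Real.exp v ≤ 0.37 := h1.trans h2
      nlinarith [(hdiag i).2, hpos i, Real.exp_pos v]
  have hprod : 0.999 ≤ (u 1 1 * Real.exp (x - x')) * (u 0 0 * Real.exp (-(x + y) + (x' + y')))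
      * (u 2 2 * Real.exp (y - y')) := by
    have h1 : Real.exp (x - x') * Real.exp (-(x + y) + (x' + y')) * Real.exp (y - y') = 1 := by
      rw [← Real.exp_add, ← Real.exp_add, ← Real.exp_zero]
      congr 1; ring
    calc (0.999 : ℝ) ≤ u 0 0 * u 1 1 * u 2 2 := hup
      _ = u 0 0 * u 1 1 * u 2 2 *
          (Real.exp (x - x') * Real.exp (-(x + y) + (x' + y')) * Real.exp (y - y')) := by
          rw [h1, mul_one]
      _ = _ := by ring
  have htr3 : 3 < B.trace := by
    rw [hBtr]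
    rcases hne with hne | hne
    · have := sum_gt (a := u 1 1 * Real.exp (x - x'))
        (b := u 0 0 * Real.exp (-(x + y) + (x' + y'))) (c := u 2 2 * Real.exp (y - y'))
        (mul_pos (hpos 1) (Real.exp_pos _)) (mul_pos (hpos 0) (Real.exp_pos _))
        (mul_pos (hpos 2) (Real.exp_pos _)) hprod (hcase _ 1 hne)
      linarith
    · have := sum_gt (a := u 2 2 * Real.exp (y - y'))
        (b := u 0 0 * Real.exp (-(x + y) + (x' + y'))) (c := u 1 1 * Real.exp (x - x'))
        (mul_pos (hpos 2) (Real.exp_pos _)) (mul_pos (hpos 0) (Real.exp_pos _))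
        (mul_pos (hpos 1) (Real.exp_pos _)) (hprod.trans (le_of_eq (by ring))) (hcase _ 2 hne)
      linarith
  refine ⟨G, u, hdetG, ?_, hrel, hoff, hdiag⟩
  rw [← htr] at htr3
  have : (3 : ℤ) < G.trace := by exact_mod_cast htr3
  omega

end Pool.Agent.Y906
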