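import Pool.Agent.Y906.NR1

open Matrix Polynomial H715R2 Filter Topology

namespace Pool.Agent.Y906

/-- reduced bases and lower bounds at time `(s, t)` -/
def Deep (α β ρ R ε s t : ℝ) : Prop :=
  (∃ σ : Matrix (Fin 3) (Fin 3) ℤ, IsUnit σ.det ∧ ∀ i j, |(lt α β s t * zR σ) i j| ≤ R) ∧
    ∀ m : Fin 3 → ℤ, m ≠ 0 → (∀ i, |(lt α β s t *ᵥ iR m) i| ≤ ρ) →
      ε ≤ |FF (lt α β s t) (iR m)|

lemma comm_bound {W W' : Matrix (Fin 3) (Fin 3) ℝ} {a b : ℝ} (h0 : 0 ≤ a) (hab : a ≤ b)
    (h1 : ∀ i j, i ≠ j → |W i j| ≤ a) (h2 : ∀ i, |W i i| ≤ b)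
    (h1' : ∀ i j, i ≠ j → |W' i j| ≤ a) (h2' : ∀ i, |W' i i| ≤ b) (i j : Fin 3) :
    |(W * W' - W' * W) i j| ≤ 6 * (a * b) := by
  have hb0 : 0 ≤ b := h0.trans hab
  have hall : ∀ i j, |W i j| ≤ b := fun i j => by
    by_cases h : i = j
    · rw [h]; exact h2 j
    · exact (h1 i j h).trans hab
  have hall' : ∀ i j, |W' i j| ≤ b := fun i j => by
    by_cases h : i = j
    · rw [h]; exact h2' j
    · exact (h1' i j h).trans hab
  have hterm : ∀ l, |W i l * W' l j - W' i l * W l j| ≤ 2 * (a * b) := by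
    intro l
    by_cases hil : i = l
    · by_cases hlj : l = j
      · subst hil; subst hlj
        rw [mul_comm (W' i i), sub_self, abs_zero]
        positivity
      · have e1 : |W i l * W' l j| ≤ a * b := by
          rw [abs_mul, mul_comm]
          exact mul_le_mul (h1' l j hlj) (hall i l) (abs_nonneg _) h0
        have e2 : |W' i l * W l j| ≤ a * b := by
          rw [abs_mul, mul_comm]
          exact mul_le_mul (h1 l j hlj) (hall' i l) (abs_nonneg _) h0
        calc _ ≤ |W i l * W' l j| + |W' i l * W l j| := abs_sub _ _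
          _ ≤ _ := by linarith
    · have e1 : |W i l * W' l j| ≤ a * b := by
        rw [abs_mul]
        exact mul_le_mul (h1 i l hil) (hall' l j) (abs_nonneg _) h0
      have e2 : |W' i l * W l j| ≤ a * b := by
        rw [abs_mul]
        exact mul_le_mul (h1' i l hil) (hall l j) (abs_nonneg _) h0
      calc _ ≤ |W i l * W' l j| + |W' i l * W l j| := abs_sub _ _
        _ ≤ _ := by linarith
  rw [Matrix.sub_apply, Matrix.mul_apply, Matrix.mul_apply, ← Finset.sum_sub_distrib]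
  refine (Finset.abs_sum_le_sum_abs _ _).trans ?_
  refine (Finset.sum_le_sum fun l _ => hterm l).trans (le_of_eq ?_)
  simp
  ring

/-- the point `(x, y)` is in the box of side `T` at `(s, t)`, up to one unit -/
def InB (T s t x y : ℝ) : Prop := s - 1 ≤ x ∧ x ≤ s + T + 1 ∧ t - 1 ≤ y ∧ y ≤ t + T + 1

/-- data of a near return inside the box at `(s, t)` -/
def RD (α β δ T s t : ℝ) (G : Matrix (Fin 3) (Fin 3) ℤ) : Prop :=
  ∃ (u : Matrix (Fin 3) (Fin 3) ℝ) (x y x' y' : ℝ), InB T s t x y ∧ InB T s t x' y' ∧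
    LLm α β * zR G = (Matrix.of fun i j => u i j * Real.exp (wt x y j - wt x' y' i)) * LLm α β ∧
    (∀ i j, i ≠ j → |u i j| ≤ δ) ∧ ∀ i, 1 / 2 ≤ u i i ∧ u i i ≤ 2

lemma wt_bound {T s t x y x' y' : ℝ} (hT : 0 ≤ T) (h : InB T s t x y) (h' : InB T s t x' y')
    (i j : Fin 3) : (wt s t i - wt s t j) + (wt x y j - wt x' y' i) ≤ 3 * T + 4 := by
  obtain ⟨a1, a2, a3, a4⟩ := h
  obtain ⟨b1, b2, b3, b4⟩ := h'
  have h1 : wt s t i - wt x' y' i ≤ 2 * T + 2 := by
    fin_cases i <;> simp <;> linarith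
  have h2 : wt x y j - wt s t j ≤ T + 2 := by
    fin_cases j <;> simp <;> linarith
  linarith

/-- in the frame of `(s, t)` the matrix of a near return is nearly diagonal -/
lemma RD.frame {α β δ T s t : ℝ} (hT : 0 ≤ T) {G : Matrix (Fin 3) (Fin 3) ℤ}
    (h : RD α β δ T s t G) :
    ∃ B : Matrix (Fin 3) (Fin 3) ℝ, LLm α β * zR G = B * LLm α β ∧
      (∀ i j, i ≠ j → |Real.exp (wt s t i - wt s t j) * B i j| ≤ δ * Real.exp (3 * T + 4)) ∧
      ∀ i, |Real.exp (wt s t i - wt s t i) * B i i| ≤ 2 * Real.exp (3 * T + 4) := by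
  obtain ⟨u, x, y, x', y', hB1, hB2, hrel, hoff, hdiag⟩ := h
  refine ⟨_, hrel, ?_, ?_⟩
  · intro i j hij
    have h1 := Real.exp_le_exp.2 (wt_bound hT hB1 hB2 i j)
    rw [Matrix.of_apply]
    have h2 : Real.exp (wt s t i - wt s t j) * (u i j * Real.exp (wt x y j - wt x' y' i)) =
        u i j * Real.exp ((wt s t i - wt s t j) + (wt x y j - wt x' y' i)) := by
      rw [Real.exp_add]; ring
    rw [h2, abs_mul, abs_of_pos (Real.exp_pos _)]
    exact mul_le_mul (hoff i j hij) h1 (Real.exp_pos _).le ((abs_nonneg _).trans (hoff i j hij))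
  · intro i
    have h1 := Real.exp_le_exp.2 (wt_bound hT hB1 hB2 i i)
    rw [Matrix.of_apply]
    have h2 : Real.exp (wt s t i - wt s t i) * (u i i * Real.exp (wt x y i - wt x' y' i)) =
        u i i * Real.exp ((wt s t i - wt s t i) + (wt x y i - wt x' y' i)) := by
      rw [Real.exp_add]; ring
    rw [h2, abs_mul, abs_of_pos (Real.exp_pos _)]
    refine mul_le_mul ?_ h1 (Real.exp_pos _).le (by norm_num)
    rw [abs_le]
    constructor <;> linarith [(hdiag i).1, (hdiag i).2]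

lemma zR_sub (G H : Matrix (Fin 3) (Fin 3) ℤ) : zR (G - H) = zR G - zR H := by
  ext i j; simp [zR]

/-- **Two near returns in the same box commute.** -/
theorem comm_of_RD {α β δ ρ R ε T s t : ℝ} (hT : 0 ≤ T) (h0 : 0 ≤ δ) (hδ : δ ≤ 1)
    (hR : 0 ≤ R) (hdeep : Deep α β ρ R ε s t)
    (hX1 : 36 * δ * Real.exp (6 * T + 8) * R ≤ ρ)
    (hX2 : (36 * δ * Real.exp (6 * T + 8) * R) ^ 3 < ε)
    {G G' : Matrix (Fin 3) (Fin 3) ℤ} (h : RD α β δ T s t G) (h' : RD α β δ T s t G') :
    G * G' = G' * G := by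
  obtain ⟨B, hB, hB1, hB2⟩ := h.frame hT
  obtain ⟨B', hB', hB1', hB2'⟩ := h'.frame hT
  obtain ⟨⟨σ, hσ, hσR⟩, hlow⟩ := hdeep
  set E := Real.exp (3 * T + 4) with hE
  have hEE : E * E = Real.exp (6 * T + 8) := by
    rw [hE, ← Real.exp_add]; congr 1; ring
  have hE0 : 0 < E := Real.exp_pos _
  set X : ℝ := 36 * δ * Real.exp (6 * T + 8) * R with hX
  set W : Matrix (Fin 3) (Fin 3) ℝ := Matrix.of fun i j => Real.exp (wt s t i - wt s t j) * B i j
    with hW
  set W' : Matrix (Fin 3) (Fin 3) ℝ :=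
    Matrix.of fun i j => Real.exp (wt s t i - wt s t j) * B' i j with hW'
  have hprod : ∀ (A A' : Matrix (Fin 3) (Fin 3) ℝ) (i j : Fin 3),
      ((Matrix.of fun i j => Real.exp (wt s t i - wt s t j) * A i j) *
        (Matrix.of fun i j => Real.exp (wt s t i - wt s t j) * A' i j) :
          Matrix (Fin 3) (Fin 3) ℝ) i j = Real.exp (wt s t i - wt s t j) * (A * A') i j := by
    intro A A' i j
    rw [Matrix.mul_apply, Matrix.mul_apply, Finset.mul_sum]
    refine Finset.sum_congr rfl fun l _ => ?_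
    rw [Matrix.of_apply, Matrix.of_apply,
      show wt s t i - wt s t j = (wt s t i - wt s t l) + (wt s t l - wt s t j) by ring,
      Real.exp_add]
    ring
  have hcb := comm_bound (W := W) (W' := W') (a := δ * E) (b := 2 * E) (by positivity)
    (by nlinarith) hB1 hB2 hB1' hB2'
  have hC : ∀ i j, (W * W' - W' * W) i j =
      Real.exp (wt s t i - wt s t j) * (B * B' - B' * B) i j := by
    intro i j
    rw [Matrix.sub_apply, Matrix.sub_apply, hW, hW', hprod, hprod]
    ring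
  set Z : Matrix (Fin 3) (Fin 3) ℤ := G * G' - G' * G with hZ
  have hZrel : LLm α β * zR Z = (B * B' - B' * B) * LLm α β := by
    rw [hZ, zR_sub, zR_mul, zR_mul, Matrix.mul_sub, Matrix.sub_mul, ← Matrix.mul_assoc,
      ← Matrix.mul_assoc, hB, hB', Matrix.mul_assoc, Matrix.mul_assoc, hB, hB']
    simp only [Matrix.mul_assoc]
  have hM1 : lt α β s t * zR (Z * σ) = (W * W' - W' * W) * (lt α β s t * zR σ) := by
    have e1 : lt α β s t * zR (Z * σ) =
        diagonal (fun i => Real.exp (wt s t i)) * ((B * B' - B' * B) * (LLm α β * zR σ)) := by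
      unfold lt
      rw [zR_mul, Matrix.mul_assoc, ← Matrix.mul_assoc (LLm α β), hZrel]
      simp only [Matrix.mul_assoc]
    have e2 : lt α β s t * zR σ =
        diagonal (fun i => Real.exp (wt s t i)) * (LLm α β * zR σ) := by
      unfold lt; simp only [Matrix.mul_assoc]
    rw [e1, e2]
    ext i j
    rw [Matrix.diagonal_mul, Matrix.mul_apply, Matrix.mul_apply, Finset.mul_sum]
    refine Finset.sum_congr rfl fun l _ => ?_
    rw [hC, Matrix.diagonal_mul, Real.exp_sub]
    have := Real.exp_pos (wt s t l)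
    field_simp
  have hM1b : ∀ i j, |(lt α β s t * zR (Z * σ)) i j| ≤ X := by
    intro i j
    rw [hM1, Matrix.mul_apply]
    refine (Finset.abs_sum_le_sum_abs _ _).trans ?_
    have h1 : ∀ l ∈ (Finset.univ : Finset (Fin 3)),
        |(W * W' - W' * W) i l * (lt α β s t * zR σ) l j| ≤ 6 * (δ * E * (2 * E)) * R := by
      intro l _
      rw [abs_mul]
      exact mul_le_mul (hcb i l) (hσR l j) (abs_nonneg _) (by positivity)
    refine (Finset.sum_le_sum h1).trans (le_of_eq ?_)
    rw [hX, ← hEE]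
    simp
    ring
  have hcol : ∀ j, (fun i => (Z * σ) i j) = (0 : Fin 3 → ℤ) := by
    intro j
    by_contra hne
    have hent : ∀ i, (lt α β s t *ᵥ iR (fun i => (Z * σ) i j)) i
        = (lt α β s t * zR (Z * σ)) i j := by
      intro i
      rw [Matrix.mul_apply]
      rfl
    have h1 := hlow _ hne (fun i => by rw [hent]; exact (hM1b i j).trans hX1)
    rw [FF_eq, Finset.abs_prod, Fin.prod_univ_three, hent, hent, hent] at h1
    have hX0 : 0 ≤ X := (abs_nonneg _).trans (hM1b 0 0)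
    have h2 : |(lt α β s t * zR (Z * σ)) 0 j| * |(lt α β s t * zR (Z * σ)) 1 j| *
        |(lt α β s t * zR (Z * σ)) 2 j| ≤ X * X * X :=
      mul_le_mul (mul_le_mul (hM1b 0 j) (hM1b 1 j) (abs_nonneg _) hX0) (hM1b 2 j) (abs_nonneg _)
        (by positivity)
    have h3 : X * X * X = X ^ 3 := by ring
    linarith
  have hZσ : Z * σ = 0 := by
    ext i j
    exact congrFun (hcol j) i
  have hZ0 : Z = 0 := by
    have : Z * σ * σ⁻¹ = 0 := by rw [hZσ, Matrix.zero_mul]
    rwa [Matrix.mul_assoc, Matrix.mul_nonsing_inv _ hσ, Matrix.mul_one] at this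
  exact sub_eq_zero.1 hZ0

/-- the eigenvalues of near returns are bounded -/
theorem eig_bound {α β δ T s t : ℝ} (hT : 0 ≤ T) (h0 : 0 ≤ δ) (hδ : δ ≤ 1)
    {G : Matrix (Fin 3) (Fin 3) ℤ} (h : RD α β δ T s t G) (μ : ℂ) (v : Fin 3 → ℂ) (hv : v ≠ 0)
    (hG : toC G *ᵥ v = μ • v) : ‖μ‖ ≤ 6 * Real.exp (3 * T + 4) := by
  obtain ⟨B, hB, hB1, hB2⟩ := h.frame hT
  set E := Real.exp (3 * T + 4) with hE
  have hE0 : 0 < E := Real.exp_pos _
  have hall : ∀ i j, |Real.exp (wt s t i - wt s t j) * B i j| ≤ 2 * E := by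
    intro i j
    by_cases hij : i = j
    · subst hij; exact hB2 i
    · exact (hB1 i j hij).trans (by nlinarith)
  set g : Matrix (Fin 3) (Fin 3) ℂ := (LLm α β).map (Complex.ofReal) with hg
  set BC : Matrix (Fin 3) (Fin 3) ℂ := B.map (Complex.ofReal) with hBC
  have hmap : ∀ M N : Matrix (Fin 3) (Fin 3) ℝ,
      (M * N).map Complex.ofReal = M.map Complex.ofReal * N.map Complex.ofReal := fun M N =>
    Matrix.map_mul (f := Complex.ofRealHom)
  have hrel : g * toC G = BC * g := by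
    have h1 := congrArg (fun M : Matrix (Fin 3) (Fin 3) ℝ => M.map Complex.ofReal) hB
    simp only [hmap] at h1
    have h2 : (zR G).map Complex.ofReal = toC G := by
      ext i j; simp [zR, toC]
    rw [h2] at h1
    exact h1
  set z : Fin 3 → ℂ := g *ᵥ v with hz
  have hz0 : z ≠ 0 := by
    intro h0'
    apply hv
    have h1 : g * g = 1 := by
      have h3 := congrArg (fun M : Matrix (Fin 3) (Fin 3) ℝ => M.map Complex.ofReal) (LL_sq α β)
      simp only [hmap] at h3
      rw [hg, h3]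
      ext i j
      by_cases hij : i = j
      · subst hij; simp
      · simp [Matrix.one_apply_ne hij]
    have h2 : g *ᵥ z = v := by rw [hz, Matrix.mulVec_mulVec, h1, Matrix.one_mulVec]
    rw [← h2, h0', Matrix.mulVec_zero]
  have hBz : BC *ᵥ z = μ • z := by
    rw [hz, Matrix.mulVec_mulVec, ← hrel, ← Matrix.mulVec_mulVec, hG, Matrix.mulVec_smul]
  obtain ⟨i, hi⟩ := Finite.exists_max (fun i => Real.exp (wt s t i) * ‖z i‖)
  have hpos : 0 < Real.exp (wt s t i) * ‖z i‖ := by
    obtain ⟨j, hj⟩ := Function.ne_iff.1 hz0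
    have h1 : 0 < Real.exp (wt s t j) * ‖z j‖ :=
      mul_pos (Real.exp_pos _) (norm_pos_iff.2 hj)
    exact h1.trans_le (hi j)
  have h1 := congrFun hBz i
  simp only [Matrix.mulVec, dotProduct, Pi.smul_apply, smul_eq_mul] at h1
  have h2 : ‖μ‖ * (Real.exp (wt s t i) * ‖z i‖) ≤ 6 * E * (Real.exp (wt s t i) * ‖z i‖) := by
    calc ‖μ‖ * (Real.exp (wt s t i) * ‖z i‖) = Real.exp (wt s t i) * ‖μ * z i‖ := by
          rw [norm_mul]; ring
      _ = Real.exp (wt s t i) * ‖∑ j, BC i j * z j‖ := by rw [h1]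
      _ ≤ Real.exp (wt s t i) * ∑ j, ‖BC i j * z j‖ :=
          mul_le_mul_of_nonneg_left (norm_sum_le _ _) (Real.exp_pos _).le
      _ = ∑ j, |Real.exp (wt s t i - wt s t j) * B i j| * (Real.exp (wt s t j) * ‖z j‖) := by
          rw [Finset.mul_sum]
          refine Finset.sum_congr rfl fun j _ => ?_
          have e1 : ‖BC i j‖ = |B i j| := by
            simp [hBC]
          rw [norm_mul, e1, abs_mul, abs_of_pos (Real.exp_pos _), Real.exp_sub]
          have := Real.exp_pos (wt s t j)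
          field_simp
      _ ≤ ∑ j : Fin 3, 2 * E * (Real.exp (wt s t i) * ‖z i‖) := by
          refine Finset.sum_le_sum fun j _ => ?_
          exact mul_le_mul (hall i j) (hi j) (by positivity) (by positivity)
      _ = _ := by simp; ring
  exact le_of_mul_le_mul_right h2 hpos

end Pool.Agent.Y906
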