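import Pool.Agent.Y906.NR2

open Matrix Polynomial H715R2 Filter Topology

namespace Pool.Agent.Y906

/-- rounding is optimal for the Littlewood product -/
lemma fL_le {α β : ℝ} (q p r : ℤ) :
    fL α β q.natAbs ≤ |(q : ℝ) * (α * q - p) * (β * q - r)| := by
  have hround : ∀ (x : ℝ) (z : ℤ), |((q.natAbs : ℕ) : ℝ) * x -
      (round (((q.natAbs : ℕ) : ℝ) * x) : ℝ)| ≤ |x * q - z| := by
    intro x z
    rcases Int.natAbs_eq q with hq' | hq'
    · have h2 : (((q.natAbs : ℕ) : ℝ)) = (q : ℝ) := by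
        rw [Nat.cast_natAbs]
        have : (0 : ℤ) ≤ q := by omega
        rw [abs_of_nonneg this]
      rw [h2, mul_comm (q : ℝ) x]
      exact round_le _ _
    · have h2 : (((q.natAbs : ℕ) : ℝ)) = -(q : ℝ) := by
        rw [Nat.cast_natAbs]
        have : q ≤ 0 := by omega
        rw [abs_of_nonpos this]
        push_cast
        ring
      have h3 := round_le (-(q : ℝ) * x) (-z)
      rw [h2]
      refine h3.trans (le_of_eq ?_)
      push_cast
      have : -(q : ℝ) * x - -(z : ℝ) = -(x * q - z) := by ring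
      rw [this, abs_neg]
  rw [abs_mul, abs_mul, fL, Nat.cast_natAbs, Int.cast_abs]
  have h3 := hround α p
  have h4 := hround β r
  rw [Nat.cast_natAbs, Int.cast_abs] at h3 h4
  exact mul_le_mul (mul_le_mul_of_nonneg_left h3 (abs_nonneg _)) h4 (abs_nonneg _)
    (mul_nonneg (abs_nonneg _) (abs_nonneg _))

lemma lt_mulVec (α β s t : ℝ) (m : Fin 3 → ℤ) :
    (lt α β s t *ᵥ iR m) 0 = Real.exp (-(s + t)) * m 0 ∧
    (lt α β s t *ᵥ iR m) 1 = Real.exp s * (α * m 0 - m 1) ∧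
    (lt α β s t *ᵥ iR m) 2 = Real.exp t * (β * m 0 - m 2) := by
  obtain ⟨h0, h1, h2⟩ := LLm_mulVec α β (iR m)
  unfold lt
  rw [← mulVec_mulVec, mulVec_diagonal, mulVec_diagonal, mulVec_diagonal, h0, h1, h2]
  exact ⟨rfl, rfl, rfl⟩

lemma FF_lt (α β s t : ℝ) (m : Fin 3 → ℤ) :
    FF (lt α β s t) (iR m) = m 0 * (α * m 0 - m 1) * (β * m 0 - m 2) := by
  rw [FF_eq, Fin.prod_univ_three]
  obtain ⟨h0, h1, h2⟩ := lt_mulVec α β s t m
  rw [h0, h1, h2]
  have h : Real.exp (-(s + t)) * Real.exp s * Real.exp t = 1 := by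
    rw [← Real.exp_add, ← Real.exp_add, ← Real.exp_zero]
    congr 1; ring
  linear_combination ((m 0 : ℝ) * (α * m 0 - m 1) * (β * m 0 - m 2)) * h

/-- **Reduction theory deep in the cone.** -/
theorem deep_of_large {α β ε ν ρ R M : ℝ} {N : ℕ} (hν0 : 0 < ν) (hρ : 0 < ρ)
    (hMlt : ρ < Real.exp M)
    (hν : ∀ q p r : ℤ, q ≠ 0 → ν ≤ |(q : ℝ) * (α * q - p) * (β * q - r)|)
    (hN : ∀ q : ℕ, N ≤ q → 0 < q → ε ≤ fL α β q)
    (hR : ∀ h : Matrix (Fin 3) (Fin 3) ℝ, |h.det| = 1 →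
      (∀ m : Fin 3 → ℤ, m ≠ 0 → (∀ i, |(h *ᵥ iR m) i| ≤ ρ) → ε ≤ |FF h (iR m)|) →
      ∃ γ : Matrix (Fin 3) (Fin 3) ℤ, IsUnit γ.det ∧ ∀ i j, |(h * zR γ) i j| ≤ R) :
    ∃ M0 : ℝ, ∀ s t : ℝ, M ≤ s → M ≤ t → M0 ≤ max s t → Deep α β ρ R ε s t := by
  obtain ⟨M0, hM0⟩ : ∃ M0 : ℝ, (N : ℝ) * ρ / ν ≤ Real.exp M0 :=
    ⟨(N : ℝ) * ρ / ν, (by linarith [Real.add_one_le_exp ((N : ℝ) * ρ / ν)])⟩
  refine ⟨M0, fun s t hs ht hmax => ?_⟩
  have hlow : ∀ m : Fin 3 → ℤ, m ≠ 0 → (∀ i, |(lt α β s t *ᵥ iR m) i| ≤ ρ) →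
      ε ≤ |FF (lt α β s t) (iR m)| := by
    intro m hm hb
    obtain ⟨e0, e1, e2⟩ := lt_mulVec α β s t m
    have hb1 := hb 1
    have hb2 := hb 2
    rw [e1, abs_mul, abs_of_pos (Real.exp_pos _)] at hb1
    rw [e2, abs_mul, abs_of_pos (Real.exp_pos _)] at hb2
    have hes : ρ < Real.exp s := hMlt.trans_le (Real.exp_le_exp.2 hs)
    have het : ρ < Real.exp t := hMlt.trans_le (Real.exp_le_exp.2 ht)
    have hint : ∀ (x y : ℝ) (z : ℤ), ρ < x → x * |y| ≤ ρ → |y| < 1 := by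
      intro x y z hx hy
      by_contra hcon
      push Not at hcon
      nlinarith
    have h1 := hint _ _ 0 hes hb1
    have h2 := hint _ _ 0 het hb2
    have hm0 : m 0 ≠ 0 := by
      intro h0
      rw [h0, Int.cast_zero, mul_zero, zero_sub, abs_neg, ← Int.cast_abs] at h1 h2
      have h1' : |m 1| < 1 := by exact_mod_cast h1
      have h2' : |m 2| < 1 := by exact_mod_cast h2
      apply hm
      funext i
      fin_cases i
      · exact h0
      · exact Int.abs_lt_one_iff.1 h1'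
      · exact Int.abs_lt_one_iff.1 h2'
    have h3 := hν (m 0) (m 1) (m 2) hm0
    rw [abs_mul, abs_mul] at h3
    have hmN : N ≤ (m 0).natAbs := by
      have hm0R : |(m 0 : ℝ)| = (((m 0).natAbs : ℕ) : ℝ) := by
        rw [Nat.cast_natAbs, Int.cast_abs]
      have key : ν * Real.exp M0 ≤ |(m 0 : ℝ)| * ρ := by
        rcases le_max_iff.1 hmax with hmx | hmx
        · have h4 : Real.exp M0 ≤ Real.exp s := Real.exp_le_exp.2 hmx
          have h5 : Real.exp M0 * |α * m 0 - m 1| ≤ ρ :=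
            (mul_le_mul_of_nonneg_right h4 (abs_nonneg _)).trans hb1
          calc ν * Real.exp M0 ≤ |(m 0 : ℝ)| * |α * m 0 - m 1| * |β * m 0 - m 2| * Real.exp M0 :=
                mul_le_mul_of_nonneg_right h3 (Real.exp_pos _).le
            _ = |(m 0 : ℝ)| * (Real.exp M0 * |α * m 0 - m 1|) * |β * m 0 - m 2| := by ring
            _ ≤ |(m 0 : ℝ)| * ρ * 1 := by gcongr
            _ = _ := by ring
        · have h4 : Real.exp M0 ≤ Real.exp t := Real.exp_le_exp.2 hmx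
          have h5 : Real.exp M0 * |β * m 0 - m 2| ≤ ρ :=
            (mul_le_mul_of_nonneg_right h4 (abs_nonneg _)).trans hb2
          calc ν * Real.exp M0 ≤ |(m 0 : ℝ)| * |α * m 0 - m 1| * |β * m 0 - m 2| * Real.exp M0 :=
                mul_le_mul_of_nonneg_right h3 (Real.exp_pos _).le
            _ = |(m 0 : ℝ)| * (Real.exp M0 * |β * m 0 - m 2|) * |α * m 0 - m 1| := by ring
            _ ≤ |(m 0 : ℝ)| * ρ * 1 := by gcongr
            _ = _ := by ring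
      rw [div_le_iff₀ hν0] at hM0
      have h6 : (N : ℝ) * ρ ≤ |(m 0 : ℝ)| * ρ := by linarith
      have h7 : (N : ℝ) ≤ |(m 0 : ℝ)| := le_of_mul_le_mul_right h6 hρ
      rw [hm0R] at h7
      exact_mod_cast h7
    rw [FF_lt]
    exact (hN _ hmN (Int.natAbs_pos.2 hm0)).trans (fL_le _ _ _)
  exact ⟨hR _ (det_lt α β s t) hlow, hlow⟩

/-- approximating a real number by rationals with the same denominators for `β` -/
lemma no_rel {α β ν : ℝ} (hν0 : 0 < ν)
    (hν : ∀ q p r : ℤ, q ≠ 0 → ν ≤ |(q : ℝ) * (α * q - p) * (β * q - r)|)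
    (N P Q : ℤ) (hN : N ≠ 0) (h : (N : ℝ) * β = P + Q * α) : False := by
  obtain ⟨n, hn⟩ := exists_nat_gt ((N : ℝ) ^ 2 * |(Q : ℝ)| / ν)
  have hn0 : 0 < n := by
    have h1 : (0 : ℝ) ≤ (N : ℝ) ^ 2 * |(Q : ℝ)| / ν := by positivity
    have h2 : (0 : ℝ) < n := h1.trans_lt hn
    exact_mod_cast h2
  obtain ⟨p, q, hq0, hqn, hpq⟩ := Real.exists_int_int_abs_mul_sub_le α hn0
  have h1 := hν (N * q) (N * p) (P * q + Q * p) (mul_ne_zero hN hq0.ne')
  set x : ℝ := q * α - p with hx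
  have e1 : α * ((N * q : ℤ) : ℝ) - ((N * p : ℤ) : ℝ) = N * x := by
    rw [hx]; push_cast; ring
  have e2 : β * ((N * q : ℤ) : ℝ) - ((P * q + Q * p : ℤ) : ℝ) = Q * x := by
    rw [hx]; push_cast
    linear_combination (q : ℝ) * h
  rw [e1, e2] at h1
  have hqR : (0 : ℝ) < q := by exact_mod_cast hq0
  have hqn' : (q : ℝ) ≤ n := by exact_mod_cast hqn
  have hnR : (0 : ℝ) < n := by exact_mod_cast hn0
  have h2 : |((N * q : ℤ) : ℝ) * (N * x) * (Q * x)| = (N : ℝ) ^ 2 * |(Q : ℝ)| * (q * |x| ^ 2) := by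
    rw [abs_mul, abs_mul, abs_mul, abs_mul]
    push_cast
    rw [abs_mul, abs_of_pos hqR, ← sq_abs (N : ℝ)]
    ring
  rw [h2] at h1
  have h3 : (q : ℝ) * |x| ^ 2 ≤ 1 / n := by
    have h4 : |x| ^ 2 ≤ (1 / ((n : ℝ) + 1)) ^ 2 := pow_le_pow_left₀ (abs_nonneg _) hpq 2
    calc (q : ℝ) * |x| ^ 2 ≤ n * (1 / ((n : ℝ) + 1)) ^ 2 :=
          mul_le_mul hqn' h4 (by positivity) hnR.le
      _ ≤ 1 / n := by
          rw [div_pow, one_pow, mul_one_div, div_le_div_iff₀ (by positivity) hnR]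
          nlinarith
  have h4 : (N : ℝ) ^ 2 * |(Q : ℝ)| * (q * |x| ^ 2) ≤ (N : ℝ) ^ 2 * |(Q : ℝ)| * (1 / n) :=
    mul_le_mul_of_nonneg_left h3 (by positivity)
  have h5 : (N : ℝ) ^ 2 * |(Q : ℝ)| * (1 / n) < ν := by
    rw [div_lt_iff₀ hν0] at hn
    rw [mul_one_div, div_lt_iff₀ hnR]
    linarith
  linarith

/-- the final algebra -/
theorem alg_fin {α β ν : ℝ} (hν0 : 0 < ν)
    (hν : ∀ q p r : ℤ, q ≠ 0 → ν ≤ |(q : ℝ) * (α * q - p) * (β * q - r)|)
    (a b c d e f h : ℤ) (hα : (c : ℝ) + d * α = (a + b * α) * α)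
    (hβ : (e : ℝ) + f * α + h * β = (a + b * α) * β) (hdet : h * (a * d - b * c) = 1)
    (htr : 4 ≤ a + d + h) : False := by
  have hh : h ^ 2 = 1 := by
    have h1 : h ∣ 1 := ⟨a * d - b * c, hdet.symm⟩
    rcases Int.isUnit_iff.1 (isUnit_of_dvd_one h1) with h2 | h2 <;> rw [h2] <;> norm_num
  refine no_rel hν0 hν (a * d - b * c - h * (a + d) + 1) (e * (d - h) - f * c)
    (f * (a - h) - e * b) ?_ ?_
  · intro h0
    refine no_double (a := a + d + h) (b := a * d - b * c + h * (a + d)) htr (r := (h : ℂ)) ?_ ?_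
    · have hh' : (h : ℂ) ^ 2 = 1 := by exact_mod_cast hh
      have h0' : (a : ℂ) * d - b * c - h * (a + d) + 1 = 0 := by exact_mod_cast h0
      have hdet' : (h : ℂ) * (a * d - b * c) = 1 := by exact_mod_cast hdet
      push_cast
      linear_combination hdet'
    · have hh' : (h : ℂ) ^ 2 = 1 := by exact_mod_cast hh
      have h0' : (a : ℂ) * d - b * c - h * (a + d) + 1 = 0 := by exact_mod_cast h0
      push_cast
      linear_combination h0' + hh'
  · have hh' : (h : ℝ) ^ 2 = 1 := by exact_mod_cast hh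
    push_cast
    linear_combination (-(d - b * α - h) : ℝ) * hβ + f * hα - b * β * hα - β * hh'

end Pool.Agent.Y906
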