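import Pool.Agent.Y906.NR3

open Matrix Polynomial H715R2 Filter Topology

namespace Pool.Agent.Y906

/-- a left eigenvector of a regular integer matrix is proportional to an algebraic vector -/
theorem alg_row {H : Matrix (Fin 3) (Fin 3) ℤ} (hdet : H.det = 1) (htr : 4 ≤ H.trace)
    {w : Fin 3 → ℝ} (hw : w ≠ 0) {lam : ℝ} (h : w ᵥ* zR H = lam • w) :
    ∃ (s : ℝ) (K : IntermediateField ℚ ℝ), s ≠ 0 ∧ FiniteDimensional ℚ K ∧
      Module.finrank ℚ K ≤ 3 ∧ ∀ j, s * w j ∈ K := by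
  set b : ℤ := H 0 0 * H 1 1 - H 0 1 * H 1 0 + (H 0 0 * H 2 2 - H 0 2 * H 2 0)
    + (H 1 1 * H 2 2 - H 1 2 * H 2 1) with hb
  have e0 : w 0 * H 0 0 + w 1 * H 1 0 + w 2 * H 2 0 = lam * w 0 := by
    have := congrFun h 0
    simpa [Matrix.vecMul, dotProduct, Fin.sum_univ_three, zR] using this
  have e1 : w 0 * H 0 1 + w 1 * H 1 1 + w 2 * H 2 1 = lam * w 1 := by
    have := congrFun h 1
    simpa [Matrix.vecMul, dotProduct, Fin.sum_univ_three, zR] using this
  have e2 : w 0 * H 0 2 + w 1 * H 1 2 + w 2 * H 2 2 = lam * w 2 := by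
    have := congrFun h 2
    simpa [Matrix.vecMul, dotProduct, Fin.sum_univ_three, zR] using this
  have hd0 : (zR H - lam • (1 : Matrix (Fin 3) (Fin 3) ℝ)).det = 0 := by
    apply Matrix.exists_vecMul_eq_zero_iff.1
    refine ⟨w, hw, ?_⟩
    rw [Matrix.vecMul_sub, h, Matrix.vecMul_smul, Matrix.vecMul_one, sub_self]
  have hdetR : ((H.det : ℤ) : ℝ) = 1 := by rw [hdet]; norm_num
  have hroot : lam ^ 3 - (H.trace : ℝ) * lam ^ 2 + (b : ℝ) * lam - 1 = 0 := by
    rw [Matrix.det_fin_three] at hdetR hd0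
    simp [zR] at hd0
    rw [Matrix.trace_fin_three, hb]
    push_cast at hdetR ⊢
    linear_combination (-1 : ℝ) * hd0 + hdetR
  have hder : 3 * lam ^ 2 - 2 * (H.trace : ℝ) * lam + b ≠ 0 := by
    intro h0
    refine no_double (a := H.trace) (b := b) htr (r := (lam : ℂ)) ?_ ?_
    · exact_mod_cast congrArg (Complex.ofReal) hroot
    · exact_mod_cast congrArg (Complex.ofReal) h0
  have hint : IsIntegral ℚ lam := by
    refine ⟨X ^ 3 - C (H.trace : ℚ) * X ^ 2 + C (b : ℚ) * X - 1, ?_, ?_⟩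
    · monicity!
    · simp only [eval₂_sub, eval₂_add, eval₂_mul, eval₂_pow, eval₂_X, eval₂_C, eval₂_one]
      simpa using hroot
  have hfin : FiniteDimensional ℚ (IntermediateField.adjoin ℚ {lam}) :=
    IntermediateField.adjoin.finiteDimensional hint
  have hrank : Module.finrank ℚ (IntermediateField.adjoin ℚ {lam}) ≤ 3 := by
    rw [IntermediateField.adjoin.finrank hint]
    have hp : (X ^ 3 - C (H.trace : ℚ) * X ^ 2 + C (b : ℚ) * X - 1 : ℚ[X]).Monic := by monicity!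
    have hdeg : (X ^ 3 - C (H.trace : ℚ) * X ^ 2 + C (b : ℚ) * X - 1 : ℚ[X]).natDegree = 3 := by
      compute_degree!
    have h1 := minpoly.min ℚ lam hp (by
      simp only [map_sub, map_add, map_mul, map_pow, aeval_X, aeval_C, map_one]
      simpa using hroot)
    have h2 := Polynomial.natDegree_le_natDegree h1
    rw [hdeg] at h2
    exact h2
  have hlam : lam ∈ IntermediateField.adjoin ℚ {lam} :=
    IntermediateField.mem_adjoin_simple_self ℚ lam
  have hHm : ∀ i j, ((H i j : ℤ) : ℝ) ∈ IntermediateField.adjoin ℚ {lam} := fun i j =>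
    intCast_mem _ _
  -- general elimination
  have key : ∀ (u v z : ℝ) (p q r p' q' r' : ℝ), u * p + v * q + z * r = 0 →
      u * p' + v * q' + z * r' = 0 → q * r' - r * q' ≠ 0 →
      p ∈ IntermediateField.adjoin ℚ {lam} → q ∈ IntermediateField.adjoin ℚ {lam} →
      r ∈ IntermediateField.adjoin ℚ {lam} → p' ∈ IntermediateField.adjoin ℚ {lam} →
      q' ∈ IntermediateField.adjoin ℚ {lam} → r' ∈ IntermediateField.adjoin ℚ {lam} →
      (u = 0 → v = 0 ∧ z = 0) ∧ (u ≠ 0 → u⁻¹ * v ∈ IntermediateField.adjoin ℚ {lam} ∧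
        u⁻¹ * z ∈ IntermediateField.adjoin ℚ {lam}) := by
    intro u v z p q r p' q' r' h1 h2 hD hp hq hr hp' hq' hr'
    have hv : v * (q * r' - r * q') = u * (r * p' - p * r') := by
      linear_combination r' * h1 - r * h2
    have hz : z * (q * r' - r * q') = u * (p * q' - q * p') := by
      linear_combination q * h2 - q' * h1
    constructor
    · intro h0
      rw [h0, zero_mul] at hv hz
      exact ⟨(mul_eq_zero.1 hv).resolve_right hD, (mul_eq_zero.1 hz).resolve_right hD⟩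
    · intro h0
      have hv' : u⁻¹ * v = (r * p' - p * r') / (q * r' - r * q') := by
        rw [eq_div_iff hD, mul_assoc, hv, ← mul_assoc, inv_mul_cancel₀ h0, one_mul]
      have hz' : u⁻¹ * z = (p * q' - q * p') / (q * r' - r * q') := by
        rw [eq_div_iff hD, mul_assoc, hz, ← mul_assoc, inv_mul_cancel₀ h0, one_mul]
      rw [hv', hz']
      exact ⟨div_mem (sub_mem (mul_mem hr hp') (mul_mem hp hr'))
        (sub_mem (mul_mem hq hr') (mul_mem hr hq')),
        div_mem (sub_mem (mul_mem hp hq') (mul_mem hq hp'))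
        (sub_mem (mul_mem hq hr') (mul_mem hr hq'))⟩
  have hsum : 3 * lam ^ 2 - 2 * (H.trace : ℝ) * lam + b =
      (((H 1 1 : ℝ) - lam) * ((H 2 2 : ℝ) - lam) - (H 2 1 : ℝ) * (H 1 2 : ℝ)) +
      (((H 0 0 : ℝ) - lam) * ((H 2 2 : ℝ) - lam) - (H 2 0 : ℝ) * (H 0 2 : ℝ)) +
      (((H 0 0 : ℝ) - lam) * ((H 1 1 : ℝ) - lam) - (H 1 0 : ℝ) * (H 0 1 : ℝ)) := by
    rw [Matrix.trace_fin_three, hb]
    push_cast
    ring
  have hm : ∀ i, (H i i : ℝ) - lam ∈ IntermediateField.adjoin ℚ {lam} := fun i =>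
    sub_mem (hHm i i) hlam
  rw [hsum] at hder
  by_cases c0 : ((H 1 1 : ℝ) - lam) * ((H 2 2 : ℝ) - lam) - (H 2 1 : ℝ) * (H 1 2 : ℝ) = 0
  · by_cases c1 : ((H 0 0 : ℝ) - lam) * ((H 2 2 : ℝ) - lam) - (H 2 0 : ℝ) * (H 0 2 : ℝ) = 0
    · have c2 : ((H 0 0 : ℝ) - lam) * ((H 1 1 : ℝ) - lam) - (H 1 0 : ℝ) * (H 0 1 : ℝ) ≠ 0 := by
        intro c2
        rw [c0, c1, c2] at hder
        simp at hder
      obtain ⟨k1, k2⟩ := key (w 2) (w 0) (w 1) (H 2 0) ((H 0 0 : ℝ) - lam) (H 1 0) (H 2 1) (H 0 1)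
        ((H 1 1 : ℝ) - lam) (by linear_combination e0) (by linear_combination e1) c2
        (hHm _ _) (hm _) (hHm _ _) (hHm _ _) (hHm _ _) (hm _)
      have hw0 : w 2 ≠ 0 := by
        intro h0
        obtain ⟨h1, h2⟩ := k1 h0
        apply hw
        funext i
        fin_cases i
        · exact h1
        · exact h2
        · exact h0
      obtain ⟨h1, h2⟩ := k2 hw0
      refine ⟨(w 2)⁻¹, _, inv_ne_zero hw0, hfin, hrank, fun j => ?_⟩
      fin_cases j
      · exact h1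
      · exact h2
      · show (w 2)⁻¹ * w 2 ∈ _
        rw [inv_mul_cancel₀ hw0]
        exact one_mem _
    · obtain ⟨k1, k2⟩ := key (w 1) (w 0) (w 2) (H 1 0) ((H 0 0 : ℝ) - lam) (H 2 0) (H 1 2) (H 0 2)
        ((H 2 2 : ℝ) - lam) (by linear_combination e0) (by linear_combination e2) c1
        (hHm _ _) (hm _) (hHm _ _) (hHm _ _) (hHm _ _) (hm _)
      have hw0 : w 1 ≠ 0 := by
        intro h0
        obtain ⟨h1, h2⟩ := k1 h0
        apply hw
        funext i
        fin_cases i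
        · exact h1
        · exact h0
        · exact h2
      obtain ⟨h1, h2⟩ := k2 hw0
      refine ⟨(w 1)⁻¹, _, inv_ne_zero hw0, hfin, hrank, fun j => ?_⟩
      fin_cases j
      · exact h1
      · show (w 1)⁻¹ * w 1 ∈ _
        rw [inv_mul_cancel₀ hw0]
        exact one_mem _
      · exact h2
  · obtain ⟨k1, k2⟩ := key (w 0) (w 1) (w 2) (H 0 1) ((H 1 1 : ℝ) - lam) (H 2 1) (H 0 2) (H 1 2)
      ((H 2 2 : ℝ) - lam) (by linear_combination e1) (by linear_combination e2) c0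
      (hHm _ _) (hm _) (hHm _ _) (hHm _ _) (hHm _ _) (hm _)
    have hw0 : w 0 ≠ 0 := by
      intro h0
      obtain ⟨h1, h2⟩ := k1 h0
      apply hw
      funext i
      fin_cases i
      · exact h0
      · exact h1
      · exact h2
    obtain ⟨h1, h2⟩ := k2 hw0
    refine ⟨(w 0)⁻¹, _, inv_ne_zero hw0, hfin, hrank, fun j => ?_⟩
    fin_cases j
    · show (w 0)⁻¹ * w 0 ∈ _
      rw [inv_mul_cancel₀ hw0]
      exact one_mem _
    · exact h1
    · exact h2

end Pool.Agent.Y906
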