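import Pool.Agent.Y906.NR4

open Matrix Polynomial H715R2 Filter Topology

namespace Pool.Agent.Y906

lemma adj_bound {h : Matrix (Fin 3) (Fin 3) ℝ} {R : ℝ} (hR : ∀ i j, |h i j| ≤ R) (i j : Fin 3) :
    |h.adjugate i j| ≤ 2 * R ^ 2 := by
  have hR0 : 0 ≤ R := (abs_nonneg _).trans (hR 0 0)
  have hm : ∀ i j k l : Fin 3, |h i j * h k l| ≤ R ^ 2 := by
    intro i j k l
    rw [abs_mul, sq]
    exact mul_le_mul (hR i j) (hR k l) (abs_nonneg _) hR0
  have hb : ∀ i j k l i' j' k' l' : Fin 3, |h i j * h k l - h i' j' * h k' l'| ≤ 2 * R ^ 2 := by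
    intro i j k l i' j' k' l'
    refine (abs_sub _ _).trans ?_
    linarith [hm i j k l, hm i' j' k' l']
  have hb' : ∀ i j k l i' j' k' l' : Fin 3, |-(h i j * h k l) + h i' j' * h k' l'| ≤ 2 * R ^ 2 := by
    intro i j k l i' j' k' l'
    rw [neg_add_eq_sub]
    exact hb _ _ _ _ _ _ _ _
  rw [Matrix.adjugate_fin_three]
  fin_cases i <;> fin_cases j
  · exact hb _ _ _ _ _ _ _ _
  · exact hb' _ _ _ _ _ _ _ _
  · exact hb _ _ _ _ _ _ _ _
  · exact hb' _ _ _ _ _ _ _ _
  · exact hb _ _ _ _ _ _ _ _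
  · exact hb' _ _ _ _ _ _ _ _
  · exact hb _ _ _ _ _ _ _ _
  · exact hb' _ _ _ _ _ _ _ _
  · exact hb _ _ _ _ _ _ _ _

/-- conjugates by reduced bases are bounded -/
lemma conj_bound {h X : Matrix (Fin 3) (Fin 3) ℝ} {R L : ℝ} (hR : ∀ i j, |h i j| ≤ R)
    (hdet : |h.det| = 1) (hL : ∀ i j, |(h * X) i j| ≤ L) (i j : Fin 3) :
    |X i j| ≤ 6 * R ^ 2 * L := by
  have h1 : h.adjugate * (h * X) = h.det • X := by
    rw [← Matrix.mul_assoc, Matrix.adjugate_mul, Matrix.smul_mul, Matrix.one_mul]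
  have h2 := congrFun (congrFun h1 i) j
  have h3 : |(h.adjugate * (h * X)) i j| = |X i j| := by
    rw [h2, Matrix.smul_apply, smul_eq_mul, abs_mul, hdet, one_mul]
  rw [← h3, Matrix.mul_apply]
  refine (Finset.abs_sum_le_sum_abs _ _).trans ?_
  have hterm : ∀ l ∈ (Finset.univ : Finset (Fin 3)),
      |h.adjugate i l * (h * X) l j| ≤ 2 * R ^ 2 * L := by
    intro l _
    rw [abs_mul]
    exact mul_le_mul (adj_bound hR i l) (hL l j) (abs_nonneg _) (by positivity)
  refine (Finset.sum_le_sum hterm).trans (le_of_eq ?_)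
  simp
  ring

/-- The case of both coordinates going to infinity: a common near return gives an algebraic
limit. -/
theorem limit_case {α β ν ρ R ε δ T : ℝ} (hν0 : 0 < ν)
    (hν : ∀ q p r : ℤ, q ≠ 0 → ν ≤ |(q : ℝ) * (α * q - p) * (β * q - r)|)
    (hT : 0 ≤ T) (hδ : δ ≤ 1)
    {G : Matrix (Fin 3) (Fin 3) ℤ} (hdet : G.det = 1) (htr : 4 ≤ G.trace) (s t : ℕ → ℝ)
    (hs : Tendsto s atTop atTop) (ht : Tendsto t atTop atTop)
    (hdeep : ∀ n, Deep α β ρ R ε (s n) (t n)) (hRD : ∀ n, RD α β δ T (s n) (t n) G) : False := by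
  set B : Matrix (Fin 3) (Fin 3) ℝ := LLm α β * zR G * LLm α β with hB
  set E := Real.exp (3 * T + 4) with hE
  have hE0 : 0 < E := Real.exp_pos _
  have hBrel : LLm α β * zR G = B * LLm α β := by
    rw [hB, Matrix.mul_assoc, LL_sq, Matrix.mul_one]
  have hBW : ∀ n i j, |Real.exp (wt (s n) (t n) i - wt (s n) (t n) j) * B i j| ≤ 2 * E := by
    intro n i j
    obtain ⟨B', hB', h1, h2⟩ := (hRD n).frame hT
    have : B' = B := by
      rw [hB, hB', Matrix.mul_assoc, LL_sq, Matrix.mul_one]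
    rw [this] at h1 h2
    by_cases hij : i = j
    · subst hij; exact h2 i
    · exact (h1 i j hij).trans (by nlinarith)
  choose σ hσ hσR using fun n => (hdeep n).1
  set h : ℕ → Matrix (Fin 3) (Fin 3) ℝ := fun n => lt α β (s n) (t n) * zR (σ n) with hh
  set H : ℕ → Matrix (Fin 3) (Fin 3) ℤ := fun n => (σ n)⁻¹ * G * σ n with hH
  have hR0 : 0 ≤ R := (abs_nonneg _).trans (hσR 0 0 0)
  have hrel : ∀ n i j, (h n * zR (H n)) i j =
      ∑ l, Real.exp (wt (s n) (t n) i - wt (s n) (t n) l) * B i l * h n l j := by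
    intro n i j
    have e1 : σ n * H n = G * σ n := by
      simp only [hH]
      rw [← Matrix.mul_assoc, ← Matrix.mul_assoc, Matrix.mul_nonsing_inv _ (hσ n), Matrix.one_mul]
    have e2 : h n * zR (H n) =
        diagonal (fun i => Real.exp (wt (s n) (t n) i)) * (B * (LLm α β * zR (σ n))) := by
      simp only [hh]
      rw [Matrix.mul_assoc, ← zR_mul, e1, zR_mul]
      unfold lt
      rw [Matrix.mul_assoc, ← Matrix.mul_assoc (LLm α β), hBrel, Matrix.mul_assoc B]
    rw [e2, Matrix.diagonal_mul, Matrix.mul_apply, Finset.mul_sum]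
    refine Finset.sum_congr rfl fun l _ => ?_
    have e3 : h n l j = Real.exp (wt (s n) (t n) l) * (LLm α β * zR (σ n)) l j := by
      simp only [hh]
      unfold lt
      rw [Matrix.mul_assoc, Matrix.diagonal_mul]
    rw [e3, Real.exp_sub]
    have := Real.exp_pos (wt (s n) (t n) l)
    field_simp
  have hdetn : ∀ n, |(h n).det| = 1 := by
    intro n
    simp only [hh]
    rw [det_mul, det_zR, abs_mul, det_lt, one_mul]
    rcases Int.isUnit_iff.1 (hσ n) with h1 | h1 <;> rw [h1] <;> norm_num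
  have hbd : ∀ n i j, |(H n) i j| ≤ ⌈6 * R ^ 2 * (6 * E * R)⌉ := by
    intro n i j
    have h1 : ∀ i j, |(h n * zR (H n)) i j| ≤ 6 * E * R := by
      intro i j
      rw [hrel]
      refine (Finset.abs_sum_le_sum_abs _ _).trans ?_
      have h2 : ∀ l ∈ (Finset.univ : Finset (Fin 3)),
          |Real.exp (wt (s n) (t n) i - wt (s n) (t n) l) * B i l * h n l j| ≤ 2 * E * R := by
        intro l _
        rw [abs_mul]
        exact mul_le_mul (hBW n i l) (hσR n l j) (abs_nonneg _) (by positivity)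
      refine (Finset.sum_le_sum h2).trans (le_of_eq ?_)
      simp
      ring
    have h2 := conj_bound (hσR n) (hdetn n) h1 i j
    have h3 : |(zR (H n)) i j| = ((|H n i j| : ℤ) : ℝ) := by
      rw [Int.cast_abs]; rfl
    rw [h3] at h2
    have h4 := h2.trans (Int.le_ceil _)
    exact_mod_cast h4
  obtain ⟨H₀, hfreq⟩ : ∃ H₀, ∃ᶠ n in atTop, H n = H₀ := by
    have hfin := finite_bounded ⌈6 * R ^ 2 * (6 * E * R)⌉
    by_contra hcon
    push Not at hcon
    have h1 : ∀ M ∈ {M : Matrix (Fin 3) (Fin 3) ℤ | ∀ i j, |M i j| ≤ ⌈6 * R ^ 2 * (6 * E * R)⌉},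
        ∀ᶠ n in atTop, H n ≠ M := by
      intro M _
      exact hcon M
    have h2 := (Filter.eventually_all_finite hfin).2 h1
    obtain ⟨n, hn⟩ := h2.exists
    exact hn (H n) (hbd n) rfl
  obtain ⟨φ, hφ, hφH⟩ := extraction_of_frequently_atTop hfreq
  obtain ⟨h₀, -, ψ, hψ, hlim⟩ := (isCompact_box (d := 3) R).tendsto_subseq (x := fun n => h (φ n))
    (fun n => hσR (φ n))
  have hχ : Tendsto (fun n => φ (ψ n)) atTop atTop := hφ.tendsto_atTop.comp hψ.tendsto_atTop
  have hs' := hs.comp hχ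
  have ht' := ht.comp hχ
  have hYY : h₀ ∈ YY (LLm α β) := by
    rw [YY, Set.mem_iInter]
    intro N
    refine mem_closure_of_tendsto hlim ?_
    have h1 : ∀ᶠ n in atTop, (N : ℝ) ≤ s (φ (ψ n)) := hs'.eventually_ge_atTop _
    have h2 : ∀ᶠ n in atTop, (N : ℝ) ≤ t (φ (ψ n)) := ht'.eventually_ge_atTop _
    filter_upwards [h1, h2] with n h1 h2
    refine ⟨fun i => Real.exp (wt (s (φ (ψ n))) (t (φ (ψ n))) i), σ (φ (ψ n)),
      fun i => Real.exp_pos _, ?_, ?_, ?_, hσ _, rfl⟩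
    · rw [Fin.prod_univ_three, ← Real.exp_add, ← Real.exp_add, ← Real.exp_zero]
      congr 1
      simp
    · show (N : ℝ) ≤ Real.exp (s (φ (ψ n)))
      linarith [Real.add_one_le_exp (s (φ (ψ n)))]
    · show (N : ℝ) ≤ Real.exp (t (φ (ψ n)))
      linarith [Real.add_one_le_exp (t (φ (ψ n)))]
  have hdet0 : |h₀.det| = 1 := by rw [abs_det_closure (YY_subset _ hYY), LLm_det]
  have hH0det : H₀.det = 1 := by
    rw [← hφH 0]
    simp only [hH]
    rw [det_mul, det_mul, hdet, mul_one, ← det_mul, Matrix.nonsing_inv_mul _ (hσ _), det_one]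
  have hH0tr : 4 ≤ H₀.trace := by
    rw [← hφH 0]
    simp only [hH]
    rw [Matrix.trace_mul_comm, ← Matrix.mul_assoc, Matrix.mul_nonsing_inv _ (hσ _), Matrix.one_mul]
    exact htr
  have hent : ∀ i j, Tendsto (fun n => h (φ (ψ n)) i j) atTop (𝓝 (h₀ i j)) := by
    intro i j
    exact ((continuous_apply_apply i j).tendsto h₀).comp hlim
  have hw : (h₀ 0) ᵥ* zR H₀ = B 0 0 • (h₀ 0) := by
    funext j
    have h1 : Tendsto (fun n => (h (φ (ψ n)) * zR H₀) 0 j) atTop (𝓝 ((h₀ * zR H₀) 0 j)) := by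
      simp only [Matrix.mul_apply]
      exact tendsto_finsetSum _ fun l _ => (hent 0 l).mul_const _
    have h2 : Tendsto (fun n => (h (φ (ψ n)) * zR H₀) 0 j) atTop (𝓝 (B 0 0 * h₀ 0 j)) := by
      have h3 : ∀ n, (h (φ (ψ n)) * zR H₀) 0 j = B 0 0 * h (φ (ψ n)) 0 j +
          (Real.exp (-(2 * s (φ (ψ n)) + t (φ (ψ n)))) * (B 0 1 * h (φ (ψ n)) 1 j) +
          Real.exp (-(s (φ (ψ n)) + 2 * t (φ (ψ n)))) * (B 0 2 * h (φ (ψ n)) 2 j)) := by
        intro n
        have h4 := hrel (φ (ψ n)) 0 j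
        rw [hφH] at h4
        rw [h4, Fin.sum_univ_three, sub_self, Real.exp_zero, wt0, wt1, wt2]
        have e1 : -(s (φ (ψ n)) + t (φ (ψ n))) - s (φ (ψ n)) =
          -(2 * s (φ (ψ n)) + t (φ (ψ n))) := by ring
        have e2 : -(s (φ (ψ n)) + t (φ (ψ n))) - t (φ (ψ n)) =
          -(s (φ (ψ n)) + 2 * t (φ (ψ n))) := by ring
        rw [e1, e2]
        ring
      simp only [h3]
      have e1 : Tendsto (fun n => Real.exp (-(2 * s (φ (ψ n)) + t (φ (ψ n))))) atTop (𝓝 0) := by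
        refine Real.tendsto_exp_neg_atTop_nhds_zero.comp ?_
        exact (hs'.const_mul_atTop (by norm_num : (0 : ℝ) < 2)).atTop_add_atTop ht'
      have e2 : Tendsto (fun n => Real.exp (-(s (φ (ψ n)) + 2 * t (φ (ψ n))))) atTop (𝓝 0) := by
        refine Real.tendsto_exp_neg_atTop_nhds_zero.comp ?_
        exact hs'.atTop_add_atTop (ht'.const_mul_atTop (by norm_num : (0 : ℝ) < 2))
      have h5 := ((hent 0 j).const_mul (B 0 0)).add ((e1.mul ((hent 1 j).const_mul (B 0 1))).add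
        (e2.mul ((hent 2 j).const_mul (B 0 2))))
      simpa using h5
    have h3 := tendsto_nhds_unique h1 h2
    rw [Pi.smul_apply, smul_eq_mul, ← h3]
    rfl
  have hw0 : h₀ 0 ≠ 0 := by
    intro h0
    have h1 : h₀.det = 0 := Matrix.det_eq_zero_of_row_eq_zero 0 fun j => congrFun h0 j
    rw [h1, abs_zero] at hdet0
    exact zero_ne_one hdet0
  obtain ⟨c, K, hc, hfin, hrank, hmem⟩ := alg_row hH0det hH0tr hw0 hw
  exact no_alg_point hν0 hν hYY 0 c hc K hrank hmem

end Pool.Agent.Y906
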